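import Pool.Agent.T2h61.PL.Stm

/-!
# NRM: normal form of a path in the coset graph
-/

set_option autoImplicit false

namespace Pool.Agent.T2h61.PL

namespace NRMx

variable {G : Type} [Group G] {A J : Subgroup G}

theorem adj_inr {x : G ⧸ J} {y : (G ⧸ A) ⊕ (G ⧸ J)} (h : (CG A J).Adj (Sum.inr x) y) :
    ∃ g : G, x = (g : G ⧸ J) ∧ y = Sum.inl (g : G ⧸ A) := by
  obtain ⟨g, ⟨h1, -⟩ | ⟨h1, h2⟩⟩ := h
  · exact absurd h1 (by simp)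
  · exact ⟨g, Sum.inr_injective h1, h2⟩

theorem adj_inl {x : G ⧸ A} {y : (G ⧸ A) ⊕ (G ⧸ J)} (h : (CG A J).Adj (Sum.inl x) y) :
    ∃ g : G, x = (g : G ⧸ A) ∧ y = Sum.inr (g : G ⧸ J) := by
  obtain ⟨g, ⟨h1, h2⟩ | ⟨h1, -⟩⟩ := h
  · exact ⟨g, Sum.inl_injective h1, h2⟩
  · exact absurd h1 (by simp)

theorem fix_inl {g h : G} (e : g • (Sum.inl (h : G ⧸ A) : (G ⧸ A) ⊕ (G ⧸ J)) =
    Sum.inl (h : G ⧸ A)) : h⁻¹ * g * h ∈ A := by
  have h1 : ((g * h : G) : G ⧸ A) = h := Sum.inl_injective e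
  have h2 := QuotientGroup.eq.1 h1.symm
  rwa [← mul_assoc] at h2

theorem fix_inr {g h : G} (e : g • (Sum.inr (h : G ⧸ J) : (G ⧸ A) ⊕ (G ⧸ J)) =
    Sum.inr (h : G ⧸ J)) : h⁻¹ * g * h ∈ J := by
  have h1 : ((g * h : G) : G ⧸ J) = h := Sum.inr_injective e
  have h2 := QuotientGroup.eq.1 h1.symm
  rwa [← mul_assoc] at h2

theorem core (s : G) (hs : s ∈ A)
    (hB : ∀ a ∈ A, a ∉ J → ∃ b ∈ A ⊓ J, ∃ b' ∈ A ⊓ J, a = b * s * b')
    (q : ℕ → (G ⧸ A) ⊕ (G ⧸ J)) (hadj : ∀ r < 5, (CG A J).Adj (q r) (q (r + 1)))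
    (hne : ∀ r < 4, q r ≠ q (r + 2)) (x₀ : G ⧸ J) (h0 : q 0 = Sum.inr x₀) :
    ∃ t j₁ j₂ : G, j₁ ∈ J ∧ j₁ ∉ A ∧ j₂ ∈ J ∧ j₂ ∉ A ∧
      ∀ g : G, (∀ r ≤ 5, g • q r = q r) →
        t⁻¹ * g * t ∈ A ∧ t⁻¹ * g * t ∈ J ∧ s⁻¹ * (t⁻¹ * g * t) * s ∈ J ∧
        j₁⁻¹ * (t⁻¹ * g * t) * j₁ ∈ A ∧ s⁻¹ * (j₁⁻¹ * (t⁻¹ * g * t) * j₁) * s ∈ J ∧
        j₂⁻¹ * (s⁻¹ * (j₁⁻¹ * (t⁻¹ * g * t) * j₁) * s) * j₂ ∈ A := by
  have a0 := hadj 0 (by norm_num)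
  have a1 := hadj 1 (by norm_num)
  have a2 := hadj 2 (by norm_num)
  have a3 := hadj 3 (by norm_num)
  have a4 := hadj 4 (by norm_num)
  have n0 := hne 0 (by norm_num)
  have n1 := hne 1 (by norm_num)
  have n2 := hne 2 (by norm_num)
  have n3 := hne 3 (by norm_num)
  norm_num at a0 a1 a2 a3 a4 n0 n1 n2 n3
  rw [h0] at a0
  obtain ⟨g0, e0, f0⟩ := adj_inr a0
  rw [f0] at a1
  obtain ⟨g1, e1, f1⟩ := adj_inl a1
  rw [f1] at a2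
  obtain ⟨g2, e2, f2⟩ := adj_inr a2
  rw [f2] at a3
  obtain ⟨g3, e3, f3⟩ := adj_inl a3
  rw [f3] at a4
  obtain ⟨g4, e4, f4⟩ := adj_inr a4
  rw [h0, e0, f1] at n0
  rw [f0, f2] at n1
  rw [f1, f3] at n2
  rw [f2, f4] at n3
  -- the first letter
  have m1 : g1⁻¹ * g0 ∈ A := QuotientGroup.eq.1 e1.symm
  have m1' : g1⁻¹ * g0 ∉ J := by
    intro hcon
    exact n0 (congrArg Sum.inr (QuotientGroup.eq.2 hcon).symm)
  obtain ⟨b, hb, b', hb', e5⟩ := hB _ m1 m1'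
  obtain ⟨t, ht⟩ : ∃ t, t = g1 * b := ⟨_, rfl⟩
  have k0 : q 0 = Sum.inr ((t * s : G) : G ⧸ J) := by
    rw [h0, e0]
    refine congrArg Sum.inr (QuotientGroup.eq.2 ?_)
    have : g0⁻¹ * (t * s) = b'⁻¹ := by
      have h1 : g0 = g1 * (b * s * b') := by rw [← e5]; group
      rw [h1, ht]
      group
    rw [this]
    exact J.inv_mem hb'.2
  have k1 : q 1 = Sum.inl (t : G ⧸ A) := by
    rw [f0, e1]
    refine congrArg Sum.inl (QuotientGroup.eq.2 ?_)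
    rw [ht, inv_mul_cancel_left]
    exact hb.1
  have k2 : q 2 = Sum.inr (t : G ⧸ J) := by
    rw [f1]
    refine congrArg Sum.inr (QuotientGroup.eq.2 ?_)
    rw [ht, inv_mul_cancel_left]
    exact hb.2
  -- the second letter
  obtain ⟨j, hj⟩ : ∃ j, j = t⁻¹ * g2 := ⟨_, rfl⟩
  have e2' : ((t : G) : G ⧸ J) = g2 := by
    rw [← e2]
    exact Sum.inr_injective (k2.symm.trans f1)
  have m2 : j ∈ J := by rw [hj]; exact QuotientGroup.eq.1 e2'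
  have g2e : g2 = t * j := by rw [hj]; group
  have m2' : j ∉ A := by
    intro hcon
    apply n1
    rw [← f0, k1, g2e]
    refine congrArg Sum.inl (QuotientGroup.eq.2 ?_)
    rwa [inv_mul_cancel_left]
  -- the third letter
  obtain ⟨a', ha'⟩ : ∃ a', a' = g2⁻¹ * g3 := ⟨_, rfl⟩
  have m3 : a' ∈ A := by rw [ha']; exact QuotientGroup.eq.1 e3
  have m3' : a' ∉ J := by
    intro hcon
    apply n2
    rw [← f1, k2]
    refine congrArg Sum.inr (QuotientGroup.eq.2 ?_)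
    have : t⁻¹ * g3 = j * a' := by rw [ha', g2e]; group
    rw [this]
    exact J.mul_mem m2 hcon
  obtain ⟨c, hc, c', hc', e6⟩ := hB _ m3 m3'
  obtain ⟨j₁, hj₁⟩ : ∃ j₁, j₁ = j * c := ⟨_, rfl⟩
  have m4 : j₁ ∈ J := by rw [hj₁]; exact J.mul_mem m2 hc.2
  have m4' : j₁ ∉ A := by
    intro hcon
    apply m2'
    have : j = j₁ * c⁻¹ := by rw [hj₁]; group
    rw [this]
    exact A.mul_mem hcon (A.inv_mem hc.1)
  have k3 : q 3 = Sum.inl ((t * j₁ : G) : G ⧸ A) := by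
    rw [f2]
    refine congrArg Sum.inl (QuotientGroup.eq.2 ?_)
    have : g2⁻¹ * (t * j₁) = c := by rw [hj₁, g2e]; group
    rw [this]
    exact hc.1
  have k4 : q 4 = Sum.inr ((t * j₁ * s : G) : G ⧸ J) := by
    rw [f3]
    refine congrArg Sum.inr (QuotientGroup.eq.2 ?_)
    have : g3⁻¹ * (t * j₁ * s) = c'⁻¹ := by
      have h1 : g3 = g2 * (c * s * c') := by rw [← e6, ha']; group
      rw [h1, hj₁, g2e]
      group
    rw [this]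
    exact J.inv_mem hc'.2
  -- the last letter
  obtain ⟨j₂, hj₂⟩ : ∃ j₂, j₂ = (t * j₁ * s)⁻¹ * g4 := ⟨_, rfl⟩
  have e4' : ((t * j₁ * s : G) : G ⧸ J) = g4 := by
    rw [← e4]
    exact Sum.inr_injective (k4.symm.trans f3)
  have m5 : j₂ ∈ J := by rw [hj₂]; exact QuotientGroup.eq.1 e4'
  have g4e : g4 = t * j₁ * s * j₂ := by rw [hj₂]; group
  have k5 : q 5 = Sum.inl ((t * j₁ * s * j₂ : G) : G ⧸ A) := by rw [f4, g4e]
  have m5' : j₂ ∉ A := by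
    intro hcon
    apply n3
    rw [← f2, k3, g4e]
    refine congrArg Sum.inl (QuotientGroup.eq.2 ?_)
    have : (t * j₁)⁻¹ * (t * j₁ * s * j₂) = s * j₂ := by group
    rw [this]
    exact A.mul_mem hs hcon
  refine ⟨t, j₁, j₂, m4, m4', m5, m5', fun g hg => ?_⟩
  have r0 := hg 0 (by norm_num)
  have r1 := hg 1 (by norm_num)
  have r2 := hg 2 (by norm_num)
  have r3 := hg 3 (by norm_num)
  have r4 := hg 4 (by norm_num)
  have r5 := hg 5 (by norm_num)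
  rw [k0] at r0
  rw [k1] at r1
  rw [k2] at r2
  rw [k3] at r3
  rw [k4] at r4
  rw [k5] at r5
  refine ⟨fix_inl r1, fix_inr r2, ?_, ?_, ?_, ?_⟩
  · have := fix_inr r0
    have e : (t * s)⁻¹ * g * (t * s) = s⁻¹ * (t⁻¹ * g * t) * s := by group
    rwa [e] at this
  · have := fix_inl r3
    have e : (t * j₁)⁻¹ * g * (t * j₁) = j₁⁻¹ * (t⁻¹ * g * t) * j₁ := by group
    rwa [e] at this
  · have := fix_inr r4
    have e : (t * j₁ * s)⁻¹ * g * (t * j₁ * s) = s⁻¹ * (j₁⁻¹ * (t⁻¹ * g * t) * j₁) * s := by group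
    rwa [e] at this
  · have := fix_inl r5
    have e : (t * j₁ * s * j₂)⁻¹ * g * (t * j₁ * s * j₂) =
        j₂⁻¹ * (s⁻¹ * (j₁⁻¹ * (t⁻¹ * g * t) * j₁) * s) * j₂ := by group
    rwa [e] at this

end NRMx

theorem t_NRM : S_NRM := by
  intro G _ A J s hs hB u v w hw hlen
  have hadj : ∀ r < 6, (CG A J).Adj (w.getVert r) (w.getVert (r + 1)) := fun r hr =>
    w.adj_getVert_succ (by omega)
  have hinj := hw.getVert_injOn
  have hne : ∀ r r', r ≤ 6 → r' ≤ 6 → r ≠ r' → w.getVert r ≠ w.getVert r' := by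
    intro r r' h1 h2 h3 h4
    exact h3 (hinj (by simp only [Set.mem_setOf_eq]; omega) (by simp only [Set.mem_setOf_eq]; omega) h4)
  have hmain : ∀ i ≤ 1, ∀ x₀ : G ⧸ J, w.getVert i = Sum.inr x₀ →
      ∃ t j₁ j₂ : G, j₁ ∈ J ∧ j₁ ∉ A ∧ j₂ ∈ J ∧ j₂ ∉ A ∧
      ∀ g : G, (∀ x ∈ w.support, g • x = x) →
        t⁻¹ * g * t ∈ A ∧ t⁻¹ * g * t ∈ J ∧ s⁻¹ * (t⁻¹ * g * t) * s ∈ J ∧
        j₁⁻¹ * (t⁻¹ * g * t) * j₁ ∈ A ∧ s⁻¹ * (j₁⁻¹ * (t⁻¹ * g * t) * j₁) * s ∈ J ∧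
        j₂⁻¹ * (s⁻¹ * (j₁⁻¹ * (t⁻¹ * g * t) * j₁) * s) * j₂ ∈ A := by
    intro i hi x₀ hx
    obtain ⟨t, j₁, j₂, h1, h2, h3, h4, h5⟩ := NRMx.core s hs hB (fun r => w.getVert (i + r))
      (fun r hr => by
        have := hadj (i + r) (by omega)
        rwa [add_assoc] at this)
      (fun r hr => hne _ _ (by omega) (by omega) (by omega)) x₀ hx
    exact ⟨t, j₁, j₂, h1, h2, h3, h4, fun g hg => h5 g fun r _ => hg _ (w.getVert_mem_support _)⟩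
  rcases h0 : w.getVert 0 with x | x
  · have h1 := hadj 0 (by norm_num)
    rw [h0] at h1
    obtain ⟨g, -, h2⟩ := NRMx.adj_inl h1
    exact hmain 1 le_rfl _ h2
  · exact hmain 0 (by norm_num) _ h0

end Pool.Agent.T2h61.PL
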