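import Pool.Agent.T2h61.PL.Stm7
import Pool.Agent.T2h61.PL.NRM

/-!
# NRM7: normal form of a path of length at least seven in the coset graph
-/

set_option autoImplicit false

namespace Pool.Agent.T2h61.PL

namespace NRMy

open NRMx

variable {G : Type} [Group G] {A J : Subgroup G}

theorem core (s : G) (hs : s ∈ A)
    (hB : ∀ a ∈ A, a ∉ J → ∃ b ∈ A ⊓ J, ∃ b' ∈ A ⊓ J, a = b * s * b')
    (q : ℕ → (G ⧸ A) ⊕ (G ⧸ J)) (hadj : ∀ r < 6, (CG A J).Adj (q r) (q (r + 1)))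
    (hne : ∀ r < 5, q r ≠ q (r + 2)) (x₀ : G ⧸ J) (h0 : q 0 = Sum.inr x₀) :
    ∃ t j₁ j₂ : G, j₁ ∈ J ∧ j₁ ∉ A ∧ j₂ ∈ J ∧ j₂ ∉ A ∧
      ∀ g : G, (∀ r ≤ 6, g • q r = q r) → Cnd A J s j₁ j₂ (t⁻¹ * g * t) := by
  have a0 := hadj 0 (by norm_num)
  have a1 := hadj 1 (by norm_num)
  have a2 := hadj 2 (by norm_num)
  have a3 := hadj 3 (by norm_num)
  have a4 := hadj 4 (by norm_num)
  have a5 := hadj 5 (by norm_num)
  have n0 := hne 0 (by norm_num)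
  have n1 := hne 1 (by norm_num)
  have n2 := hne 2 (by norm_num)
  have n3 := hne 3 (by norm_num)
  have n4 := hne 4 (by norm_num)
  norm_num at a0 a1 a2 a3 a4 a5 n0 n1 n2 n3 n4
  rw [h0] at a0
  obtain ⟨g0, e0, f0⟩ := adj_inr a0
  rw [f0] at a1
  obtain ⟨g1, e1, f1⟩ := adj_inl a1
  rw [f1] at a2
  obtain ⟨g2, e2, f2⟩ := adj_inr a2
  rw [f2] at a3
  obtain ⟨g3, e3, f3⟩ := adj_inl a3
  rw [f3] at a4
  obtain ⟨g4, e4, f4⟩ := adj_inr a4
  rw [f4] at a5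
  obtain ⟨g5, e5', f5⟩ := adj_inl a5
  rw [h0, e0, f1] at n0
  rw [f0, f2] at n1
  rw [f1, f3] at n2
  rw [f2, f4] at n3
  rw [f3, f5] at n4
  -- the first letter
  have m1 : g1⁻¹ * g0 ∈ A := QuotientGroup.eq.1 e1.symm
  have m1' : g1⁻¹ * g0 ∉ J := by
    intro hcon
    exact n0 (congrArg Sum.inr (QuotientGroup.eq.2 hcon).symm)
  obtain ⟨b, hb, b', hb', e5⟩ := hB _ m1 m1'
  obtain ⟨t, ht⟩ : ∃ t, t = g1 * b := ⟨_, rfl⟩
  have k0 : q 0 = Sum.inr ((t * s : G) : G ⧸ J) := by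
    rw [h0, e0]
    refine congrArg Sum.inr (QuotientGroup.eq.2 ?_)
    have : g0⁻¹ * (t * s) = b'⁻¹ := by
      have h1 : g0 = g1 * (b * s * b') := by rw [← e5]; group
      rw [h1, ht]
      group
    rw [this]
    exact J.inv_mem hb'.2
  have k1 : q 1 = Sum.inl (t : G ⧸ A) := by
    rw [f0, e1]
    refine congrArg Sum.inl (QuotientGroup.eq.2 ?_)
    rw [ht, inv_mul_cancel_left]
    exact hb.1
  have k2 : q 2 = Sum.inr (t : G ⧸ J) := by
    rw [f1]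
    refine congrArg Sum.inr (QuotientGroup.eq.2 ?_)
    rw [ht, inv_mul_cancel_left]
    exact hb.2
  -- the second letter
  obtain ⟨j, hj⟩ : ∃ j, j = t⁻¹ * g2 := ⟨_, rfl⟩
  have e2' : ((t : G) : G ⧸ J) = g2 := by
    rw [← e2]
    exact Sum.inr_injective (k2.symm.trans f1)
  have m2 : j ∈ J := by rw [hj]; exact QuotientGroup.eq.1 e2'
  have g2e : g2 = t * j := by rw [hj]; group
  have m2' : j ∉ A := by
    intro hcon
    apply n1
    rw [← f0, k1, g2e]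
    refine congrArg Sum.inl (QuotientGroup.eq.2 ?_)
    rwa [inv_mul_cancel_left]
  -- the third letter
  obtain ⟨a', ha'⟩ : ∃ a', a' = g2⁻¹ * g3 := ⟨_, rfl⟩
  have m3 : a' ∈ A := by rw [ha']; exact QuotientGroup.eq.1 e3
  have m3' : a' ∉ J := by
    intro hcon
    apply n2
    rw [← f1, k2]
    refine congrArg Sum.inr (QuotientGroup.eq.2 ?_)
    have : t⁻¹ * g3 = j * a' := by rw [ha', g2e]; group
    rw [this]
    exact J.mul_mem m2 hcon
  obtain ⟨c, hc, c', hc', e6⟩ := hB _ m3 m3'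
  obtain ⟨j₁, hj₁⟩ : ∃ j₁, j₁ = j * c := ⟨_, rfl⟩
  have m4 : j₁ ∈ J := by rw [hj₁]; exact J.mul_mem m2 hc.2
  have m4' : j₁ ∉ A := by
    intro hcon
    apply m2'
    have : j = j₁ * c⁻¹ := by rw [hj₁]; group
    rw [this]
    exact A.mul_mem hcon (A.inv_mem hc.1)
  have k3 : q 3 = Sum.inl ((t * j₁ : G) : G ⧸ A) := by
    rw [f2]
    refine congrArg Sum.inl (QuotientGroup.eq.2 ?_)
    have : g2⁻¹ * (t * j₁) = c := by rw [hj₁, g2e]; group
    rw [this]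
    exact hc.1
  have k4 : q 4 = Sum.inr ((t * j₁ * s : G) : G ⧸ J) := by
    rw [f3]
    refine congrArg Sum.inr (QuotientGroup.eq.2 ?_)
    have : g3⁻¹ * (t * j₁ * s) = c'⁻¹ := by
      have h1 : g3 = g2 * (c * s * c') := by rw [← e6, ha']; group
      rw [h1, hj₁, g2e]
      group
    rw [this]
    exact J.inv_mem hc'.2
  -- the last letter
  obtain ⟨i₂, hi₂⟩ : ∃ i₂, i₂ = (t * j₁ * s)⁻¹ * g4 := ⟨_, rfl⟩
  have e4' : ((t * j₁ * s : G) : G ⧸ J) = g4 := by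
    rw [← e4]
    exact Sum.inr_injective (k4.symm.trans f3)
  have m5 : i₂ ∈ J := by rw [hi₂]; exact QuotientGroup.eq.1 e4'
  have g4e : g4 = t * j₁ * s * i₂ := by rw [hi₂]; group
  have k5 : q 5 = Sum.inl ((t * j₁ * s * i₂ : G) : G ⧸ A) := by rw [f4, g4e]
  have m5' : i₂ ∉ A := by
    intro hcon
    apply n3
    rw [← f2, k3, g4e]
    refine congrArg Sum.inl (QuotientGroup.eq.2 ?_)
    have : (t * j₁)⁻¹ * (t * j₁ * s * i₂) = s * i₂ := by group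
    rw [this]
    exact A.mul_mem hs hcon
  -- the very last letter
  obtain ⟨a'', ha''⟩ : ∃ a'', a'' = g4⁻¹ * g5 := ⟨_, rfl⟩
  have m6 : a'' ∈ A := by rw [ha'']; exact QuotientGroup.eq.1 e5'
  have m6' : a'' ∉ J := by
    intro hcon
    apply n4
    rw [← f3, k4]
    refine congrArg Sum.inr (QuotientGroup.eq.2 ?_)
    have : (t * j₁ * s)⁻¹ * g5 = i₂ * a'' := by rw [ha'', g4e]; group
    rw [this]
    exact J.mul_mem m5 hcon
  obtain ⟨d, hd, d', hd', e7⟩ := hB _ m6 m6'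
  obtain ⟨j₂, hj₂⟩ : ∃ j₂, j₂ = i₂ * d := ⟨_, rfl⟩
  have m7 : j₂ ∈ J := by rw [hj₂]; exact J.mul_mem m5 hd.2
  have m7' : j₂ ∉ A := by
    intro hcon
    apply m5'
    have : i₂ = j₂ * d⁻¹ := by rw [hj₂]; group
    rw [this]
    exact A.mul_mem hcon (A.inv_mem hd.1)
  have k5 : q 5 = Sum.inl ((t * j₁ * s * j₂ : G) : G ⧸ A) := by
    rw [f4]
    refine congrArg Sum.inl (QuotientGroup.eq.2 ?_)
    have : g4⁻¹ * (t * j₁ * s * j₂) = d := by rw [hj₂, g4e]; group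
    rw [this]
    exact hd.1
  have k6 : q 6 = Sum.inr ((t * j₁ * s * j₂ * s : G) : G ⧸ J) := by
    rw [f5]
    refine congrArg Sum.inr (QuotientGroup.eq.2 ?_)
    have : g5⁻¹ * (t * j₁ * s * j₂ * s) = d'⁻¹ := by
      have h1 : g5 = g4 * (d * s * d') := by rw [← e7, ha'']; group
      rw [h1, hj₂, g4e]
      group
    rw [this]
    exact J.inv_mem hd'.2
  refine ⟨t, j₁, j₂, m4, m4', m7, m7', fun g hg => ?_⟩
  have r0 := hg 0 (by norm_num)
  have r1 := hg 1 (by norm_num)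
  have r2 := hg 2 (by norm_num)
  have r3 := hg 3 (by norm_num)
  have r4 := hg 4 (by norm_num)
  have r5 := hg 5 (by norm_num)
  have r6 := hg 6 (by norm_num)
  rw [k0] at r0
  rw [k1] at r1
  rw [k2] at r2
  rw [k3] at r3
  rw [k4] at r4
  rw [k5] at r5
  rw [k6] at r6
  refine ⟨fix_inl r1, fix_inr r2, ?_, ?_, ?_, ?_, ?_⟩
  · have := fix_inr r0
    have e : (t * s)⁻¹ * g * (t * s) = s⁻¹ * (t⁻¹ * g * t) * s := by group
    rwa [e] at this
  · have := fix_inl r3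
    have e : (t * j₁)⁻¹ * g * (t * j₁) = j₁⁻¹ * (t⁻¹ * g * t) * j₁ := by group
    rwa [e] at this
  · have := fix_inr r4
    have e : (t * j₁ * s)⁻¹ * g * (t * j₁ * s) = s⁻¹ * (j₁⁻¹ * (t⁻¹ * g * t) * j₁) * s := by group
    rwa [e] at this
  · have := fix_inl r5
    have e : (t * j₁ * s * j₂)⁻¹ * g * (t * j₁ * s * j₂) =
        j₂⁻¹ * (s⁻¹ * (j₁⁻¹ * (t⁻¹ * g * t) * j₁) * s) * j₂ := by group
    rwa [e] at this
  · have := fix_inr r6
    have e : (t * j₁ * s * j₂ * s)⁻¹ * g * (t * j₁ * s * j₂ * s) =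
        s⁻¹ * (j₂⁻¹ * (s⁻¹ * (j₁⁻¹ * (t⁻¹ * g * t) * j₁) * s) * j₂) * s := by group
    rwa [e] at this

end NRMy

theorem t_NRM7 : S_NRM7 := by
  intro G _ A J s hs hB u v w hw hlen
  have hadj : ∀ r < 7, (CG A J).Adj (w.getVert r) (w.getVert (r + 1)) := fun r hr =>
    w.adj_getVert_succ (by omega)
  have hinj := hw.getVert_injOn
  have hne : ∀ r r', r ≤ 7 → r' ≤ 7 → r ≠ r' → w.getVert r ≠ w.getVert r' := by
    intro r r' h1 h2 h3 h4
    exact h3 (hinj (by simp only [Set.mem_setOf_eq]; omega) (by simp only [Set.mem_setOf_eq]; omega) h4)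
  have hmain : ∀ i ≤ 1, ∀ x₀ : G ⧸ J, w.getVert i = Sum.inr x₀ →
      ∃ t j₁ j₂ : G, j₁ ∈ J ∧ j₁ ∉ A ∧ j₂ ∈ J ∧ j₂ ∉ A ∧
      ∀ g : G, (∀ x ∈ w.support, g • x = x) → Cnd A J s j₁ j₂ (t⁻¹ * g * t) := by
    intro i hi x₀ hx
    obtain ⟨t, j₁, j₂, h1, h2, h3, h4, h5⟩ := NRMy.core s hs hB (fun r => w.getVert (i + r))
      (fun r hr => by
        have := hadj (i + r) (by omega)
        rwa [add_assoc] at this)
      (fun r hr => hne _ _ (by omega) (by omega) (by omega)) x₀ hx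
    exact ⟨t, j₁, j₂, h1, h2, h3, h4, fun g hg => h5 g fun r _ => hg _ (w.getVert_mem_support _)⟩
  rcases h0 : w.getVert 0 with x | x
  · have h1 := hadj 0 (by norm_num)
    rw [h0] at h1
    obtain ⟨g, -, h2⟩ := NRMx.adj_inl h1
    exact hmain 1 le_rfl _ h2
  · exact hmain 0 (by norm_num) _ h0

end Pool.Agent.T2h61.PL
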