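import Pool.Agent.T2h61.PL.Stm

set_option autoImplicit false

namespace Pool.Agent.T2h61.PL.CON

open Pool.Agent.T2h61.PL

theorem lr {G : Type} [Group G] (A J : Subgroup G) (g : G) :
    (CG A J).Reachable (Sum.inl (g : G ⧸ A)) (Sum.inr (g : G ⧸ J)) :=
  SimpleGraph.Adj.reachable ⟨g, Or.inl ⟨rfl, rfl⟩⟩

theorem reach {G : Type} [Group G] (A J : Subgroup G) (g : G) (hg : g ∈ A ⊔ J) :
    ∀ h : G, (CG A J).Reachable (Sum.inl (h : G ⧸ A)) (Sum.inl ((h * g : G) : G ⧸ A)) := by
  have hA : ∀ a ∈ A, ∀ h : G, (CG A J).Reachable (Sum.inl (h : G ⧸ A))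
      (Sum.inl ((h * a : G) : G ⧸ A)) := by
    intro a ha h
    have : ((h * a : G) : G ⧸ A) = (h : G ⧸ A) := by
      rw [QuotientGroup.eq]
      simpa using ha
    rw [this]
  have hJ : ∀ a ∈ J, ∀ h : G, (CG A J).Reachable (Sum.inl (h : G ⧸ A))
      (Sum.inl ((h * a : G) : G ⧸ A)) := by
    intro a ha h
    have h1 : ((h * a : G) : G ⧸ J) = (h : G ⧸ J) := by
      rw [QuotientGroup.eq]
      simpa using ha
    refine (lr A J h).trans ?_
    rw [← h1]
    exact (lr A J (h * a)).symm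
  rw [Subgroup.sup_eq_closure] at hg
  induction hg using Subgroup.closure_induction with
  | mem x hx =>
    rcases hx with hx | hx
    · exact hA x hx
    · exact hJ x hx
  | one =>
    intro h
    rw [mul_one]
  | mul x y _ _ hx hy =>
    intro h
    rw [← mul_assoc]
    exact (hx h).trans (hy (h * x))
  | inv x _ hx =>
    intro h
    have := hx (h * x⁻¹)
    rw [inv_mul_cancel_right] at this
    exact this.symm

theorem t_CON : S_CON := by
  intro G _ A J hAJ
  have h1 : ∀ v : (G ⧸ A) ⊕ (G ⧸ J), (CG A J).Reachable (Sum.inl ((1 : G) : G ⧸ A)) v := by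
    intro v
    rcases v with v | v
    · obtain ⟨g, rfl⟩ := QuotientGroup.mk_surjective v
      have := reach A J g (by rw [hAJ]; trivial) 1
      rwa [one_mul] at this
    · obtain ⟨g, rfl⟩ := QuotientGroup.mk_surjective v
      have := reach A J g (by rw [hAJ]; trivial) 1
      rw [one_mul] at this
      exact this.trans (lr A J g)
  have : Nonempty ((G ⧸ A) ⊕ (G ⧸ J)) := ⟨Sum.inl ((1 : G) : G ⧸ A)⟩
  exact ⟨fun u v => (h1 u).symm.trans (h1 v)⟩

end Pool.Agent.T2h61.PL.CON
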