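import Pool.Agent.T2h61.PL.Stm

set_option autoImplicit false

namespace Pool.Agent.T2h61.PL.TREE

open Pool.Agent.T2h61.PL

open Classical in
theorem t_TREE : S_TREE := by
  intro V T h hconn hne hlow
  refine ⟨hconn, ?_⟩
  intro v c hc
  obtain ⟨u, hu, hmax⟩ := Finset.exists_max_image c.support.toFinset h
    ⟨v, List.mem_toFinset.2 c.start_mem_support⟩
  rw [List.mem_toFinset] at hu
  have hc' : (c.rotate u hu).IsCycle := hc.rotate hu
  have hmax' : ∀ x ∈ (c.rotate u hu).support, h x ≤ h u := by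
    intro x hx
    exact hmax x (List.mem_toFinset.2 ((c.mem_support_rotate_iff u hu).1 hx))
  generalize c.rotate u hu = c' at hc' hmax'
  have hn : ¬ c'.Nil := hc'.not_nil
  have h1 : T.Adj u c'.snd := c'.adj_snd hn
  have h2 : T.Adj u c'.penultimate := (c'.adj_penultimate hn).symm
  have h3 := hmax' _ (c'.getVert_mem_support 1)
  have h4 : h c'.penultimate ≤ h u := hmax' _ (c'.getVert_mem_support _)
  exact hc'.snd_ne_penultimate (hlow u _ _ h1 h2 (lt_of_le_of_ne h3 (hne _ _ h1).symm)
    (lt_of_le_of_ne h4 (hne _ _ h2).symm))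

end Pool.Agent.T2h61.PL.TREE
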