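import Pool.Agent.T2h61.PL.Stm

/-!
# Corrected statements (paths of length at least seven)

`S_FIX` is false when the polynomial of `j₂` is quadratic; with one more vertex of the path everything
works.
-/

set_option autoImplicit false

namespace Pool.Agent.T2h61.PL

open Pool.Agent.Y110.FJ (ClosedE)
open Pool.Agent.N509.TX (AcylF)

/-- the conditions on an element which fixes a path of length at least seven -/
abbrev Cnd {G : Type} [Group G] (A J : Subgroup G) (s j₁ j₂ g : G) : Prop :=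
  g ∈ A ∧ g ∈ J ∧ s⁻¹ * g * s ∈ J ∧ j₁⁻¹ * g * j₁ ∈ A ∧ s⁻¹ * (j₁⁻¹ * g * j₁) * s ∈ J ∧
    j₂⁻¹ * (s⁻¹ * (j₁⁻¹ * g * j₁) * s) * j₂ ∈ A ∧
    s⁻¹ * (j₂⁻¹ * (s⁻¹ * (j₁⁻¹ * g * j₁) * s) * j₂) * s ∈ J

/-- **NRM7.** Normal form of a path of length at least seven in the coset graph. -/
def S_NRM7 : Prop := ∀ (G : Type) [Group G] (A J : Subgroup G) (s : G), s ∈ A →
  (∀ a ∈ A, a ∉ J → ∃ b ∈ A ⊓ J, ∃ b' ∈ A ⊓ J, a = b * s * b') →
  ∀ (u v : (G ⧸ A) ⊕ (G ⧸ J)) (w : (CG A J).Walk u v), w.IsPath → 7 ≤ w.length →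
    ∃ t j₁ j₂ : G, j₁ ∈ J ∧ j₁ ∉ A ∧ j₂ ∈ J ∧ j₂ ∉ A ∧
      ∀ g : G, (∀ x ∈ w.support, g • x = x) → Cnd A J s j₁ j₂ (t⁻¹ * g * t)

/-- **FIX7.** In characteristic zero such an element is determined by its eigenvalue `δ`,
`g y = δ y + ε`, which is a root of unity. -/
def S_FIX7 : Prop := S_GRP → ∀ (k : Type) [Field k] [CharZero k] (K : Subfield k) (j₁ j₂ : Au k),
  j₁ ∈ triS K → j₁ ∉ affS K → j₂ ∈ triS K → j₂ ∉ affS K →
  ∃ F : Au k → k, (∀ g, Cnd (affS K) (triS K) (sw k) j₁ j₂ g →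
      F g ∈ K ∧ ∃ n : ℕ, n ≠ 0 ∧ F g ^ n = 1) ∧
    ∀ g g', Cnd (affS K) (triS K) (sw k) j₁ j₂ g → Cnd (affS K) (triS K) (sw k) j₁ j₂ g' →
      F g = F g' → g = g'

/-- **ACY7.** The tame group over a field with finitely many roots of unity. -/
def S_ACY7 : Prop := S_GRP → S_VA → S_VJ → S_BRU → S_NRM7 → S_FIX7 → S_GT →
  S_TREE → S_CON → S_DEG → ∀ (C : ∀ (G : Type) [Group G], Prop), ClosedE C →
  (∀ (G : Type) [Group G], derivedSeries G 2 = ⊥ → C G) → AcylF C →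
  ∀ (k : Type) [Field k] [CharZero k], C (Matrix.GeneralLinearGroup (Fin 3) k) →
  ∀ K : Subfield k, FinMu K → C (tame K)

end Pool.Agent.T2h61.PL
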