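import Pool.Agent.T2h61.PL.All

/-!
# Groups of automorphisms of the affine plane, reduced to the affine elements
-/

set_option autoImplicit false

namespace Pool.Agent.T2h61.PL

open MvPolynomial
open Pool.Agent.Y110.FJ (ClosedE)
open Pool.Agent.N509.TX (AcylF of_fg)
open Pool.Agent.T2h61.PL.ACY7 (act noinv stab_inl stab_inr conj)

/-- the theorem of Jung -/
theorem jung (k : Type) [Field k] [CharZero k] : tame (⊤ : Subfield k) = (⊤ : Subgroup (Au k)) :=
  JFN.t_JFN t_GRP JAC.t_JAC LDF.t_LDF INQ.t_INQ CHN.t_CHN JDG.t_JDG k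

variable {C : ∀ (G : Type) [Group G], Prop}

/-- subgroups of the tame group over a field with finitely many roots of unity -/
theorem acg0 (hC : ClosedE C) (hM : ∀ (G : Type) [Group G], derivedSeries G 2 = ⊥ → C G)
    (hA : AcylF C) {k : Type} [Field k] [CharZero k] (K : Subfield k) (hmu : FinMu K)
    (G : Subgroup (Au k))
    (hV : ∀ (g : Au k) (H : Subgroup (Au k)), H ≤ affS (⊤ : Subfield k) →
      (∀ h ∈ H, g * h * g⁻¹ ∈ G) → C H)
    (H : Subgroup (tame K)) (hfg : Group.FG H) (hHG : ∀ h ∈ H, (h : Au k) ∈ G) : C H := by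
  have hT : (CG (AA K) (JJ K)).IsTree := t_GT TREE.t_TREE CON.t_CON DEG.t_DEG t_GRP k K
  obtain ⟨hsw, hbru⟩ := BRU.t_BRU t_GRP k K
  have hCJ : C (triS K) := (Pool.Agent.T2h60.CY.HQ.solv hC hM 3 _ (t_VJ t_GRP k K)).self
  have hstab : ∀ v : (tame K ⧸ AA K) ⊕ (tame K ⧸ JJ K), C ↥(MulAction.stabilizer H v) := by
    intro v
    rcases v with v | v
    · obtain ⟨x, rfl⟩ := QuotientGroup.mk_surjective v
      obtain ⟨Hx, hHx⟩ : ∃ Hx : Subgroup (Au k), Hx = affS K ⊓ G.comap (MulAut.conj (x : Au k)).toMonoidHom :=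
        ⟨_, rfl⟩
      have h1 : C Hx := by
        refine hV (x : Au k) Hx ?_ ?_
        · rw [hHx]
          exact inf_le_left.trans (LIM.affS_mono le_top)
        · intro h hh
          rw [hHx] at hh
          exact hh.2
      have h2 : ∀ y : MulAction.stabilizer H (Sum.inl (x : tame K ⧸ AA K) :
          (tame K ⧸ AA K) ⊕ (tame K ⧸ JJ K)),
          ((x⁻¹ * ((y : H) : tame K) * x : tame K) : Au k) ∈ Hx := by
        intro y
        have h3 := stab_inl (AA K) (JJ K) x ((y : H) : tame K) y.2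
        rw [hHx]
        refine ⟨h3, ?_⟩
        show (x : Au k) * ((x⁻¹ * ((y : H) : tame K) * x : tame K) : Au k) * (x : Au k)⁻¹ ∈ G
        have h4 : (x : Au k) * ((x⁻¹ * ((y : H) : tame K) * x : tame K) : Au k) * (x : Au k)⁻¹ =
            (((y : H) : tame K) : Au k) := by
          simp [mul_assoc]
        rw [h4]
        exact hHG _ (y : H).2
      refine hC.base.of_injective _ _
        { toFun := fun y => (⟨_, h2 y⟩ : Hx)
          map_one' := by
            apply Subtype.ext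
            simp
          map_mul' := by
            intro y z
            apply Subtype.ext
            simp [mul_assoc] } ?_ h1
      intro y z hyz
      have h3 : ((x⁻¹ * ((y : H) : tame K) * x : tame K) : Au k) =
          ((x⁻¹ * ((z : H) : tame K) * x : tame K) : Au k) := congrArg (fun b : Hx => (b : Au k)) hyz
      have h4 : x⁻¹ * ((y : H) : tame K) * x = x⁻¹ * ((z : H) : tame K) * x := Subtype.ext h3
      exact Subtype.ext (Subtype.ext (mul_left_cancel (mul_right_cancel h4)))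
    · obtain ⟨x, rfl⟩ := QuotientGroup.mk_surjective v
      exact Pool.Agent.N509.TX.C_stab hC H _ (conj hC (triS K) (tame K) hCJ _ x
        fun y hy => stab_inr (AA K) (JJ K) x y hy)
  have hAT : affS K ≤ tame K := le_sup_left
  have hb : ∀ a ∈ AA K, a ∉ JJ K → ∃ b ∈ AA K ⊓ JJ K, ∃ b' ∈ AA K ⊓ JJ K,
      a = b * ⟨sw k, hAT hsw⟩ * b' := by
    intro a ha ha'
    obtain ⟨b, hb1, b', hb2, hab⟩ := hbru a ha ha'
    exact ⟨⟨b, hAT hb1.1⟩, ⟨hb1.1, hb1.2⟩, ⟨b', hAT hb2.1⟩, ⟨hb2.1, hb2.2⟩, Subtype.ext hab⟩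
  have hmu' : {z : k | z ∈ K ∧ ∃ n : ℕ, n ≠ 0 ∧ z ^ n = 1}.Finite := hmu
  refine hA H _ (CG (AA K) (JJ K)) hfg hT (fun g u v h => act _ _ (g : tame K) u v h)
    (fun g u v h => noinv _ _ (g : tame K) u v h) ⟨7, hmu'.toFinset.card, ?_⟩ hstab
  intro u v p hp hlen F hF
  obtain ⟨t, j₁, j₂, h1, h1', h2, h2', hg⟩ :=
    t_NRM7 (tame K) (AA K) (JJ K) ⟨sw k, hAT hsw⟩ hsw hb u v p hp hlen
  obtain ⟨Φ, hΦ1, hΦ2⟩ := t_FIX7 t_GRP k K (j₁ : Au k) (j₂ : Au k) h1 h1' h2 h2'
  refine Finset.card_le_card_of_injOn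
    (fun g : H => Φ ((t⁻¹ * (g : tame K) * t : tame K) : Au k)) ?_ ?_
  · intro g hgF
    have h3 := hΦ1 _ (hg (g : tame K) fun x hx => hF g hgF x hx)
    exact Finset.mem_coe.2 (hmu'.mem_toFinset.2 h3)
  · intro g hgF g' hgF' hgg
    have h3 := hg (g : tame K) fun x hx => hF g hgF x hx
    have h4 := hg (g' : tame K) fun x hx => hF g' hgF' x hx
    have h5 := hΦ2 _ _ h3 h4 hgg
    have h6 : t⁻¹ * (g : tame K) * t = t⁻¹ * (g' : tame K) * t := Subtype.ext h5
    exact Subtype.ext (mul_left_cancel (mul_right_cancel h6))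

/-- finitely generated groups of automorphisms are defined over finitely generated fields -/
theorem fg_tame {k : Type} [Field k] [CharZero k] (H : Subgroup (Au k)) (hH : H.FG) :
    ∃ S : Finset k, H ≤ tame (Subfield.closure (S : Set k)) := by
  classical
  obtain ⟨T, hT⟩ := hH
  have h1 : ∀ g : Au k, ∃ S : Finset k, g ∈ tame (Subfield.closure (S : Set k)) := fun g =>
    LIM.exists_fin (by rw [jung]; exact Subgroup.mem_top g)
  choose S hS using h1
  refine ⟨T.biUnion S, ?_⟩
  rw [← hT, Subgroup.closure_le]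
  intro g hg
  exact LIM.tame_mono (LIM.cl_mono (Finset.subset_biUnion_of_mem S hg)) (hS g)

/-- **reduction to the affine elements** -/
theorem acg (hC : ClosedE C) (hM : ∀ (G : Type) [Group G], derivedSeries G 2 = ⊥ → C G)
    (hA : AcylF C) {k : Type} [Field k] [CharZero k]
    (hmu : ∀ S : Set k, S.Finite → FinMu (Subfield.closure S)) (G : Subgroup (Au k))
    (hV : ∀ (g : Au k) (H : Subgroup (Au k)), H ≤ affS (⊤ : Subfield k) →
      (∀ h ∈ H, g * h * g⁻¹ ∈ G) → C H) : C G := by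
  refine of_fg hC fun H hH => ?_
  have e2 : H ≃* H.map G.subtype := H.equivMapOfInjective G.subtype G.subtype_injective
  have hfg' : Group.FG (H.map G.subtype) := Group.fg_of_surjective (f := e2.toMonoidHom) e2.surjective
  have hfg : (H.map G.subtype).FG := (Group.fg_iff_subgroup_fg _).1 hfg'
  obtain ⟨S, hS⟩ := fg_tame (H.map G.subtype) hfg
  obtain ⟨K, hK⟩ : ∃ K : Subfield k, K = Subfield.closure (S : Set k) := ⟨_, rfl⟩
  rw [← hK] at hS
  let H' : Subgroup (tame K) := (H.map G.subtype).subgroupOf (tame K)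
  have e1 : H' ≃* H.map G.subtype := Subgroup.subgroupOfEquivOfLe hS
  refine Pool.Agent.R941.FJ.C_equiv hC.base (e2.trans e1.symm) ?_
  refine acg0 hC hM hA K (by rw [hK]; exact hmu _ S.finite_toSet) G hV H' ?_ ?_
  · exact Group.fg_of_surjective (f := e1.symm.toMonoidHom) e1.symm.surjective
  · intro h hh
    obtain ⟨x, -, hx⟩ := hh
    have h3 : (x : Au k) = (h : Au k) := hx
    rw [← h3]
    exact x.2

end Pool.Agent.T2h61.PL
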