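import Pool.Agent.T2h61.PL.Stm

/-!
# GT: the coset graph of the tame group is a tree
-/

set_option autoImplicit false

namespace Pool.Agent.T2h61.PL

open MvPolynomial

namespace GTaux

variable {k : Type} [Field k] {K : Subfield k}

/-- the larger of the degrees of the components -/
noncomputable def mx (g : Au k) : ℕ := max (dg (g (X 0))) (dg (g (X 1)))

theorem g_C (g : Au k) (c : k) : g (C c) = C c := by
  have := g.commutes c
  rwa [MvPolynomial.algebraMap_eq] at this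

theorem dg_C (c : k) : dg (C c : MvPolynomial (Fin 2) k) = 0 := totalDegree_C c

theorem dg_add (u v : MvPolynomial (Fin 2) k) : dg (u + v) ≤ max (dg u) (dg v) :=
  totalDegree_add u v

theorem dg_Cmul (c : k) (u : MvPolynomial (Fin 2) k) : dg (C c * u) ≤ dg u := by
  have := totalDegree_mul (C c) u
  rw [totalDegree_C, zero_add] at this
  exact this

theorem dg_Cmul_eq {c : k} (hc : c ≠ 0) (u : MvPolynomial (Fin 2) k) : dg (C c * u) = dg u := by
  refine le_antisymm (dg_Cmul c u) ?_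
  have := dg_Cmul c⁻¹ (C c * u)
  rwa [← mul_assoc, ← C_mul, inv_mul_cancel₀ hc, C_1, one_mul] at this

theorem dg_aff (a b c : k) (u v : MvPolynomial (Fin 2) k) :
    dg (C a * u + C b * v + C c) ≤ max (dg u) (dg v) := by
  refine (dg_add _ _).trans (max_le ((dg_add _ _).trans (max_le_max (dg_Cmul _ _)
    (dg_Cmul _ _))) ?_)
  rw [dg_C]
  exact Nat.zero_le _

theorem ap_aff (g : Au k) (a b c : k) :
    g (C a * X 0 + C b * X 1 + C c) = C a * g (X 0) + C b * g (X 1) + C c := by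
  rw [map_add, map_add, map_mul, map_mul, g_C, g_C, g_C]

theorem mx_le (g a : Au k) (ha : IsAff K a) : mx (g * a) ≤ mx g := by
  obtain ⟨p, q, r, s, t, w, -, -, -, -, -, -, h0, h1⟩ := ha
  refine max_le ?_ ?_
  · show dg (g (a (X 0))) ≤ _
    rw [h0, ap_aff]
    exact dg_aff _ _ _ _ _
  · show dg (g (a (X 1))) ≤ _
    rw [h1, ap_aff]
    exact dg_aff _ _ _ _ _

theorem mx_eq (hG : S_GRP) (g a : Au k) (ha : a ∈ affS K) : mx (g * a) = mx g := by
  obtain ⟨h1, h2⟩ := ((hG k K).1 a).1 ha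
  refine le_antisymm (mx_le g a h1) ?_
  have := mx_le (g * a) a⁻¹ h2
  rwa [mul_inv_cancel_right] at this

theorem dy_le (g j : Au k) (hj : IsTri K j) : dg ((g * j) (X 1)) ≤ dg (g (X 1)) := by
  obtain ⟨a, b, c, p, -, -, -, -, h0, h1⟩ := hj
  show dg (g (j (X 1))) ≤ _
  rw [h1, map_add, map_mul, g_C, g_C]
  refine (dg_add _ _).trans (max_le (dg_Cmul _ _) ?_)
  rw [dg_C]
  exact Nat.zero_le _

theorem dy_eq (hG : S_GRP) (g j : Au k) (hj : j ∈ triS K) :
    dg ((g * j) (X 1)) = dg (g (X 1)) := by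
  obtain ⟨h1, h2⟩ := ((hG k K).2 j).1 hj
  refine le_antisymm (dy_le g j h1) ?_
  have := dy_le (g * j) j⁻¹ h2
  rwa [mul_inv_cancel_right] at this

theorem dg_pos (g : Au k) (i : Fin 2) : 1 ≤ dg (g (X i)) := by
  by_contra hlt
  have h0 : (g (X i)).totalDegree = 0 := by
    have : dg (g (X i)) = 0 := by omega
    exact this
  rw [totalDegree_eq_zero_iff_eq_C] at h0
  have h1 : g (X i) = g (C ((g (X i)).coeff 0)) := by rw [g_C]; exact h0
  have h2 : (X i : MvPolynomial (Fin 2) k) = C ((g (X i)).coeff 0) := g.injective h1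
  have h3 := congrArg totalDegree h2
  rw [totalDegree_X, totalDegree_C] at h3
  exact one_ne_zero h3

/-- a triangular automorphism which does not raise the degree is affine -/
theorem tri_aff (hD : S_DEG) (g j : Au k) (hj : IsTri K j) (h1 : dg (g (X 0)) ≤ dg (g (X 1)))
    (h2 : dg ((g * j) (X 0)) ≤ dg (g (X 1))) : IsAff K j := by
  obtain ⟨a, b, c, p, ha, hb, hc, hp, h3, h4⟩ := hj
  have h5 : (g * j) (X 0) = C a * g (X 0) + Polynomial.aeval (g (X 1)) p := by
    show g (j (X 0)) = _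
    rw [h3, map_add, map_mul, g_C]
    congr 1
    exact (Polynomial.aeval_algHom_apply g.toAlgHom (X 1) p).symm
  have h6 : Polynomial.aeval (g (X 1)) p = (g * j) (X 0) + C (-a) * g (X 0) := by
    rw [h5, C_neg]; ring
  have h7 : dg (Polynomial.aeval (g (X 1)) p) ≤ dg (g (X 1)) := by
    rw [h6]
    exact (dg_add _ _).trans (max_le h2 ((dg_Cmul _ _).trans h1))
  rw [hD k (g (X 1)) p] at h7
  have h8 := dg_pos g 1
  have h9 : p.natDegree ≤ 1 := by
    by_contra hh
    have : 2 * dg (g (X 1)) ≤ p.natDegree * dg (g (X 1)) :=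
      Nat.mul_le_mul_right _ (by omega)
    omega
  have h10 : p = Polynomial.C (p.coeff 1) * Polynomial.X + Polynomial.C (p.coeff 0) :=
    Polynomial.eq_X_add_C_of_natDegree_le_one h9
  refine ⟨a, p.coeff 1, p.coeff 0, 0, b, c, ha, hp 1, hp 0, K.zero_mem, hb, hc, ?_, ?_⟩
  · rw [h3]
    conv_lhs => rw [h10]
    rw [map_add, map_mul, Polynomial.aeval_C, Polynomial.aeval_C, Polynomial.aeval_X,
      MvPolynomial.algebraMap_eq]
    ring
  · rw [h4, C_0]; ring

/-- an affine automorphism which keeps the second component small is triangular -/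
theorem aff_tri (g a : Au k) (ha : IsAff K a) (h1 : dg (g (X 1)) < dg (g (X 0)))
    (h2 : dg ((g * a) (X 1)) < dg (g (X 0))) : IsTri K a := by
  obtain ⟨p, q, r, s, t, w, hp, hq, hr, hs, ht, hw, h3, h4⟩ := ha
  have hs0 : s = 0 := by
    by_contra hs0
    have h5 : (g * a) (X 1) = C s * g (X 0) + C t * g (X 1) + C w := by
      show g (a (X 1)) = _
      rw [h4, ap_aff]
    have h6 : C s * g (X 0) = (g * a) (X 1) + (C (-t) * g (X 1) + C (-w)) := by
      rw [h5, C_neg, C_neg]; ring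
    have h7 : dg (C s * g (X 0)) < dg (g (X 0)) := by
      rw [h6]
      refine lt_of_le_of_lt (dg_add _ _) (max_lt h2 (lt_of_le_of_lt (dg_add _ _)
        (max_lt (lt_of_le_of_lt (dg_Cmul _ _) h1) ?_)))
      rw [dg_C]
      omega
    rw [dg_Cmul_eq hs0] at h7
    exact lt_irrefl _ h7
  subst hs0
  refine ⟨p, t, w, Polynomial.C q * Polynomial.X + Polynomial.C r, hp, ht, hw, ?_, ?_, ?_⟩
  · intro n
    rw [Polynomial.coeff_add, Polynomial.coeff_C_mul, Polynomial.coeff_X, Polynomial.coeff_C]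
    split_ifs <;> simp [hq, hr, K.zero_mem, K.add_mem]
  · rw [h3, map_add, map_mul, Polynomial.aeval_C, Polynomial.aeval_C, Polynomial.aeval_X,
      MvPolynomial.algebraMap_eq]
    ring
  · rw [h4, C_0]; ring

/-- the height -/
noncomputable def ht (K : Subfield k) :
    (tame K ⧸ AA K) ⊕ (tame K ⧸ JJ K) → ℕ
  | Sum.inl q => 2 * mx (q.out : Au k)
  | Sum.inr q => 2 * dg ((q.out : Au k) (X 1)) + 1

theorem ht_inl (hG : S_GRP) (g : tame K) :
    ht K (Sum.inl (g : tame K ⧸ AA K)) = 2 * mx (g : Au k) := by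
  obtain ⟨a, ha⟩ := QuotientGroup.mk_out_eq_mul (AA K) g
  show 2 * mx (((g : tame K ⧸ AA K).out : tame K) : Au k) = _
  rw [ha, Subgroup.coe_mul, mx_eq hG _ _ (Subgroup.mem_subgroupOf.1 a.2)]

theorem ht_inr (hG : S_GRP) (g : tame K) :
    ht K (Sum.inr (g : tame K ⧸ JJ K)) = 2 * dg ((g : Au k) (X 1)) + 1 := by
  obtain ⟨a, ha⟩ := QuotientGroup.mk_out_eq_mul (JJ K) g
  show 2 * dg ((((g : tame K ⧸ JJ K).out : tame K) : Au k) (X 1)) + 1 = _
  rw [ha, Subgroup.coe_mul, dy_eq hG _ _ (Subgroup.mem_subgroupOf.1 a.2)]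

end GTaux

open GTaux in
/-- GT -/
theorem t_GT : S_GT := by
  intro hT hC hD hG k _ K
  refine hT _ _ (ht K) (hC _ _ _ ?_) ?_ ?_
  · have h1 : affS K ≤ tame K := le_sup_left
    have h2 : triS K ≤ tame K := le_sup_right
    rw [AA, JJ, ← Subgroup.subgroupOf_sup h1 h2]
    exact Subgroup.subgroupOf_self _
  · rintro u v ⟨g, ⟨rfl, rfl⟩ | ⟨rfl, rfl⟩⟩
    · rw [ht_inl hG, ht_inr hG]; omega
    · rw [ht_inl hG, ht_inr hG]; omega
  · rintro v u w ⟨g, ⟨hv, rfl⟩ | ⟨hv, rfl⟩⟩ ⟨g', ⟨hv', rfl⟩ | ⟨hv', rfl⟩⟩ h1 h2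
    · -- `v = g A`
      rw [hv] at hv' h1 h2
      have hm : ((g : tame K) : tame K ⧸ AA K) = (g' : tame K ⧸ AA K) := Sum.inl_injective hv'
      rw [hm] at h2
      rw [ht_inl hG, ht_inr hG] at h1 h2
      have ha : g⁻¹ * g' ∈ AA K := QuotientGroup.eq.1 hm
      have ha' : (g : Au k)⁻¹ * g' ∈ affS K := Subgroup.mem_subgroupOf.1 ha
      obtain ⟨a1, a2⟩ := ((hG k K).1 _).1 ha'
      have hM : mx (g' : Au k) = mx (g : Au k) := by
        have := mx_eq hG (g : Au k) _ ha'
        rwa [mul_inv_cancel_left] at this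
      have b1 : dg ((g : Au k) (X 1)) < dg ((g : Au k) (X 0)) := by
        unfold mx at h1; omega
      have b2 : dg ((g' : Au k) (X 1)) < dg ((g' : Au k) (X 0)) := by
        unfold mx at h2; omega
      have c1 : mx (g : Au k) = dg ((g : Au k) (X 0)) := max_eq_left b1.le
      have c2 : mx (g' : Au k) = dg ((g' : Au k) (X 0)) := max_eq_left b2.le
      have t1 : IsTri K ((g : Au k)⁻¹ * g') := by
        refine aff_tri (g : Au k) _ a1 b1 ?_
        rw [mul_inv_cancel_left]; omega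
      have t2 : IsTri K ((g : Au k)⁻¹ * g')⁻¹ := by
        refine aff_tri (g' : Au k) _ a2 b2 ?_
        have : (g' : Au k) * ((g : Au k)⁻¹ * g')⁻¹ = g := by group
        rw [this]; omega
      have hj : g⁻¹ * g' ∈ JJ K := Subgroup.mem_subgroupOf.2 (((hG k K).2 _).2 ⟨t1, t2⟩)
      exact congrArg Sum.inr (QuotientGroup.eq.2 hj)
    · exact absurd (hv.symm.trans hv') (by simp)
    · exact absurd (hv.symm.trans hv') (by simp)
    · -- `v = g J`
      rw [hv] at hv' h1 h2
      have hm : ((g : tame K) : tame K ⧸ JJ K) = (g' : tame K ⧸ JJ K) := Sum.inr_injective hv'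
      rw [hm] at h2
      rw [ht_inl hG, ht_inr hG] at h1 h2
      have ha : g⁻¹ * g' ∈ JJ K := QuotientGroup.eq.1 hm
      have ha' : (g : Au k)⁻¹ * g' ∈ triS K := Subgroup.mem_subgroupOf.1 ha
      obtain ⟨a1, a2⟩ := ((hG k K).2 _).1 ha'
      have hM : dg ((g' : Au k) (X 1)) = dg ((g : Au k) (X 1)) := by
        have := dy_eq hG (g : Au k) _ ha'
        rwa [mul_inv_cancel_left] at this
      have b1 : dg ((g : Au k) (X 0)) ≤ dg ((g : Au k) (X 1)) := by
        unfold mx at h1; omega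
      have b2 : dg ((g' : Au k) (X 0)) ≤ dg ((g' : Au k) (X 1)) := by
        unfold mx at h2; omega
      have t1 : IsAff K ((g : Au k)⁻¹ * g') := by
        refine tri_aff hD (g : Au k) _ a1 b1 ?_
        rw [mul_inv_cancel_left]; omega
      have t2 : IsAff K ((g : Au k)⁻¹ * g')⁻¹ := by
        refine tri_aff hD (g' : Au k) _ a2 b2 ?_
        have : (g' : Au k) * ((g : Au k)⁻¹ * g')⁻¹ = g := by group
        rw [this]; omega
      have hj : g⁻¹ * g' ∈ AA K := Subgroup.mem_subgroupOf.2 (((hG k K).1 _).2 ⟨t1, t2⟩)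
      exact congrArg Sum.inl (QuotientGroup.eq.2 hj)

end Pool.Agent.T2h61.PL
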