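import Pool.Agent.T2h61.PL.Stm
import Mathlib.NumberTheory.NumberField.Units.Basic

/-!
# MU: finitely many roots of unity
-/

set_option autoImplicit false

namespace Pool.Agent.T2h61.PL

theorem t_MU : S_MU := by
  classical
  intro k _ _ halg S hS
  letI : Algebra ℚ k := inferInstance
  have hfd : FiniteDimensional ℚ (IntermediateField.adjoin ℚ S) := by
    haveI : Finite S := hS
    exact IntermediateField.finiteDimensional_adjoin fun x _ => (halg x).isIntegral
  haveI : NumberField (IntermediateField.adjoin ℚ S) := ⟨⟩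
  have hfin := NumberField.Embeddings.finite_of_norm_le (IntermediateField.adjoin ℚ S) ℂ 1
  refine (hfin.image (fun x : IntermediateField.adjoin ℚ S => (x : k))).subset ?_
  rintro z ⟨hz, n, hn, hzn⟩
  have hzL : z ∈ IntermediateField.adjoin ℚ S := by
    have h1 : Subfield.closure S ≤ (IntermediateField.adjoin ℚ S).toSubfield :=
      Subfield.closure_le.2 (IntermediateField.subset_adjoin ℚ S)
    exact h1 hz
  have hpow : (⟨z, hzL⟩ : IntermediateField.adjoin ℚ S) ^ n = 1 := Subtype.ext hzn
  refine ⟨⟨z, hzL⟩, ⟨?_, fun φ => ?_⟩, rfl⟩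
  · exact IsIntegral.of_pow (Nat.pos_of_ne_zero hn) (by rw [hpow]; exact isIntegral_one)
  · have h2 : (φ ⟨z, hzL⟩) ^ n = 1 := by rw [← map_pow, hpow, map_one]
    exact (Complex.norm_eq_one_of_pow_eq_one h2 hn).le

end Pool.Agent.T2h61.PL
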