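import Pool.Agent.T2h61.PL.Stm

/-! task BRU of the project PL: the Bruhat decomposition of the affine group of the plane -/

set_option autoImplicit false

namespace Pool.Agent.T2h61.PL.BRU

open MvPolynomial
open Pool.Agent.T2h61.PL

variable {k : Type} [Field k]

theorem aff_inj {a b c a' b' c' : k}
    (h : (C a * X 0 + C b * X 1 + C c : MvPolynomial (Fin 2) k) = C a' * X 0 + C b' * X 1 + C c') :
    a = a' ∧ b = b' ∧ c = c' := by
  have h0 := congrArg (eval (fun _ => (0 : k))) h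
  have h1 := congrArg (eval (fun i : Fin 2 => if i = 0 then (1 : k) else 0)) h
  have h2 := congrArg (eval (fun i : Fin 2 => if i = 0 then (0 : k) else 1)) h
  simp at h0 h1 h2
  subst h0
  refine ⟨by simpa using h1, by simpa using h2, rfl⟩

theorem map_aff (g : Au k) (a b c : k) :
    g (C a * X 0 + C b * X 1 + C c) = C a * g (X 0) + C b * g (X 1) + C c := by
  simp only [map_add, map_mul, ← algebraMap_eq, AlgEquiv.commutes]

/-- an affine automorphism with `g y = e y + f` is triangular -/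
theorem tri_of (hG : S_GRP) (K : Subfield k) (g : Au k) (hg : g ∈ affS K)
    (hy : ∃ e f : k, g (X 1) = C e * X 1 + C f) : g ∈ triS K := by
  obtain ⟨hA, hT⟩ := hG k K
  rw [hA] at hg
  rw [hT]
  obtain ⟨⟨a, b, c, d, e, f, ha, hb, hc, hd, he, hf, h0, h1⟩,
    ⟨a', b', c', d', e', f', ha', hb', hc', hd', he', hf', h0', h1'⟩⟩ := hg
  obtain ⟨e1, f1, h⟩ := hy
  have hd0 : d = 0 := by
    have : (C d * X 0 + C e * X 1 + C f : MvPolynomial (Fin 2) k) = C 0 * X 0 + C e1 * X 1 + C f1 := by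
      rw [← h1, h]; simp
    exact (aff_inj this).1
  subst hd0
  have hx : g (g⁻¹ (X 0)) = X 0 := by
    change (g * g⁻¹) (X 0) = X 0
    rw [mul_inv_cancel]; rfl
  have hyy : g (g⁻¹ (X 1)) = X 1 := by
    change (g * g⁻¹) (X 1) = X 1
    rw [mul_inv_cancel]; rfl
  rw [h0', map_aff, h0, h1] at hx
  rw [h1', map_aff, h0, h1] at hyy
  have e1' : (C (a' * a) * X 0 + C (a' * b + b' * e) * X 1 + C (a' * c + b' * f + c') :
      MvPolynomial (Fin 2) k) = C 1 * X 0 + C 0 * X 1 + C 0 := by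
    refine Eq.trans ?_ (hx.trans (by simp))
    simp only [map_add, map_mul, map_zero]
    ring
  have e2' : (C (d' * a) * X 0 + C (d' * b + e' * e) * X 1 + C (d' * c + e' * f + f') :
      MvPolynomial (Fin 2) k) = C 0 * X 0 + C 1 * X 1 + C 0 := by
    refine Eq.trans ?_ (hyy.trans (by simp))
    simp only [map_add, map_mul, map_zero]
    ring
  have ha0 : a ≠ 0 := by
    intro hh
    have := (aff_inj e1').1
    rw [hh, mul_zero] at this
    exact zero_ne_one this
  have hd'0 : d' = 0 := by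
    have := (aff_inj e2').1
    rcases mul_eq_zero.mp this with h | h
    · exact h
    · exact absurd h ha0
  subst hd'0
  have hp : ∀ (b c : k), b ∈ K → c ∈ K → ∀ n, (Polynomial.C b * Polynomial.X + Polynomial.C c).coeff n ∈ K := by
    intro b c hb hc n
    rw [Polynomial.coeff_add, Polynomial.coeff_C_mul, Polynomial.coeff_X, Polynomial.coeff_C]
    split_ifs
    all_goals first
      | (simp; done)
      | (refine K.add_mem (K.mul_mem hb ?_) ?_ <;> first | exact hc | exact K.zero_mem | exact K.one_mem)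
  have hae : ∀ b c : k, Polynomial.aeval (X 1 : MvPolynomial (Fin 2) k)
      (Polynomial.C b * Polynomial.X + Polynomial.C c) = C b * X 1 + C c := by
    intro b c
    simp [algebraMap_eq]
  refine ⟨⟨a, e, f, Polynomial.C b * Polynomial.X + Polynomial.C c, ha, he, hf, hp b c hb hc, ?_, ?_⟩,
    ⟨a', e', f', Polynomial.C b' * Polynomial.X + Polynomial.C c', ha', he', hf', hp b' c' hb' hc', ?_, ?_⟩⟩
  · rw [h0, hae]; ring
  · rw [h1]; simp
  · rw [h0', hae]; ring
  · rw [h1']; simp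

/-- the shear `x ↦ x + t y`, `y ↦ y` -/
noncomputable def sh (t : k) : Au k :=
  AlgEquiv.ofAlgHom (aeval ![X 0 + C t * X 1, X 1]) (aeval ![X 0 - C t * X 1, X 1])
    (by
      ext i
      fin_cases i <;> simp [algebraMap_eq])
    (by
      ext i
      fin_cases i <;> simp [algebraMap_eq])

theorem sh0 (t : k) : sh t (X 0) = X 0 + C t * X 1 := by
  simp [sh]

theorem sh1 (t : k) : sh t (X 1) = X 1 := by
  simp [sh]

theorem shi0 (t : k) : (sh t)⁻¹ (X 0) = X 0 - C t * X 1 := by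
  change (sh t).symm (X 0) = _
  simp [sh]

theorem shi1 (t : k) : (sh t)⁻¹ (X 1) = X 1 := by
  change (sh t).symm (X 1) = _
  simp [sh]

theorem sw0 : sw k (X 0) = X 1 := by
  simp [sw]

theorem sw1 : sw k (X 1) = X 0 := by
  simp [sw]

theorem swi0 : (sw k)⁻¹ (X 0) = X 1 := by
  change (sw k).symm (X 0) = _
  simp [sw]

theorem swi1 : (sw k)⁻¹ (X 1) = X 0 := by
  change (sw k).symm (X 1) = _
  simp [sw]

theorem t_BRU : S_BRU := by
  intro hG k _ K
  obtain ⟨hA, hT⟩ := hG k K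
  have hsw : sw k ∈ affS K := by
    rw [hA]
    refine ⟨⟨0, 1, 0, 1, 0, 0, K.zero_mem, K.one_mem, K.zero_mem, K.one_mem, K.zero_mem, K.zero_mem, ?_, ?_⟩,
      ⟨0, 1, 0, 1, 0, 0, K.zero_mem, K.one_mem, K.zero_mem, K.one_mem, K.zero_mem, K.zero_mem, ?_, ?_⟩⟩
    · rw [sw0]; simp
    · rw [sw1]; simp
    · rw [swi0]; simp
    · rw [swi1]; simp
  refine ⟨hsw, fun a ha hna => ?_⟩
  have ha' := ha
  rw [hA] at ha'
  obtain ⟨⟨a1, b1, c1, d, e, f, ha1, hb1, hc1, hd, he, hf, h0, h1⟩, -⟩ := ha'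
  have hd0 : d ≠ 0 := by
    intro hh
    refine hna (tri_of hG K a ha ⟨e, f, ?_⟩)
    rw [h1, hh]; simp
  set t : k := a1 / d with ht
  have htK : t ∈ K := K.div_mem ha1 hd
  have hsh : sh t ∈ affS K := by
    rw [hA]
    refine ⟨⟨1, t, 0, 0, 1, 0, K.one_mem, htK, K.zero_mem, K.zero_mem, K.one_mem, K.zero_mem, ?_, ?_⟩,
      ⟨1, -t, 0, 0, 1, 0, K.one_mem, K.neg_mem htK, K.zero_mem, K.zero_mem, K.one_mem, K.zero_mem, ?_, ?_⟩⟩
    · rw [sh0]; simp
    · rw [sh1]; simp
    · rw [shi0]; simp; ring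
    · rw [shi1]; simp
  have hsh' : sh t ∈ triS K := tri_of hG K _ hsh ⟨1, 0, by rw [sh1]; simp⟩
  have hb : a * (sh t)⁻¹ * (sw k)⁻¹ ∈ affS K :=
    (affS K).mul_mem ((affS K).mul_mem ha ((affS K).inv_mem hsh)) ((affS K).inv_mem hsw)
  refine ⟨a * (sh t)⁻¹ * (sw k)⁻¹, ⟨hb, ?_⟩, sh t, ⟨hsh, hsh'⟩, by group⟩
  refine tri_of hG K _ hb ⟨b1 - t * e, c1 - t * f, ?_⟩
  change a ((sh t)⁻¹ ((sw k)⁻¹ (X 1))) = _
  rw [swi1, shi0, map_sub, map_mul, h0, h1, ← algebraMap_eq, AlgEquiv.commutes, algebraMap_eq]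
  have hta : a1 = t * d := by rw [ht]; field_simp
  rw [hta]
  simp only [map_sub, map_mul]
  ring

end Pool.Agent.T2h61.PL.BRU
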