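import Mathlib

/-!
# Partial derivatives of polynomials in two variables: chain rule, degrees, leading forms
-/

set_option autoImplicit false

namespace Pool.Agent.T2h61.PL.JacA

open MvPolynomial

variable {k : Type} [Field k]

/-- chain rule for derivations -/
theorem chain {A : Type} [CommRing A] [Algebra k A] (D : Derivation k A A) (s : Fin 2 → A)
    (G : MvPolynomial (Fin 2) k) :
    D (aeval s G) = aeval s (pderiv 0 G) * D (s 0) + aeval s (pderiv 1 G) * D (s 1) := by
  induction G using MvPolynomial.induction_on with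
  | C a =>
    rw [aeval_C, D.map_algebraMap, pderiv_C, pderiv_C, map_zero, zero_mul, zero_mul, add_zero]
  | add p q hp hq =>
    rw [map_add, map_add, hp, hq, map_add, map_add, map_add, map_add]
    ring
  | mul_X p j hp =>
    rw [map_mul, D.leibniz, hp, aeval_X, pderiv_mul, pderiv_mul, map_add, map_add, map_mul,
      map_mul, map_mul, map_mul, aeval_X, smul_eq_mul, smul_eq_mul]
    have h : aeval s (pderiv 0 (X j : MvPolynomial (Fin 2) k)) * D (s 0) +
        aeval s (pderiv 1 (X j : MvPolynomial (Fin 2) k)) * D (s 1) = D (s j) := by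
      fin_cases j
      · simp [pderiv_X_of_ne]
      · simp [pderiv_X_of_ne]
    linear_combination aeval s p * (-h)

/-- the determinant -/
noncomputable def jc (f g : MvPolynomial (Fin 2) k) : MvPolynomial (Fin 2) k :=
  pderiv 0 f * pderiv 1 g - pderiv 1 f * pderiv 0 g

theorem jc_aeval (f g G : MvPolynomial (Fin 2) k) :
    jc f (aeval ![f, g] G) = aeval ![f, g] (pderiv 1 G) * jc f g := by
  unfold jc
  have h0 := chain (pderiv 0 : Derivation k (MvPolynomial (Fin 2) k) _) ![f, g] G
  have h1 := chain (pderiv 1 : Derivation k (MvPolynomial (Fin 2) k) _) ![f, g] G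
  simp only [Matrix.cons_val_zero, Matrix.cons_val_one] at h0 h1
  rw [h0, h1]
  ring

theorem jc_comp (s : Fin 2 → MvPolynomial (Fin 2) k) (u v : MvPolynomial (Fin 2) k) :
    jc (aeval s u) (aeval s v) = aeval s (jc u v) * jc (s 0) (s 1) := by
  unfold jc
  rw [chain (pderiv 0 : Derivation k (MvPolynomial (Fin 2) k) _) s u,
    chain (pderiv 1 : Derivation k (MvPolynomial (Fin 2) k) _) s u,
    chain (pderiv 0 : Derivation k (MvPolynomial (Fin 2) k) _) s v,
    chain (pderiv 1 : Derivation k (MvPolynomial (Fin 2) k) _) s v, map_sub, map_mul, map_mul]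
  ring

theorem aeval_equiv (φ : MvPolynomial (Fin 2) k ≃ₐ[k] MvPolynomial (Fin 2) k)
    (u : MvPolynomial (Fin 2) k) : aeval (fun i => φ (X i)) u = φ u := by
  have h : aeval (fun i => φ (X i)) = (φ : MvPolynomial (Fin 2) k →ₐ[k] MvPolynomial (Fin 2) k) := by
    ext i
    simp
  rw [h]
  rfl

theorem jc_const (φ : MvPolynomial (Fin 2) k ≃ₐ[k] MvPolynomial (Fin 2) k) :
    ∃ c : k, c ≠ 0 ∧ jc (φ (X 0)) (φ (X 1)) = C c := by
  have h := jc_comp (fun i => φ (X i)) (φ.symm (X 0)) (φ.symm (X 1))
  rw [aeval_equiv, aeval_equiv, AlgEquiv.apply_symm_apply, AlgEquiv.apply_symm_apply,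
    aeval_equiv] at h
  have h1 : jc (X 0 : MvPolynomial (Fin 2) k) (X 1) = 1 := by
    unfold jc
    rw [pderiv_X_self, pderiv_X_self, pderiv_X_of_ne (by decide), pderiv_X_of_ne (by decide)]
    ring
  rw [h1] at h
  have h2 : IsUnit (jc (φ (X 0)) (φ (X 1))) := IsUnit.of_mul_eq_one _ (by rw [mul_comm]; exact h.symm)
  obtain ⟨c, hc, e⟩ := isUnit_iff_eq_C_of_isReduced.1 h2
  exact ⟨c, hc.ne_zero, e⟩

/-! ### Degrees -/

theorem pderiv_deg {i : Fin 2} {f : MvPolynomial (Fin 2) k} (h : pderiv i f ≠ 0) :
    (pderiv i f).totalDegree + 1 ≤ f.totalDegree := by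
  have key : ∀ m ∈ (pderiv i f).support, (m.sum fun _ e => e) + 1 ≤ f.totalDegree := by
    intro m hm
    rw [mem_support_iff, coeff_pderiv] at hm
    have h1 : m + Finsupp.single i 1 ∈ f.support := by
      rw [mem_support_iff]
      exact left_ne_zero_of_mul hm
    have h2 := le_totalDegree h1
    have h3 : ((m + Finsupp.single i 1).sum fun _ e => e) = (m.sum fun _ e => e) + 1 := by
      rw [Finsupp.sum_add_index' (fun _ => rfl) (fun _ _ _ => rfl), Finsupp.sum_single_index rfl]
    omega
  obtain ⟨m, hm⟩ := Finset.nonempty_iff_ne_empty.2 (mt support_eq_empty.1 h)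
  have h1 := key m hm
  have h2 : (pderiv i f).totalDegree ≤ f.totalDegree - 1 := by
    refine Finset.sup_le fun m hm => ?_
    have := key m hm
    omega
  omega

theorem mul_deg {f g : MvPolynomial (Fin 2) k} {i j : Fin 2} (h : pderiv i f * pderiv j g ≠ 0) :
    (pderiv i f * pderiv j g).totalDegree + 2 ≤ f.totalDegree + g.totalDegree := by
  have h1 := pderiv_deg (left_ne_zero_of_mul h)
  have h2 := pderiv_deg (right_ne_zero_of_mul h)
  have h3 := totalDegree_mul (pderiv i f) (pderiv j g)
  omega

theorem jc_deg {f g : MvPolynomial (Fin 2) k} (h : jc f g ≠ 0) :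
    (jc f g).totalDegree + 2 ≤ f.totalDegree + g.totalDegree := by
  by_cases h1 : pderiv 0 f * pderiv 1 g = 0
  · have h2 : jc f g = -(pderiv 1 f * pderiv 0 g) := by
      unfold jc
      rw [h1, zero_sub]
    rw [h2, totalDegree_neg]
    refine mul_deg fun h3 => h ?_
    rw [h2, h3, neg_zero]
  · by_cases h2 : pderiv 1 f * pderiv 0 g = 0
    · have h3 : jc f g = pderiv 0 f * pderiv 1 g := by
        unfold jc
        rw [h2, sub_zero]
      rw [h3]
      exact mul_deg h1
    · have h3 := mul_deg h1
      have h4 := mul_deg h2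
      have h5 : (jc f g).totalDegree ≤ max (pderiv 0 f * pderiv 1 g).totalDegree
          (pderiv 1 f * pderiv 0 g).totalDegree := totalDegree_sub _ _
      rcases le_max_iff.1 h5 with h6 | h6 <;> omega

/-! ### Leading forms -/

/-- the leading form -/
noncomputable def ld (f : MvPolynomial (Fin 2) k) : MvPolynomial (Fin 2) k :=
  homogeneousComponent f.totalDegree f

theorem ld_hom (f : MvPolynomial (Fin 2) k) : (ld f).IsHomogeneous f.totalDegree :=
  homogeneousComponent_isHomogeneous _ _

theorem ld_ne {f : MvPolynomial (Fin 2) k} (hf : f ≠ 0) : ld f ≠ 0 := by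
  intro h
  have h1 : f.support.Nonempty := Finset.nonempty_iff_ne_empty.2 (mt support_eq_empty.1 hf)
  obtain ⟨m, hm, hm2⟩ := Finset.exists_mem_eq_sup f.support h1 (fun s => s.sum fun _ e => e)
  have h2 : (ld f).support = {c ∈ f.support | c.degree = f.totalDegree} :=
    support_homogeneousComponent _ _
  rw [h, support_zero] at h2
  have h3 : m ∈ ({c ∈ f.support | c.degree = f.totalDegree} : Finset (Fin 2 →₀ ℕ)) := by
    rw [Finset.mem_filter]
    refine ⟨hm, ?_⟩
    unfold totalDegree
    rw [hm2]
    rfl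
  rw [← h2] at h3
  exact absurd h3 (Finset.notMem_empty m)

theorem sub_ld {f : MvPolynomial (Fin 2) k} (hf : 0 < f.totalDegree) :
    (f - ld f).totalDegree < f.totalDegree := by
  rw [totalDegree, Finset.sup_lt_iff hf]
  intro m hm
  rw [mem_support_iff, coeff_sub, ld, coeff_homogeneousComponent] at hm
  split_ifs at hm with h
  · rw [sub_self] at hm
    exact absurd rfl hm
  · rw [sub_zero] at hm
    have h1 := le_totalDegree (mem_support_iff.2 hm)
    have h2 : (m.sum fun _ e => e) = m.degree := rfl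
    omega

theorem jc_hom {f g : MvPolynomial (Fin 2) k} {a b : ℕ} (hf : f.IsHomogeneous a)
    (hg : g.IsHomogeneous b) : (jc f g).IsHomogeneous (a - 1 + (b - 1)) := by
  unfold jc
  exact (hf.pderiv.mul hg.pderiv).sub (hf.pderiv.mul hg.pderiv)

theorem hc_jc {f g : MvPolynomial (Fin 2) k} {N : ℕ} (h : f.totalDegree + g.totalDegree < N + 2) :
    homogeneousComponent N (jc f g) = 0 := by
  by_cases h0 : jc f g = 0
  · rw [h0, map_zero]
  · have := jc_deg h0
    exact homogeneousComponent_eq_zero _ _ (by omega)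

theorem jc_ld {f g : MvPolynomial (Fin 2) k} {c : k} (h : jc f g = C c)
    (hf : 0 < f.totalDegree) (hg : 0 < g.totalDegree) (hfg : 3 ≤ f.totalDegree + g.totalDegree) :
    jc (ld f) (ld g) = 0 := by
  set N := f.totalDegree - 1 + (g.totalDegree - 1) with hN
  have h1 := sub_ld hf
  have h2 := sub_ld hg
  have h3 : jc f g = jc (ld f) (ld g) + jc (ld f) (g - ld g) + jc (f - ld f) (ld g) +
      jc (f - ld f) (g - ld g) := by
    unfold jc
    simp only [map_sub]
    ring
  have h4 : (ld f).totalDegree ≤ f.totalDegree := (ld_hom f).totalDegree_le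
  have h5 : (ld g).totalDegree ≤ g.totalDegree := (ld_hom g).totalDegree_le
  have h6 : homogeneousComponent N (jc f g) = 0 := by
    rw [h]
    exact homogeneousComponent_eq_zero _ _ (by rw [totalDegree_C]; omega)
  rw [h3, map_add, map_add, map_add, hc_jc (f := ld f) (g := g - ld g) (by omega),
    hc_jc (f := f - ld f) (g := ld g) (by omega), hc_jc (f := f - ld f) (g := g - ld g) (by omega),
    homogeneousComponent_eq_self (jc_hom (ld_hom f) (ld_hom g)), add_zero, add_zero, add_zero] at h6
  exact h6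

theorem euler {f : MvPolynomial (Fin 2) k} {n : ℕ} (h : f.IsHomogeneous n) :
    X 0 * pderiv 0 f + X 1 * pderiv 1 f = (n : MvPolynomial (Fin 2) k) * f := by
  have := h.sum_X_mul_pderiv
  rw [Fin.sum_univ_two, nsmul_eq_mul] at this
  exact this

/-! ### Functions with proportional derivatives -/

theorem one_var [CharZero k] {r q : Polynomial k}
    (h : Polynomial.derivative r * q = r * Polynomial.derivative q) (hq : q.eval 0 ≠ 0)
    (hr : r.eval 0 = 0) : r = 0 := by
  by_contra hr0
  have hq0 : q ≠ 0 := by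
    rintro rfl
    exact hq Polynomial.eval_zero
  have hroot : r.IsRoot 0 := hr
  have h1 := Polynomial.derivative_rootMultiplicity_of_root hroot
  have h2 : 0 < r.rootMultiplicity 0 := (Polynomial.rootMultiplicity_pos hr0).2 hroot
  have hd : Polynomial.derivative r ≠ 0 := by
    intro hd
    have h3 := Polynomial.natDegree_eq_zero_of_derivative_eq_zero hd
    rw [Polynomial.eq_C_of_natDegree_eq_zero h3, Polynomial.eval_C] at hr
    rw [Polynomial.eq_C_of_natDegree_eq_zero h3, hr, Polynomial.C_0] at hr0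
    exact hr0 rfl
  have h3 : Polynomial.derivative r * q ≠ 0 := mul_ne_zero hd hq0
  have h4 : r * Polynomial.derivative q ≠ 0 := h ▸ h3
  have h5 := Polynomial.rootMultiplicity_mul (x := 0) h3
  have h6 := Polynomial.rootMultiplicity_mul (x := 0) h4
  rw [h, h6, h1] at h5
  have h7 : q.rootMultiplicity 0 = 0 := Polynomial.rootMultiplicity_eq_zero hq
  omega

theorem prop_of_deriv [CharZero k] {P Q : MvPolynomial (Fin 2) k} (hQ : Q ≠ 0)
    (h0 : pderiv 0 P * Q = P * pderiv 0 Q) (h1 : pderiv 1 P * Q = P * pderiv 1 Q) :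
    ∃ c : k, P = C c * Q := by
  obtain ⟨x, hx⟩ : ∃ x : Fin 2 → k, eval x Q ≠ 0 := by
    by_contra hcon
    push Not at hcon
    exact hQ (MvPolynomial.funext fun x => by rw [hcon x, map_zero])
  refine ⟨eval x P / eval x Q, ?_⟩
  set c := eval x P / eval x Q with hc
  set R := P - C c * Q with hR
  have r0 : pderiv 0 R * Q = R * pderiv 0 Q := by
    rw [hR, map_sub, pderiv_C_mul]
    linear_combination h0
  have r1 : pderiv 1 R * Q = R * pderiv 1 Q := by
    rw [hR, map_sub, pderiv_C_mul]
    linear_combination h1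
  have hRx : eval x R = 0 := by
    rw [hR, map_sub, map_mul, eval_C, hc, div_mul_cancel₀ _ hx, sub_self]
  have key : ∀ u : Fin 2 → k, eval (x + u) R = 0 := by
    intro u
    set s : Fin 2 → Polynomial k := fun i => Polynomial.C (x i) + Polynomial.C (u i) * Polynomial.X
      with hs
    have hev : ∀ (t : k) (G : MvPolynomial (Fin 2) k), (aeval s G : Polynomial k).eval t =
        eval (fun i => x i + u i * t) G := by
      intro t G
      have e1 : ((Polynomial.aeval t).comp (aeval s) : MvPolynomial (Fin 2) k →ₐ[k] k) =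
          aeval (fun i => x i + u i * t) := by
        ext i
        simp [hs]
      have e2 := congrArg (fun F : MvPolynomial (Fin 2) k →ₐ[k] k => F G) e1
      simp only [AlgHom.comp_apply, Polynomial.coe_aeval_eq_eval] at e2
      rw [e2]
      rfl
    have hD := chain (Polynomial.derivative' : Derivation k (Polynomial k) (Polynomial k)) s
    have h2 : Polynomial.derivative (aeval s R : Polynomial k) * (aeval s Q : Polynomial k) =
        (aeval s R : Polynomial k) * Polynomial.derivative (aeval s Q : Polynomial k) := by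
      have e1 := hD R
      have e2 := hD Q
      have e3 := congrArg (aeval s) r0
      have e4 := congrArg (aeval s) r1
      rw [map_mul, map_mul] at e3 e4
      have e5 : ∀ F : Polynomial k, (Polynomial.derivative' : Derivation k _ _) F =
        Polynomial.derivative F := fun F => rfl
      rw [e5, e5, e5] at e1 e2
      rw [e1, e2]
      linear_combination Polynomial.derivative (s 0) * e3 + Polynomial.derivative (s 1) * e4
    have h3 := one_var h2 (by
      rw [hev]
      simpa using hx) (by
      rw [hev]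
      simpa using hRx)
    have h4 := hev 1 R
    rw [h3, Polynomial.eval_zero] at h4
    have e : (fun i => x i + u i * 1) = x + u := by
      funext i
      simp
    rw [e] at h4
    exact h4.symm
  have hR0 : R = 0 := by
    refine MvPolynomial.funext fun y => ?_
    rw [map_zero]
    have := key (y - x)
    rwa [add_sub_cancel] at this
  exact sub_eq_zero.1 hR0

/-- **The leading forms.** -/
theorem forms [CharZero k] {F H : MvPolynomial (Fin 2) k} {n0 m0 n m : ℕ} (hF : F.IsHomogeneous n0)
    (hH : H.IsHomogeneous m0) (hF0 : F ≠ 0) (hH0 : H ≠ 0) (h : jc F H = 0) (hm0 : 0 < m0)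
    (hn : 0 < n) (hm : 0 < m) (hnm : n * m0 = m * n0) :
    ∃ c : k, c ≠ 0 ∧ F ^ m = C c * H ^ n := by
  have h' : pderiv 0 F * pderiv 1 H = pderiv 1 F * pderiv 0 H := sub_eq_zero.1 h
  have eF := euler hF
  have eH := euler hH
  have a0 : (m0 : MvPolynomial (Fin 2) k) * (pderiv 0 F * H) = n0 * (F * pderiv 0 H) := by
    linear_combination (-pderiv 0 F) * eH + pderiv 0 H * eF + X 1 * h'
  have a1 : (m0 : MvPolynomial (Fin 2) k) * (pderiv 1 F * H) = n0 * (F * pderiv 1 H) := by
    linear_combination (-pderiv 1 F) * eH + pderiv 1 H * eF - X 0 * h'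
  have hm0' : (m0 : MvPolynomial (Fin 2) k) ≠ 0 := Nat.cast_ne_zero.2 hm0.ne'
  have hnm' : (n : MvPolynomial (Fin 2) k) * m0 = m * n0 := by exact_mod_cast hnm
  have b0 : (m : MvPolynomial (Fin 2) k) * (pderiv 0 F * H) = n * (F * pderiv 0 H) := by
    apply mul_left_cancel₀ hm0'
    linear_combination (m : MvPolynomial (Fin 2) k) * a0 - (F * pderiv 0 H) * hnm'
  have b1 : (m : MvPolynomial (Fin 2) k) * (pderiv 1 F * H) = n * (F * pderiv 1 H) := by
    apply mul_left_cancel₀ hm0'
    linear_combination (m : MvPolynomial (Fin 2) k) * a1 - (F * pderiv 1 H) * hnm'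
  obtain ⟨m', rfl⟩ : ∃ m', m = m' + 1 := ⟨m - 1, by omega⟩
  obtain ⟨n', rfl⟩ : ∃ n', n = n' + 1 := ⟨n - 1, by omega⟩
  have c0 : pderiv 0 (F ^ (m' + 1)) * H ^ (n' + 1) = F ^ (m' + 1) * pderiv 0 (H ^ (n' + 1)) := by
    rw [pderiv_pow, pderiv_pow, Nat.add_sub_cancel, Nat.add_sub_cancel]
    linear_combination (F ^ m' * H ^ n') * b0
  have c1 : pderiv 1 (F ^ (m' + 1)) * H ^ (n' + 1) = F ^ (m' + 1) * pderiv 1 (H ^ (n' + 1)) := by
    rw [pderiv_pow, pderiv_pow, Nat.add_sub_cancel, Nat.add_sub_cancel]
    linear_combination (F ^ m' * H ^ n') * b1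
  obtain ⟨c, hc⟩ := prop_of_deriv (pow_ne_zero _ hH0) c0 c1
  refine ⟨c, ?_, hc⟩
  rintro rfl
  rw [C_0, zero_mul] at hc
  exact pow_ne_zero _ hF0 hc

end Pool.Agent.T2h61.PL.JacA
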