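import Pool.Agent.T2h61.PL.Stm
import Pool.Agent.T2h61.PL.JacA

set_option autoImplicit false

namespace Pool.Agent.T2h61.PL.CHN

open MvPolynomial

theorem t_CHN : S_CHN := fun _ _ f g G => JacA.jc_aeval f g G

end Pool.Agent.T2h61.PL.CHN
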