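import Pool.Agent.T2h61.PL.Stm

set_option autoImplicit false

namespace Pool.Agent.T2h61.PL.DEG

open Pool.Agent.T2h61.PL
open MvPolynomial

theorem pw {k : Type} [Field k] (g : MvPolynomial (Fin 2) k) (hg : g ≠ 0) (n : ℕ) :
    (g ^ n).totalDegree = n * g.totalDegree := by
  induction n with
  | zero => simp
  | succ n ih =>
    rw [pow_succ, totalDegree_mul_of_isDomain (pow_ne_zero n hg) hg, ih]
    ring

theorem big {k : Type} [Field k] (g : MvPolynomial (Fin 2) k) (hg : 0 < g.totalDegree) (n : ℕ) :
    ∀ p : Polynomial k, p.natDegree = n →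
      (Polynomial.aeval g p).totalDegree = n * g.totalDegree := by
  have hg0 : g ≠ 0 := by
    intro h; rw [h, totalDegree_zero] at hg; exact lt_irrefl _ hg
  induction n using Nat.strong_induction_on with
  | _ n ih =>
    intro p hp
    rcases Nat.eq_zero_or_pos n with h0 | h0
    · rw [h0] at hp ⊢
      obtain ⟨a, ha⟩ := Polynomial.natDegree_eq_zero.1 hp
      rw [← ha, Polynomial.aeval_C]
      show totalDegree (C a) = _
      rw [totalDegree_C, zero_mul]
    · have hp0 : p ≠ 0 := by
        intro h; rw [h, Polynomial.natDegree_zero] at hp; omega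
      have hlc : p.leadingCoeff ≠ 0 := Polynomial.leadingCoeff_ne_zero.2 hp0
      have h1 : (Polynomial.aeval g (Polynomial.monomial n p.leadingCoeff)).totalDegree =
          n * g.totalDegree := by
        rw [Polynomial.aeval_monomial]
        show (C p.leadingCoeff * g ^ n).totalDegree = _
        rw [totalDegree_mul_of_isDomain (C_ne_zero.2 hlc) (pow_ne_zero n hg0), totalDegree_C,
          zero_add, pw g hg0]
      have h2 : p = Polynomial.monomial n p.leadingCoeff + p.eraseLead := by
        conv_lhs => rw [← p.eraseLead_add_monomial_natDegree_leadingCoeff, hp]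
        rw [add_comm]
      have h3 : p.eraseLead.natDegree < n := by
        have := p.eraseLead_natDegree_le
        omega
      rw [h2, map_add, totalDegree_add_eq_left_of_totalDegree_lt, h1]
      rw [h1, ih _ h3 _ rfl]
      exact Nat.mul_lt_mul_of_pos_right h3 hg

theorem t_DEG : S_DEG := by
  intro k _ g p
  unfold dg
  rcases Nat.eq_zero_or_pos g.totalDegree with h | h
  · rw [h, mul_zero]
    rw [totalDegree_eq_zero_iff_eq_C.1 h]
    have : Polynomial.aeval (C (coeff 0 g) : MvPolynomial (Fin 2) k) p =
        C (p.eval (coeff 0 g)) := by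
      show Polynomial.aeval (algebraMap k _ (coeff 0 g)) p = algebraMap k _ _
      rw [Polynomial.aeval_algebraMap_apply, Polynomial.coe_aeval_eq_eval]
    rw [this, totalDegree_C]
  · exact big g h _ p rfl

end Pool.Agent.T2h61.PL.DEG
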