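import Pool.Agent.T2h61.PL.Stm
import Pool.Agent.T2h61.PL.JacA

set_option autoImplicit false

namespace Pool.Agent.T2h61.PL.JAC

open MvPolynomial

theorem t_JAC : S_JAC := fun _ _ φ => JacA.jc_const φ

end Pool.Agent.T2h61.PL.JAC
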