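import Pool.Agent.T2h61.PL.Stm
import Pool.Agent.T2h61.PL.JacA

set_option autoImplicit false

namespace Pool.Agent.T2h61.PL.JDG

open MvPolynomial

theorem t_JDG : S_JDG := fun _ _ _ _ h => JacA.jc_deg h

end Pool.Agent.T2h61.PL.JDG
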