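import Pool.Agent.T2h61.PL.T_INQ

/-!
Task JFN of project PL (helper33): the theorem of Jung.
-/

namespace Pool.Agent.T2h61.PL.JFN

open MvPolynomial Pool.Agent.T2h61.PL.INQ

variable {k : Type} [Field k]

lemma deg_one (p : MvPolynomial (Fin 2) k) (h : p.totalDegree ≤ 1) :
    ∃ a b c : k, p = C a * X 0 + C b * X 1 + C c := by
  refine ⟨coeff (Finsupp.single 0 1) p, coeff (Finsupp.single 1 1) p, coeff 0 p, ?_⟩
  ext d
  have hX : ∀ (i : Fin 2) (r : k), coeff d (C r * X i) = if Finsupp.single i 1 = d then r else 0 := by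
    intro i r
    rw [coeff_C_mul, coeff_X]
    split_ifs <;> simp
  rw [coeff_add, coeff_add, hX, hX, coeff_C]
  by_cases h0 : (0 : Fin 2 →₀ ℕ) = d
  · subst h0
    rw [if_neg, if_neg, if_pos rfl]
    · simp
    · intro h; simpa using congrArg (fun z : Fin 2 →₀ ℕ => z 1) h
    · intro h; simpa using congrArg (fun z : Fin 2 →₀ ℕ => z 0) h
  · by_cases h1 : Finsupp.single (0 : Fin 2) 1 = d
    · subst h1
      rw [if_pos rfl, if_neg, if_neg h0]
      · simp
      · intro h; simpa using congrArg (fun z : Fin 2 →₀ ℕ => z 0) h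
    · by_cases h2 : Finsupp.single (1 : Fin 2) 1 = d
      · subst h2
        rw [if_neg h1, if_pos rfl, if_neg h0]
        simp
      · rw [if_neg h0, if_neg h1, if_neg h2]
        simp only [add_zero]
        apply coeff_zero_of_lt h
        by_contra hd
        have hdeg : d.degree = d 0 + d 1 := by
          rw [Finsupp.degree_eq_sum, Fin.sum_univ_two]
        rw [hdeg] at hd
        have : (d 0 = 0 ∧ d 1 = 0) ∨ (d 0 = 1 ∧ d 1 = 0) ∨ (d 0 = 0 ∧ d 1 = 1) := by omega
        rcases this with ⟨ha, hb⟩ | ⟨ha, hb⟩ | ⟨ha, hb⟩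
        · apply h0; ext i; fin_cases i
          · exact ha.symm
          · exact hb.symm
        · apply h1; ext i; fin_cases i
          · simpa using ha.symm
          · simpa using hb.symm
        · apply h2; ext i; fin_cases i
          · simpa using ha.symm
          · simpa using hb.symm

lemma sw0 : sw k (X 0) = X 1 := by
  simp [sw]

lemma sw1 : sw k (X 1) = X 0 := by
  simp [sw]

lemma au_ext {φ ψ : Au k} (h0 : φ (X 0) = ψ (X 0)) (h1 : φ (X 1) = ψ (X 1)) : φ = ψ := by
  have : (φ : MvPolynomial (Fin 2) k →ₐ[k] MvPolynomial (Fin 2) k) = ψ := by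
    apply MvPolynomial.algHom_ext
    intro i
    fin_cases i
    · exact h0
    · exact h1
  ext1 x
  exact congrArg (fun F => F x) this

lemma sw_inv : (sw k)⁻¹ = sw k := by
  rw [inv_eq_iff_mul_eq_one]
  apply au_ext
  · show sw k (sw k (X 0)) = X 0
    rw [sw0, sw1]
  · show sw k (sw k (X 1)) = X 1
    rw [sw1, sw0]

lemma sw_mem (hG : S_GRP) : sw k ∈ affS (⊤ : Subfield k) := by
  rw [(hG k ⊤).1, sw_inv, and_self]
  refine ⟨0, 1, 0, 1, 0, 0, trivial, trivial, trivial, trivial, trivial, trivial, ?_, ?_⟩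
  · rw [sw0]; simp
  · rw [sw1]; simp

/-- the elementary automorphism `x ↦ x + r y^l` -/
noncomputable def el (r : k) (l : ℕ) : Au k :=
  AlgEquiv.ofAlgHom (aeval ![X 0 + C r * X 1 ^ l, X 1]) (aeval ![X 0 - C r * X 1 ^ l, X 1])
    (by
      apply MvPolynomial.algHom_ext
      intro i
      fin_cases i <;> simp)
    (by
      apply MvPolynomial.algHom_ext
      intro i
      fin_cases i <;> simp)

lemma el0 (r : k) (l : ℕ) : el r l (X 0) = X 0 + C r * X 1 ^ l := by
  show aeval ![X 0 + C r * X 1 ^ l, X 1] (X 0) = _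
  simp

lemma el1 (r : k) (l : ℕ) : el r l (X 1) = X 1 := by
  show aeval ![X 0 + C r * X 1 ^ l, X 1] (X 1) = _
  simp

lemma el_inv (r : k) (l : ℕ) : (el r l)⁻¹ = el (-r) l := by
  rw [inv_eq_iff_mul_eq_one]
  apply au_ext
  · show el r l (el (-r) l (X 0)) = X 0
    rw [el0, map_add, map_mul, map_pow, el0, el1, ← algebraMap_eq, AlgEquiv.commutes,
      algebraMap_eq]
    simp
  · show el r l (el (-r) l (X 1)) = X 1
    rw [el1, el1]

lemma el_tri (r : k) (l : ℕ) : IsTri (⊤ : Subfield k) (el r l) := by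
  refine ⟨1, 1, 0, Polynomial.C r * Polynomial.X ^ l, trivial, trivial, trivial,
    fun _ => trivial, ?_, ?_⟩
  · rw [el0]; simp [algebraMap_eq]
  · rw [el1]; simp

lemma el_mem (hG : S_GRP) (r : k) (l : ℕ) : el r l ∈ triS (⊤ : Subfield k) := by
  rw [(hG k ⊤).2, el_inv]
  exact ⟨el_tri _ _, el_tri _ _⟩

lemma dg_pos (φ : Au k) (i : Fin 2) : 1 ≤ dg (φ (X i)) := by
  by_contra h
  have h0 : (φ (X i)).totalDegree = 0 := by
    have : dg (φ (X i)) = 0 := by omega
    exact this
  have h1 : φ (X i) = C (coeff 0 (φ (X i))) := (totalDegree_eq_zero_iff_eq_C).1 h0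
  have h2 : φ (X i - C (coeff 0 (φ (X i)))) = 0 := by
    rw [map_sub, ← algebraMap_eq, AlgEquiv.commutes, algebraMap_eq, ← h1, sub_self]
  have h4 : (X i - C (coeff 0 (φ (X i))) : MvPolynomial (Fin 2) k) = 0 :=
    (EmbeddingLike.map_eq_zero_iff (f := φ)).1 h2
  have h5 := congrArg totalDegree (sub_eq_zero.1 h4)
  rw [totalDegree_C, totalDegree_X] at h5
  exact one_ne_zero h5

lemma aff_case (hG : S_GRP) (hJ : S_JAC) (φ : Au k) (h0 : dg (φ (X 0)) ≤ 1)
    (h1 : dg (φ (X 1)) ≤ 1) : φ ∈ affS (⊤ : Subfield k) := by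
  obtain ⟨a, b, c, hx⟩ := deg_one _ h0
  obtain ⟨d, e, f, hy⟩ := deg_one _ h1
  obtain ⟨r, hr, hjac⟩ := hJ k φ
  have hΔ : a * e - b * d = r := by
    rw [jac, hx, hy] at hjac
    have p00 : pderiv (0 : Fin 2) (X 0 : MvPolynomial (Fin 2) k) = 1 := pderiv_X_self 0
    have p11 : pderiv (1 : Fin 2) (X 1 : MvPolynomial (Fin 2) k) = 1 := pderiv_X_self 1
    have p01 : pderiv (0 : Fin 2) (X 1 : MvPolynomial (Fin 2) k) = 0 :=
      pderiv_X_of_ne (by decide)
    have p10 : pderiv (1 : Fin 2) (X 0 : MvPolynomial (Fin 2) k) = 0 :=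
      pderiv_X_of_ne (by decide)
    simp only [map_add, pderiv_C_mul, pderiv_C, p00, p11, p01, p10, smul_eq_mul, smul_zero,
      add_zero, zero_add, mul_one, smul_eq_C_mul] at hjac
    apply C_injective (Fin 2) k
    rw [← hjac]
    simp [C_mul, C_sub]
  rw [(hG k ⊤).1]
  refine ⟨⟨a, b, c, d, e, f, trivial, trivial, trivial, trivial, trivial, trivial, hx, hy⟩, ?_⟩
  -- the inverse
  have hC : ∀ z : k, φ⁻¹ (C z) = C z := fun z => by
    rw [← algebraMap_eq]; exact (φ⁻¹).commutes z
  have hinv : ∀ p, φ⁻¹ (φ p) = p := fun p => φ.symm_apply_apply p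
  have ex : X 0 = C a * φ⁻¹ (X 0) + C b * φ⁻¹ (X 1) + C c := by
    have := congrArg (fun p => φ⁻¹ p) hx
    simp only [hinv, map_add, map_mul, hC] at this
    exact this
  have ey : X 1 = C d * φ⁻¹ (X 0) + C e * φ⁻¹ (X 1) + C f := by
    have := congrArg (fun p => φ⁻¹ p) hy
    simp only [hinv, map_add, map_mul, hC] at this
    exact this
  have hrr : (C r⁻¹ : MvPolynomial (Fin 2) k) * (C a * C e - C b * C d) = 1 := by
    rw [← C_mul, ← C_mul, ← C_sub, hΔ, ← C_mul, inv_mul_cancel₀ hr, C_1]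
  refine ⟨r⁻¹ * e, -(r⁻¹ * b), r⁻¹ * (b * f - e * c), -(r⁻¹ * d), r⁻¹ * a,
    r⁻¹ * (d * c - a * f), trivial, trivial, trivial, trivial, trivial, trivial, ?_, ?_⟩
  · simp only [C_mul, C_neg, C_sub]
    linear_combination (-φ⁻¹ (X 0)) * hrr - C r⁻¹ * C e * ex + C r⁻¹ * C b * ey
  · simp only [C_mul, C_neg, C_sub]
    linear_combination (-φ⁻¹ (X 1)) * hrr + C r⁻¹ * C d * ex - C r⁻¹ * C a * ey

lemma dg_lt {p : MvPolynomial (Fin 2) k} {P : ℕ} (hP : 0 < P) (h : Top P p 0) : dg p < P := by
  refine lt_of_le_of_ne h.1 fun he => ?_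
  by_cases hp : p = 0
  · rw [hp] at he
    simp [dg] at he
    omega
  · apply lf_ne hp
    rw [lf, he]
    exact h.2

theorem t_JFN : S_JFN := by
  intro hG hJAC hLDF hINQ hCHN hJDG k _ _
  rw [eq_top_iff]
  have hsw : sw k ∈ tame (⊤ : Subfield k) := Subgroup.mem_sup_left (sw_mem hG)
  have key : ∀ (N : ℕ) (φ : Au k), dg (φ (X 0)) + dg (φ (X 1)) = N → φ ∈ tame (⊤ : Subfield k) := by
    intro N
    induction N using Nat.strong_induction_on with
    | _ N ih =>
      -- the ordered case
      have main : ∀ φ : Au k, dg (φ (X 0)) + dg (φ (X 1)) = N → dg (φ (X 0)) ≤ dg (φ (X 1)) →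
          φ ∈ tame (⊤ : Subfield k) := by
        intro φ hN hle
        by_cases h3 : 3 ≤ N
        · have hdvd := hINQ hJAC hCHN hJDG hLDF k φ (by omega) hle
          obtain ⟨l, hl⟩ := hdvd
          have hp0 := dg_pos φ 0
          have hp1 := dg_pos φ 1
          have hlpos : 0 < l := by
            rcases Nat.eq_zero_or_pos l with h | h
            · rw [h] at hl; omega
            · exact h
          obtain ⟨c, hc, hrel⟩ := hLDF hJAC k φ (by omega) 1 l one_pos hlpos (by
            rw [hl]; ring)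
          rw [pow_one] at hrel
          let τ : Au k := sw k * el (-c⁻¹) l * sw k
          have hτ : τ ∈ tame (⊤ : Subfield k) :=
            mul_mem (mul_mem hsw (Subgroup.mem_sup_right (el_mem hG _ _))) hsw
          have t0 : (φ * τ) (X 0) = φ (X 0) := by
            show φ (sw k (el (-c⁻¹) l (sw k (X 0)))) = _
            rw [sw0, el1, sw1]
          have t1 : (φ * τ) (X 1) = φ (X 1) - C c⁻¹ * φ (X 0) ^ l := by
            show φ (sw k (el (-c⁻¹) l (sw k (X 1)))) = _
            rw [sw1, el0, map_add, map_mul, map_pow, sw0, sw1, ← algebraMap_eq,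
              AlgEquiv.commutes, map_add, map_mul, map_pow, AlgEquiv.commutes, algebraMap_eq,
              C_neg]
            ring
          have hTg : Top (dg (φ (X 1))) (φ (X 1)) (lf (φ (X 1))) := Top.lf _
          have hTf : Top (dg (φ (X 1))) (φ (X 0) ^ l) (lf (φ (X 0)) ^ l) := by
            have := (Top.lf (φ (X 0))).pow l
            rwa [mul_comm, ← hl] at this
          have hT : Top (dg (φ (X 1))) (φ (X 1) - C c⁻¹ * φ (X 0) ^ l) 0 := by
            refine ⟨?_, ?_⟩
            · refine (totalDegree_sub _ _).trans (max_le hTg.1 ?_)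
              refine (totalDegree_mul _ _).trans ?_
              rw [totalDegree_C, zero_add]
              exact hTf.1
            · rw [map_sub, homogeneousComponent_C_mul, hTg.2, hTf.2, hrel, ← mul_assoc, ← C_mul,
                inv_mul_cancel₀ hc, C_1, one_mul, sub_self]
          have hlt := dg_lt (by omega) hT
          have h1 : φ * τ ∈ tame (⊤ : Subfield k) := by
            refine ih (dg ((φ * τ) (X 0)) + dg ((φ * τ) (X 1))) ?_ _ rfl
            rw [t0, t1]
            omega
          have : φ = φ * τ * τ⁻¹ := by group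
          rw [this]
          exact mul_mem h1 (inv_mem hτ)
        · have hp0 := dg_pos φ 0
          have hp1 := dg_pos φ 1
          exact Subgroup.mem_sup_left (aff_case hG hJAC φ (by omega) (by omega))
      intro φ hN
      by_cases hle : dg (φ (X 0)) ≤ dg (φ (X 1))
      · exact main φ hN hle
      · have s0 : (φ * sw k) (X 0) = φ (X 1) := by
          show φ (sw k (X 0)) = _
          rw [sw0]
        have s1 : (φ * sw k) (X 1) = φ (X 0) := by
          show φ (sw k (X 1)) = _
          rw [sw1]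
        have h1 := main (φ * sw k) (by rw [s0, s1]; omega) (by rw [s0, s1]; omega)
        have : φ = φ * sw k * (sw k)⁻¹ := by group
        rw [this]
        exact mul_mem h1 (inv_mem hsw)
  intro φ _
  exact key _ φ rfl

end Pool.Agent.T2h61.PL.JFN
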