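import Pool.Agent.T2h61.PL.Stm
import Pool.Agent.T2h61.PL.JacA

set_option autoImplicit false

namespace Pool.Agent.T2h61.PL.LDF

open MvPolynomial

theorem t_LDF : S_LDF := by
  intro hJ k _ _ φ h3 n m hn hm hnm
  obtain ⟨c, -, hc⟩ := hJ k φ
  have hg : 0 < dg (φ (X 1)) := by
    rcases Nat.eq_zero_or_pos (dg (φ (X 1))) with h0 | h0
    · rw [h0, mul_zero] at hnm
      have h1 : dg (φ (X 0)) = 0 := by
        rcases Nat.mul_eq_zero.1 hnm.symm with h | h
        · omega
        · exact h
      omega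
    · exact h0
  have hf : 0 < dg (φ (X 0)) := by
    rcases Nat.eq_zero_or_pos (dg (φ (X 0))) with h0 | h0
    · rw [h0, mul_zero] at hnm
      have h1 : dg (φ (X 1)) = 0 := by
        rcases Nat.mul_eq_zero.1 hnm with h | h
        · omega
        · exact h
      omega
    · exact h0
  have hf0 : φ (X 0) ≠ 0 := by
    intro h
    rw [h, dg, totalDegree_zero] at hf
    exact absurd hf (lt_irrefl 0)
  have hg0 : φ (X 1) ≠ 0 := by
    intro h
    rw [h, dg, totalDegree_zero] at hg
    exact absurd hg (lt_irrefl 0)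
  exact JacA.forms (JacA.ld_hom _) (JacA.ld_hom _) (JacA.ld_ne hf0) (JacA.ld_ne hg0)
    (JacA.jc_ld hc hf hg h3) hg hn hm hnm

end Pool.Agent.T2h61.PL.LDF
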