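import Pool.Agent.T2h61.PL.Stm

/-!
# Project PL, task LIM: from the finitely generated subfields to the whole field
-/

set_option autoImplicit false

namespace Pool.Agent.T2h61.PL

open MvPolynomial
open Pool.Agent.Y110.FJ (ClosedE)

namespace LIM

variable {k : Type} [Field k]

theorem aff_mono {K L : Subfield k} (h : K ≤ L) {g : Au k} (hg : IsAff K g) : IsAff L g := by
  obtain ⟨a, b, c, d, e, f, ha, hb, hc, hd, he, hf, h1, h2⟩ := hg
  exact ⟨a, b, c, d, e, f, h ha, h hb, h hc, h hd, h he, h hf, h1, h2⟩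

theorem tri_mono {K L : Subfield k} (h : K ≤ L) {g : Au k} (hg : IsTri K g) : IsTri L g := by
  obtain ⟨a, b, c, p, ha, hb, hc, hp, h1, h2⟩ := hg
  exact ⟨a, b, c, p, h ha, h hb, h hc, fun n => h (hp n), h1, h2⟩

theorem affS_mono {K L : Subfield k} (h : K ≤ L) : affS K ≤ affS L :=
  Subgroup.closure_mono fun _ hg => ⟨aff_mono h hg.1, aff_mono h hg.2⟩

theorem triS_mono {K L : Subfield k} (h : K ≤ L) : triS K ≤ triS L :=
  Subgroup.closure_mono fun _ hg => ⟨tri_mono h hg.1, tri_mono h hg.2⟩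

theorem tame_mono {K L : Subfield k} (h : K ≤ L) : tame K ≤ tame L :=
  sup_le_sup (affS_mono h) (triS_mono h)

theorem cl_mono {s t : Finset k} (h : s ⊆ t) :
    Subfield.closure (s : Set k) ≤ Subfield.closure (t : Set k) :=
  Subfield.closure_mono (by exact_mod_cast h)

theorem mem_cl {s : Finset k} {a : k} (h : a ∈ s) : a ∈ Subfield.closure (s : Set k) :=
  Subfield.subset_closure (by exact_mod_cast h)

theorem aff_fin {g : Au k} (hg : IsAff (⊤ : Subfield k) g) :
    ∃ s : Finset k, IsAff (Subfield.closure (s : Set k)) g := by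
  classical
  obtain ⟨a, b, c, d, e, f, -, -, -, -, -, -, h1, h2⟩ := hg
  refine ⟨{a, b, c, d, e, f}, a, b, c, d, e, f, mem_cl (by simp), mem_cl (by simp), mem_cl (by simp),
    mem_cl (by simp), mem_cl (by simp), mem_cl (by simp), h1, h2⟩

theorem tri_fin {g : Au k} (hg : IsTri (⊤ : Subfield k) g) :
    ∃ s : Finset k, IsTri (Subfield.closure (s : Set k)) g := by
  classical
  obtain ⟨a, b, c, p, -, -, -, -, h1, h2⟩ := hg
  refine ⟨{a, b, c} ∪ p.support.image p.coeff, a, b, c, p, mem_cl (by simp), mem_cl (by simp),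
    mem_cl (by simp), fun n => ?_, h1, h2⟩
  by_cases hn : p.coeff n = 0
  · rw [hn]
    exact zero_mem _
  · refine mem_cl (Finset.mem_union_right _ (Finset.mem_image_of_mem _ ?_))
    exact Polynomial.mem_support_iff.2 hn

theorem exists_fin {g : Au k} (hg : g ∈ tame (⊤ : Subfield k)) :
    ∃ s : Finset k, g ∈ tame (Subfield.closure (s : Set k)) := by
  classical
  unfold tame affS triS at hg
  rw [← Subgroup.closure_union] at hg
  induction hg using Subgroup.closure_induction with
  | mem x hx =>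
    rcases hx with ⟨h1, h2⟩ | ⟨h1, h2⟩
    · obtain ⟨s, hs⟩ := aff_fin h1
      obtain ⟨t, ht⟩ := aff_fin h2
      refine ⟨s ∪ t, Subgroup.mem_sup_left (Subgroup.subset_closure ⟨?_, ?_⟩)⟩
      · exact aff_mono (cl_mono Finset.subset_union_left) hs
      · exact aff_mono (cl_mono Finset.subset_union_right) ht
    · obtain ⟨s, hs⟩ := tri_fin h1
      obtain ⟨t, ht⟩ := tri_fin h2
      refine ⟨s ∪ t, Subgroup.mem_sup_right (Subgroup.subset_closure ⟨?_, ?_⟩)⟩
      · exact tri_mono (cl_mono Finset.subset_union_left) hs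
      · exact tri_mono (cl_mono Finset.subset_union_right) ht
  | one => exact ⟨∅, one_mem _⟩
  | mul x y _ _ hx hy =>
    obtain ⟨s, hs⟩ := hx
    obtain ⟨t, ht⟩ := hy
    exact ⟨s ∪ t, mul_mem (tame_mono (cl_mono Finset.subset_union_left) hs)
      (tame_mono (cl_mono Finset.subset_union_right) ht)⟩
  | inv x _ hx =>
    obtain ⟨s, hs⟩ := hx
    exact ⟨s, inv_mem hs⟩

end LIM

theorem t_LIM : S_LIM := by
  classical
  intro _ C hC k _ h
  refine Pool.Agent.Y430.SS.of_directed hC.base (tame (⊤ : Subfield k)) (Finset k) (fun i j => ?_)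
    (fun s => (tame (Subfield.closure (s : Set k))).subgroupOf (tame (⊤ : Subfield k)))
    (fun s t hst => ?_) (fun g => ?_) (fun s => ?_)
  · exact ⟨i ∪ j, Finset.subset_union_left, Finset.subset_union_right⟩
  · intro x hx
    exact LIM.tame_mono (LIM.cl_mono hst) hx
  · obtain ⟨s, hs⟩ := LIM.exists_fin g.2
    exact ⟨s, hs⟩
  · exact Pool.Agent.R941.FJ.C_equiv hC.base
      (Subgroup.subgroupOfEquivOfLe (LIM.tame_mono le_top)) (h (s : Set k) s.finite_toSet)

end Pool.Agent.T2h61.PL
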