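import Pool.Agent.T2h61.PL.GRP

/-! # VA: the affine group embeds in `GL_3` -/

set_option autoImplicit false

namespace Pool.Agent.T2h61.PL

open MvPolynomial

namespace VA

variable {k : Type} [Field k]

/-- coefficients of `1`, `x`, `y` -/
noncomputable def cf (i : Fin 3) (u : MvPolynomial (Fin 2) k) : k :=
  ![coeff 0 u, coeff (Finsupp.single 0 1) u, coeff (Finsupp.single 1 1) u] i

/-- `1`, `x`, `y` -/
noncomputable def bs (i : Fin 3) : MvPolynomial (Fin 2) k := ![1, X 0, X 1] i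

/-- the matrix of `g` -/
noncomputable def M (g : Au k) : Matrix (Fin 3) (Fin 3) k := fun i j => cf i (g (bs j))

theorem s01 : (Finsupp.single (0 : Fin 2) 1 : Fin 2 →₀ ℕ) ≠ Finsupp.single 1 1 := by
  intro h
  have := DFunLike.congr_fun h 0
  simp at this

theorem cf_lin (a b c : k) (i : Fin 3) :
    cf i (C a * X 0 + C b * X 1 + C c : MvPolynomial (Fin 2) k) = ![c, a, b] i := by
  have h1 := s01
  have h2 := s01.symm
  have h3 : (Finsupp.single (0 : Fin 2) 1 : Fin 2 →₀ ℕ) ≠ 0 := by simp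
  have h4 : (Finsupp.single (1 : Fin 2) 1 : Fin 2 →₀ ℕ) ≠ 0 := by simp
  fin_cases i <;> simp [cf, coeff_C_mul, coeff_X, coeff_C, h1, h2, h3, h4, h3.symm, h4.symm]

theorem M_aff {g : Au k} {a b c d e f : k} (h1 : g (X 0) = C a * X 0 + C b * X 1 + C c)
    (h2 : g (X 1) = C d * X 0 + C e * X 1 + C f) :
    M g = !![1, c, f; 0, a, d; 0, b, e] := by
  have h0 : g (bs 0) = C 0 * X 0 + C 0 * X 1 + C 1 := by
    have : (bs 0 : MvPolynomial (Fin 2) k) = 1 := rfl
    rw [this, map_one]; simp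
  ext i j
  fin_cases j
  · change cf i (g (bs 0)) = _
    rw [h0, cf_lin]
    fin_cases i <;> rfl
  · change cf i (g (X 0)) = _
    rw [h1, cf_lin]
    fin_cases i <;> rfl
  · change cf i (g (X 1)) = _
    rw [h2, cf_lin]
    fin_cases i <;> rfl

theorem M_mul {K : Subfield k} {g h : Au k} (hg : IsAff K g) (hh : IsAff K h) :
    M (g * h) = M g * M h := by
  obtain ⟨a, b, c, d, e, f, ha, hb, hc, hd, he, hf, h1, h2⟩ := hg
  obtain ⟨a', b', c', d', e', f', ha', hb', hc', hd', he', hf', h1', h2'⟩ := hh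
  have e1 : (g * h) (X 0) = C (a' * a + b' * d) * X 0 + C (a' * b + b' * e) * X 1 +
      C (a' * c + b' * f + c') := by
    rw [AlgEquiv.mul_apply, h1', map_add, map_add, map_mul, map_mul, GRP.aut_C, GRP.aut_C,
      GRP.aut_C, h1, h2]
    simp only [C_add, C_mul]
    ring
  have e2 : (g * h) (X 1) = C (d' * a + e' * d) * X 0 + C (d' * b + e' * e) * X 1 +
      C (d' * c + e' * f + f') := by
    rw [AlgEquiv.mul_apply, h2', map_add, map_add, map_mul, map_mul, GRP.aut_C, GRP.aut_C,
      GRP.aut_C, h1, h2]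
    simp only [C_add, C_mul]
    ring
  rw [M_aff e1 e2, M_aff h1 h2, M_aff h1' h2']
  ext i j
  fin_cases i <;> fin_cases j <;> simp [Matrix.mul_apply, Fin.sum_univ_three] <;> ring

theorem M_one : M (1 : Au k) = 1 := by
  rw [M_aff (g := (1 : Au k)) (a := 1) (b := 0) (c := 0) (d := 0) (e := 1) (f := 0) (by simp)
    (by simp)]
  ext i j
  fin_cases i <;> fin_cases j <;> simp

theorem M_inj {K : Subfield k} {g h : Au k} (hg : IsAff K g) (hh : IsAff K h) (he : M g = M h) :
    g = h := by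
  obtain ⟨a, b, c, d, e, f, ha, hb, hc, hd, he, hf, h1, h2⟩ := hg
  obtain ⟨a', b', c', d', e', f', ha', hb', hc', hd', he', hf', h1', h2'⟩ := hh
  rename_i hM
  rw [M_aff h1 h2, M_aff h1' h2'] at hM
  have q1 : c = c' := by simpa using congrFun (congrFun hM 0) 1
  have q2 : f = f' := by simpa using congrFun (congrFun hM 0) 2
  have q3 : a = a' := by simpa using congrFun (congrFun hM 1) 1
  have q4 : d = d' := by simpa using congrFun (congrFun hM 1) 2
  have q5 : b = b' := by simpa using congrFun (congrFun hM 2) 1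
  have q6 : e = e' := by simpa using congrFun (congrFun hM 2) 2
  have h3 : (g : MvPolynomial (Fin 2) k →ₐ[k] MvPolynomial (Fin 2) k) = h := by
    apply MvPolynomial.algHom_ext
    intro i
    fin_cases i
    · change g (X 0) = h (X 0)
      rw [h1, h1', q1, q3, q5]
    · change g (X 1) = h (X 1)
      rw [h2, h2', q2, q4, q6]
  ext1 u
  exact DFunLike.congr_fun h3 u

end VA

theorem t_VA : S_VA := by
  intro hG k _ K
  have hA := (hG k K).1
  have hmul : ∀ g h : affS K, VA.M ((g * h : affS K) : Au k) = VA.M (g : Au k) * VA.M (h : Au k) :=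
    fun g h => VA.M_mul ((hA g).1 g.2).1 ((hA h).1 h.2).1
  refine ⟨MonoidHom.toHomUnits ⟨⟨fun g => VA.M (g : Au k), VA.M_one⟩, hmul⟩, ?_⟩
  intro g h hgh
  apply Subtype.ext
  refine VA.M_inj ((hA g).1 g.2).1 ((hA h).1 h.2).1 ?_
  have := congrArg (fun u : Matrix.GeneralLinearGroup (Fin 3) k => (u : Matrix (Fin 3) (Fin 3) k)) hgh
  exact this

end Pool.Agent.T2h61.PL
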