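import Pool.Agent.T2h61.PL.GRP

/-! # VJ: the triangular group is solvable -/

set_option autoImplicit false

namespace Pool.Agent.T2h61.PL

open MvPolynomial
open scoped commutatorElement

namespace VJ

variable {k : Type} [Field k]

theorem ev_aeval (v : Fin 2 → k) (p : Polynomial k) :
    eval v (Polynomial.aeval (X 1 : MvPolynomial (Fin 2) k) p) = p.eval (v 1) := by
  have h := Polynomial.aeval_algHom_apply (MvPolynomial.aeval v : MvPolynomial (Fin 2) k →ₐ[k] k)
    (X 1) p
  rw [MvPolynomial.aeval_X] at h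
  rw [Polynomial.coe_aeval_eq_eval] at h
  rw [← MvPolynomial.coe_aeval_eq_eval]
  exact h.symm

/-- the coefficient of `x` in `g x` -/
noncomputable def al (g : Au k) : k := eval ![1, 0] (g (X 0)) - eval ![0, 0] (g (X 0))

/-- the coefficient of `y` in `g y` -/
noncomputable def be (g : Au k) : k := eval ![0, 1] (g (X 1)) - eval ![0, 0] (g (X 1))

/-- the constant coefficient of `g y` -/
noncomputable def ga (g : Au k) : k := eval ![0, 0] (g (X 1))

theorem al_eq {g : Au k} {a : k} {p : Polynomial k}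
    (h : g (X 0) = C a * X 0 + Polynomial.aeval (X 1) p) : al g = a := by
  unfold al
  rw [h, map_add, map_add, ev_aeval, ev_aeval]
  simp

theorem be_eq {g : Au k} {b c : k} (h : g (X 1) = C b * X 1 + C c) : be g = b := by
  unfold be
  rw [h]
  simp

theorem ga_eq {g : Au k} {b c : k} (h : g (X 1) = C b * X 1 + C c) : ga g = c := by
  unfold ga
  rw [h]
  simp

theorem all_mul {K : Subfield k} {g h : Au k} (hg : IsTri K g) (hh : IsTri K h) :
    al (g * h) = al g * al h ∧ be (g * h) = be g * be h ∧ ga (g * h) = be h * ga g + ga h := by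
  obtain ⟨a, b, c, p, -, -, -, -, h1, h2⟩ := hg
  obtain ⟨a', b', c', p', -, -, -, -, h1', h2'⟩ := hh
  have e1 : (g * h) (X 0) = C (a' * a) * X 0 + Polynomial.aeval (X 1)
      (Polynomial.C a' * p + p'.comp (Polynomial.C b * Polynomial.X + Polynomial.C c)) := by
    rw [AlgEquiv.mul_apply, h1', map_add, map_mul, GRP.aut_C, h1, GRP.aeval_aut, h2]
    simp only [map_add, map_mul, Polynomial.aeval_C, Polynomial.aeval_comp, Polynomial.aeval_X,
      MvPolynomial.algebraMap_eq]
    ring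
  have e2 : (g * h) (X 1) = C (b' * b) * X 1 + C (b' * c + c') := by
    rw [AlgEquiv.mul_apply, h2', map_add, map_mul, GRP.aut_C, GRP.aut_C, h2]
    simp only [C_add, C_mul]
    ring
  rw [al_eq e1, be_eq e2, ga_eq e2, al_eq h1, al_eq h1', be_eq h2, be_eq h2', ga_eq h2, ga_eq h2']
  exact ⟨mul_comm _ _, mul_comm _ _, rfl⟩

theorem al_one : al (1 : Au k) = 1 := al_eq (p := 0) (by simp)

theorem be_one : be (1 : Au k) = 1 := be_eq (c := 0) (by simp)

theorem ga_one : ga (1 : Au k) = 0 := ga_eq (b := 1) (by simp)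

/-- an element of the second derived group -/
theorem form {K : Subfield k} {g : Au k} (hg : IsTri K g) (h1 : al g = 1) (h2 : be g = 1)
    (h3 : ga g = 0) : ∃ p : Polynomial k, g (X 0) = X 0 + Polynomial.aeval (X 1) p ∧
      g (X 1) = X 1 := by
  obtain ⟨a, b, c, p, -, -, -, -, e1, e2⟩ := hg
  rw [al_eq e1] at h1
  rw [be_eq e2] at h2
  rw [ga_eq e2] at h3
  subst h1 h2 h3
  exact ⟨p, by simpa using e1, by simpa using e2⟩

end VJ

theorem t_VJ : S_VJ := by
  intro hG k _ K
  have hT := (hG k K).2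
  have hi : ∀ g : triS K, IsTri K (g : Au k) := fun g => ((hT g).1 g.2).1
  have hm : ∀ g h : triS K, VJ.al ((g * h : triS K) : Au k) = VJ.al (g : Au k) * VJ.al (h : Au k) ∧
      VJ.be ((g * h : triS K) : Au k) = VJ.be (g : Au k) * VJ.be (h : Au k) ∧
      VJ.ga ((g * h : triS K) : Au k) = VJ.be (h : Au k) * VJ.ga (g : Au k) + VJ.ga (h : Au k) :=
    fun g h => VJ.all_mul (hi g) (hi h)
  let α : triS K →* k := ⟨⟨fun g => VJ.al (g : Au k), VJ.al_one⟩, fun g h => (hm g h).1⟩
  let β : triS K →* k := ⟨⟨fun g => VJ.be (g : Au k), VJ.be_one⟩, fun g h => (hm g h).2.1⟩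
  have hcomm : ∀ (f : triS K →* k) (g h : triS K), f ⁅g, h⁆ = 1 := by
    intro f g h
    rw [commutatorElement_def, map_mul, map_mul, map_mul]
    have e1 : f g * f g⁻¹ = 1 := by rw [← map_mul, mul_inv_cancel, map_one]
    have e2 : f h * f h⁻¹ = 1 := by rw [← map_mul, mul_inv_cancel, map_one]
    calc f g * f h * f g⁻¹ * f h⁻¹ = (f g * f g⁻¹) * (f h * f h⁻¹) := by ring
      _ = 1 := by rw [e1, e2, mul_one]
  have h1 : derivedSeries (triS K) 1 ≤ α.ker ⊓ β.ker := by
    rw [derivedSeries_succ, Subgroup.commutator_le]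
    intro g _ h _
    exact ⟨hcomm α g h, hcomm β g h⟩
  have hga : ∀ g h : triS K, h ∈ α.ker ⊓ β.ker →
      VJ.ga ((g * h : triS K) : Au k) = VJ.ga (g : Au k) + VJ.ga (h : Au k) := by
    intro g h hh
    have e1 : VJ.be (h : Au k) = 1 := hh.2
    rw [(hm g h).2.2, e1, one_mul]
  have hga1 : VJ.ga ((1 : triS K) : Au k) = 0 := VJ.ga_one
  have hgai : ∀ g : triS K, g ∈ α.ker ⊓ β.ker →
      VJ.ga (g : Au k) + VJ.ga ((g⁻¹ : triS K) : Au k) = 0 := by
    intro g hg
    rw [← hga g g⁻¹ (inv_mem hg), mul_inv_cancel, hga1]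
  let N2 : Subgroup (triS K) :=
    { carrier := {g | g ∈ α.ker ⊓ β.ker ∧ VJ.ga (g : Au k) = 0}
      mul_mem' := by
        intro g h hg hh
        refine ⟨mul_mem hg.1 hh.1, ?_⟩
        rw [hga g h hh.1, hg.2, hh.2, add_zero]
      one_mem' := ⟨one_mem _, hga1⟩
      inv_mem' := by
        intro g hg
        refine ⟨inv_mem hg.1, ?_⟩
        have := hgai g hg.1
        rwa [hg.2, zero_add] at this }
  have h2 : derivedSeries (triS K) 2 ≤ N2 := by
    rw [derivedSeries_succ, Subgroup.commutator_le]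
    intro g hg h hh
    have hg1 := h1 hg
    have hh1 := h1 hh
    refine ⟨?_, ?_⟩
    · rw [commutatorElement_def]
      exact mul_mem (mul_mem (mul_mem hg1 hh1) (inv_mem hg1)) (inv_mem hh1)
    · rw [commutatorElement_def, hga _ _ (inv_mem hh1), hga _ _ (inv_mem hg1), hga _ _ hh1]
      have e1 := hgai g hg1
      have e2 := hgai h hh1
      linear_combination e1 + e2
  rw [derivedSeries_succ, Subgroup.commutator_eq_bot_iff_le_centralizer]
  intro g hg
  rw [Subgroup.mem_centralizer_iff]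
  intro h hh
  obtain ⟨⟨g1, g2⟩, g3⟩ := h2 hg
  obtain ⟨⟨q1, q2⟩, q3⟩ := h2 hh
  obtain ⟨p, e1, e2⟩ := VJ.form (hi g) g1 g2 g3
  obtain ⟨p', e1', e2'⟩ := VJ.form (hi h) q1 q2 q3
  apply Subtype.ext
  have h3 : (((h : Au k) * (g : Au k) : Au k) : MvPolynomial (Fin 2) k →ₐ[k] MvPolynomial (Fin 2) k) =
      (((g : Au k) * (h : Au k) : Au k) : MvPolynomial (Fin 2) k →ₐ[k] MvPolynomial (Fin 2) k) := by
    apply MvPolynomial.algHom_ext
    intro i
    fin_cases i
    · change (h : Au k) ((g : Au k) (X 0)) = (g : Au k) ((h : Au k) (X 0))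
      rw [e1, e1', map_add, map_add, GRP.aeval_aut, GRP.aeval_aut, e1, e1', e2, e2']
      ring
    · change (h : Au k) ((g : Au k) (X 1)) = (g : Au k) ((h : Au k) (X 1))
      rw [e2, e2', e2]
  change (h : Au k) * (g : Au k) = (g : Au k) * (h : Au k)
  ext1 u
  exact DFunLike.congr_fun h3 u

end Pool.Agent.T2h61.PL
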