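import Pool.Agent.T2h61.PL.FIX7
import Pool.Agent.T2h61.PL.NRM7
import Pool.Agent.T2h61.PL.ACY7
import Pool.Agent.T2h61.PL.MU
import Pool.Agent.T2h61.PL.T_BRU
import Pool.Agent.T2h61.PL.T_CHN
import Pool.Agent.T2h61.PL.T_CON
import Pool.Agent.T2h61.PL.T_DEG
import Pool.Agent.T2h61.PL.T_JAC
import Pool.Agent.T2h61.PL.T_JDG
import Pool.Agent.T2h61.PL.T_JFN
import Pool.Agent.T2h61.PL.T_LDF
import Pool.Agent.T2h61.PL.T_LIM
import Pool.Agent.T2h61.PL.T_TREE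
import Pool.Agent.T2h61.PL.VA
import Pool.Agent.T2h61.PL.VJ
import Pool.Agent.T2h61.PL.GT
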