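import Pool.Agent.T2h61.PL.Stm7

/-!
# FIX7: elements fixing a path of length at least seven
-/

set_option autoImplicit false

namespace Pool.Agent.T2h61.PL

open MvPolynomial

namespace FIXx

variable {k : Type} [Field k]

theorem aut_C (g : Au k) (a : k) : g (C a) = C a := by
  have := g.commutes a
  rwa [MvPolynomial.algebraMap_eq] at this

theorem aeval_aut (g : Au k) (f : MvPolynomial (Fin 2) k) (p : Polynomial k) :
    g (Polynomial.aeval f p) = Polynomial.aeval (g f) p :=
  (Polynomial.aeval_algHom_apply g f p).symm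

/-- `X 0 ↦ 0`, `X 1 ↦ X` -/
noncomputable def ev : MvPolynomial (Fin 2) k →ₐ[k] Polynomial k := aeval ![0, Polynomial.X]

/-- `X 0 ↦ X`, `X 1 ↦ 0` -/
noncomputable def ev0 : MvPolynomial (Fin 2) k →ₐ[k] Polynomial k := aeval ![Polynomial.X, 0]

theorem ev_X0 : ev (X 0 : MvPolynomial (Fin 2) k) = 0 := by simp [ev]

theorem ev_X1 : ev (X 1 : MvPolynomial (Fin 2) k) = Polynomial.X := by simp [ev]

theorem ev_C (a : k) : ev (C a : MvPolynomial (Fin 2) k) = Polynomial.C a := by
  have := (ev (k := k)).commutes a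
  rwa [MvPolynomial.algebraMap_eq] at this

theorem ev0_X0 : ev0 (X 0 : MvPolynomial (Fin 2) k) = Polynomial.X := by simp [ev0]

theorem ev0_X1 : ev0 (X 1 : MvPolynomial (Fin 2) k) = 0 := by simp [ev0]

theorem ev0_C (a : k) : ev0 (C a : MvPolynomial (Fin 2) k) = Polynomial.C a := by
  have := (ev0 (k := k)).commutes a
  rwa [MvPolynomial.algebraMap_eq] at this

theorem ev_aeval (f : MvPolynomial (Fin 2) k) (p : Polynomial k) :
    ev (Polynomial.aeval f p) = p.comp (ev f) := by
  rw [← Polynomial.aeval_algHom_apply]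
  rfl

theorem ev0_aeval (f : MvPolynomial (Fin 2) k) (p : Polynomial k) :
    ev0 (Polynomial.aeval f p) = p.comp (ev0 f) := by
  rw [← Polynomial.aeval_algHom_apply]
  rfl

/-- the shape of an element -/
def Sh (g : Au k) (al ga de ep : k) : Prop :=
  g (X 0) = C al * X 0 + C ga ∧ g (X 1) = C de * X 1 + C ep

theorem sh_ne {g : Au k} {al ga de ep : k} (h : Sh g al ga de ep) : al ≠ 0 ∧ de ≠ 0 := by
  constructor
  · rintro rfl
    have h1 : g (X 0) = g (C ga) := by rw [h.1, aut_C]; simp
    have h2 := congrArg ev0 (g.injective h1)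
    rw [ev0_X0, ev0_C] at h2
    exact Polynomial.X_ne_C ga h2
  · rintro rfl
    have h1 : g (X 1) = g (C ep) := by rw [h.2, aut_C]; simp
    have h2 := congrArg ev (g.injective h1)
    rw [ev_X1, ev_C] at h2
    exact Polynomial.X_ne_C ep h2

theorem sw_X0 : (sw k) (X 0) = X 1 := by simp [sw]

theorem sw_X1 : (sw k) (X 1) = X 0 := by simp [sw]

theorem swi_X0 : (sw k)⁻¹ (X 0) = X 1 := by
  apply (sw k).injective
  rw [← AlgEquiv.mul_apply, mul_inv_cancel, AlgEquiv.one_apply, sw_X1]

theorem swi_X1 : (sw k)⁻¹ (X 1) = X 0 := by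
  apply (sw k).injective
  rw [← AlgEquiv.mul_apply, mul_inv_cancel, AlgEquiv.one_apply, sw_X0]

theorem sh_sw {g : Au k} {al ga de ep : k} (h : Sh g al ga de ep) :
    Sh ((sw k)⁻¹ * g * sw k) de ep al ga := by
  constructor
  · rw [AlgEquiv.mul_apply, AlgEquiv.mul_apply, sw_X0, h.2, map_add, map_mul, aut_C, aut_C, swi_X1]
  · rw [AlgEquiv.mul_apply, AlgEquiv.mul_apply, sw_X1, h.1, map_add, map_mul, aut_C, aut_C, swi_X0]

/-- the shape from the conditions -/
theorem shape (hG : S_GRP) {K : Subfield k} {g : Au k} (h1 : g ∈ affS K) (h2 : g ∈ triS K)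
    (h3 : (sw k)⁻¹ * g * sw k ∈ triS K) :
    ∃ al ga de ep : k, de ∈ K ∧ Sh g al ga de ep := by
  obtain ⟨a, b, c, d, e, f, -, -, -, -, -, -, e1, -⟩ := ((hG k K).1 g).1 h1 |>.1
  obtain ⟨a', b', c', p, -, hb', -, -, -, e2⟩ := ((hG k K).2 g).1 h2 |>.1
  obtain ⟨a'', b'', c'', q, -, -, -, -, -, e3⟩ := ((hG k K).2 _).1 h3 |>.1
  rw [AlgEquiv.mul_apply, AlgEquiv.mul_apply, sw_X1, e1, map_add, map_add, map_mul, map_mul, aut_C,
    aut_C, aut_C, swi_X0, swi_X1] at e3
  have h4 : b = 0 := by
    have h5 := congrArg ev0 e3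
    simp only [map_add, map_mul, ev0_C, ev0_X0, ev0_X1, mul_zero, zero_add] at h5
    have h6 := congrArg (fun r => Polynomial.coeff r 1) h5
    simpa using h6
  refine ⟨a, c, b', c', hb', ?_, e2⟩
  rw [e1, h4]
  simp

/-- the normal form of `j` -/
theorem jform (hG : S_GRP) {K : Subfield k} {j : Au k} (h1 : j ∈ triS K) (h2 : j ∉ affS K) :
    ∃ (a b c : k) (p : Polynomial k), a ≠ 0 ∧ b ≠ 0 ∧ 2 ≤ p.natDegree ∧
      j (X 0) = C a * X 0 + Polynomial.aeval (X 1) p ∧ j (X 1) = C b * X 1 + C c := by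
  obtain ⟨⟨a, b, c, p, ha, hb, hc, hp, e1, e2⟩, ⟨a', b', c', p', ha', hb', hc', hp', e1', e2'⟩⟩ :=
    ((hG k K).2 j).1 h1
  have hb0 : b ≠ 0 := by
    rintro rfl
    have h3 : j (X 1) = j (C c) := by rw [e2, aut_C]; simp
    have h4 := congrArg ev (j.injective h3)
    rw [ev_X1, ev_C] at h4
    exact Polynomial.X_ne_C c h4
  have hid : j (j⁻¹ (X 0)) = X 0 := by
    rw [← AlgEquiv.mul_apply, mul_inv_cancel, AlgEquiv.one_apply]
  rw [e1', map_add, map_mul, aut_C, e1, aeval_aut, e2] at hid
  have h0 := congrArg ev0 hid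
  simp only [map_add, map_mul, ev0_C, ev0_X0, ev0_X1, ev0_aeval, mul_zero, zero_add,
    Polynomial.comp_zero, Polynomial.comp_C] at h0
  have haa : a' * a = 1 := by
    have h3 := congrArg (fun r => Polynomial.coeff r 1) h0
    simp only [Polynomial.coeff_add, Polynomial.coeff_C_mul, Polynomial.coeff_X_one,
      Polynomial.coeff_C, one_ne_zero, if_false, mul_one, mul_zero, add_zero] at h3
    exact h3
  have ha0 : a ≠ 0 := by
    rintro rfl
    rw [mul_zero] at haa
    exact zero_ne_one haa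
  have h1' := congrArg ev hid
  simp only [map_add, map_mul, ev_C, ev_X0, ev_X1, ev_aeval, mul_zero, zero_add,
    Polynomial.comp_X] at h1'
  refine ⟨a, b, c, p, ha0, hb0, ?_, e1, e2⟩
  by_contra hcon
  push Not at hcon
  have hd1 : p.natDegree ≤ 1 := by omega
  have hd2 : p'.natDegree ≤ 1 := by
    have h3 : p'.comp (Polynomial.C b * Polynomial.X + Polynomial.C c) = -(Polynomial.C a' * p) := by
      linear_combination h1'
    have h4 : (p'.comp (Polynomial.C b * Polynomial.X + Polynomial.C c)).natDegree =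
        p'.natDegree := by
      rw [Polynomial.natDegree_comp, Polynomial.natDegree_linear hb0, mul_one]
    rw [← h4, h3, Polynomial.natDegree_neg]
    exact (Polynomial.natDegree_C_mul_le _ _).trans hd1
  have hlin : ∀ q : Polynomial k, q.natDegree ≤ 1 →
      Polynomial.aeval (X 1 : MvPolynomial (Fin 2) k) q = C (q.coeff 1) * X 1 + C (q.coeff 0) := by
    intro q hq
    conv_lhs => rw [Polynomial.eq_X_add_C_of_natDegree_le_one hq]
    simp [MvPolynomial.algebraMap_eq]
  apply h2
  rw [(hG k K).1]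
  refine ⟨⟨a, p.coeff 1, p.coeff 0, 0, b, c, ha, hp _, hp _, K.zero_mem, hb, hc, ?_, ?_⟩,
    ⟨a', p'.coeff 1, p'.coeff 0, 0, b', c', ha', hp' _, hp' _, K.zero_mem, hb', hc', ?_, ?_⟩⟩
  · rw [e1, hlin p hd1, add_assoc]
  · rw [e2]; simp
  · rw [e1', hlin p' hd2, add_assoc]
  · rw [e2']; simp

/-- the relation -/
theorem rel {j g g1 : Au k} (hg : j * g1 = g * j) {a b c : k} {p : Polynomial k} (ha : a ≠ 0)
    (hb : b ≠ 0) (e1 : j (X 0) = C a * X 0 + Polynomial.aeval (X 1) p)
    (e2 : j (X 1) = C b * X 1 + C c) {al ga de ep al1 ga1 de1 ep1 : k} (h : Sh g al ga de ep)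
    (h1 : Sh g1 al1 ga1 de1 ep1) :
    al1 = al ∧ de1 = de ∧ p.comp (Polynomial.C de * Polynomial.X + Polynomial.C ep) =
      Polynomial.C al * p + Polynomial.C (ga1 - a * ga) := by
  have r0 : j (g1 (X 0)) = g (j (X 0)) := by
    rw [← AlgEquiv.mul_apply, ← AlgEquiv.mul_apply, hg]
  have r1 : j (g1 (X 1)) = g (j (X 1)) := by
    rw [← AlgEquiv.mul_apply, ← AlgEquiv.mul_apply, hg]
  rw [h1.1, map_add, map_mul, aut_C, aut_C, e1, map_add, map_mul, aut_C, h.1, aeval_aut, h.2] at r0
  rw [h1.2, map_add, map_mul, aut_C, aut_C, e2, map_add, map_mul, aut_C, aut_C, h.2] at r1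
  have hal : al1 = al := by
    have h3 := congrArg ev0 r0
    simp only [map_add, map_mul, ev0_C, ev0_X0, ev0_X1, ev0_aeval, mul_zero, zero_add,
      Polynomial.comp_zero, Polynomial.comp_C] at h3
    have h4 := congrArg (fun r => Polynomial.coeff r 1) h3
    simp only [Polynomial.coeff_add, Polynomial.coeff_C_mul, Polynomial.coeff_X_one,
      Polynomial.coeff_C, one_ne_zero, if_false, mul_one, mul_zero, add_zero] at h4
    have h5 : a * al1 = a * al := by rw [← h4]; ring
    exact mul_left_cancel₀ ha h5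
  have hde : de1 = de := by
    have h3 := congrArg ev r1
    simp only [map_add, map_mul, ev_C, ev_X1] at h3
    have h4 := congrArg (fun r => Polynomial.coeff r 1) h3
    simp only [Polynomial.coeff_add, Polynomial.coeff_C_mul, Polynomial.coeff_X_one,
      Polynomial.coeff_C, one_ne_zero, if_false, mul_one, mul_zero, add_zero] at h4
    have h5 : b * de1 = b * de := by rw [← h4]; ring
    exact mul_left_cancel₀ hb h5
  refine ⟨hal, hde, ?_⟩
  have h3 := congrArg ev r0
  simp only [map_add, map_mul, ev_C, ev_X0, ev_X1, ev_aeval, mul_zero, zero_add,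
    Polynomial.comp_X] at h3
  rw [hal] at h3
  rw [Polynomial.C_sub, Polynomial.C_mul]
  linear_combination -h3

theorem natDegree_der [CharZero k] {p : Polynomial k} {m : ℕ} (hp : p.natDegree = m + 1) :
    (Polynomial.derivative p).natDegree = m := by
  apply le_antisymm
  · have := Polynomial.natDegree_derivative_le p
    omega
  · apply Polynomial.le_natDegree_of_ne_zero
    rw [Polynomial.coeff_derivative]
    have h1 : p.coeff (m + 1) ≠ 0 := by
      have : p.leadingCoeff ≠ 0 := Polynomial.leadingCoeff_ne_zero.2 (by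
        rintro rfl
        simp at hp)
      rwa [Polynomial.leadingCoeff, hp] at this
    have hm : ((m : k) + 1) ≠ 0 := by exact_mod_cast Nat.succ_ne_zero m
    exact mul_ne_zero h1 hm

/-- a polynomial with an affine symmetry -/
theorem sym_aux [CharZero k] : ∀ m : ℕ, ∀ p : Polynomial k, p.natDegree = m + 1 →
    ∀ al de ep : k, de ≠ 0 →
      p.comp (Polynomial.C de * Polynomial.X + Polynomial.C ep) = Polynomial.C al * p →
      al = de ^ (m + 1) ∧ ep = p.coeff m / ((m + 1 : ℕ) * p.coeff (m + 1)) * (de - 1) := by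
  intro m
  induction m with
  | zero =>
    intro p hp al de ep hde h
    have hlc : p.coeff 1 ≠ 0 := by
      have : p.leadingCoeff ≠ 0 := Polynomial.leadingCoeff_ne_zero.2 (by
        rintro rfl
        simp at hp)
      rwa [Polynomial.leadingCoeff, hp] at this
    have hp1 : p = Polynomial.C (p.coeff 1) * Polynomial.X + Polynomial.C (p.coeff 0) :=
      Polynomial.eq_X_add_C_of_natDegree_le_one (by omega)
    obtain ⟨u, hu⟩ : ∃ u, u = p.coeff 1 := ⟨_, rfl⟩
    obtain ⟨v, hv⟩ : ∃ v, v = p.coeff 0 := ⟨_, rfl⟩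
    rw [← hu, ← hv] at hp1
    rw [← hu] at hlc
    have h' := h
    rw [hp1] at h'
    simp only [Polynomial.add_comp, Polynomial.mul_comp, Polynomial.C_comp,
      Polynomial.X_comp] at h'
    have h1 := congrArg (fun r => Polynomial.coeff r 1) h'
    have h0 := congrArg (fun r => Polynomial.coeff r 0) h'
    simp only [Polynomial.coeff_add, Polynomial.coeff_C_mul, Polynomial.coeff_X_one,
      Polynomial.coeff_X_zero, mul_add, Polynomial.coeff_C, one_ne_zero, if_false, if_true, mul_one,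
      mul_zero, add_zero, zero_add] at h1 h0
    have hal : al = de := by
      have h2 : u * al = u * de := by rw [h1]; ring
      exact mul_left_cancel₀ hlc h2
    refine ⟨by rw [hal]; simp, ?_⟩
    rw [zero_add, ← hu, ← hv]
    rw [hal] at h0
    push_cast
    field_simp
    linear_combination h0
  | succ m ih =>
    intro p hp al de ep hde h
    have hlc : p.coeff (m + 2) ≠ 0 := by
      have : p.leadingCoeff ≠ 0 := Polynomial.leadingCoeff_ne_zero.2 (by
        rintro rfl
        simp at hp)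
      rwa [Polynomial.leadingCoeff, hp] at this
    have hd : (Polynomial.derivative p).natDegree = m + 1 := natDegree_der hp
    have h1 := congrArg Polynomial.derivative h
    rw [Polynomial.derivative_comp, Polynomial.derivative_C_mul] at h1
    have h2 : Polynomial.derivative (Polynomial.C de * Polynomial.X + Polynomial.C ep) =
        Polynomial.C de := by
      simp
    rw [h2] at h1
    have h3 : (Polynomial.derivative p).comp (Polynomial.C de * Polynomial.X + Polynomial.C ep) =
        Polynomial.C (al / de) * Polynomial.derivative p := by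
      have h4 : Polynomial.C de * (Polynomial.derivative p).comp
          (Polynomial.C de * Polynomial.X + Polynomial.C ep) =
          Polynomial.C de * (Polynomial.C (al / de) * Polynomial.derivative p) := by
        rw [h1, ← mul_assoc, ← Polynomial.C_mul, mul_div_cancel₀ al hde]
      exact mul_left_cancel₀ (Polynomial.C_ne_zero.2 hde) h4
    obtain ⟨h5, h6⟩ := ih _ hd _ _ _ hde h3
    constructor
    · rw [div_eq_iff hde] at h5
      rw [h5]
      ring
    · rw [h6, Polynomial.coeff_derivative, Polynomial.coeff_derivative]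
      have hm : ((m : k) + 1) ≠ 0 := by exact_mod_cast Nat.succ_ne_zero m
      have hm2 : ((m : k) + 1 + 1) ≠ 0 := by exact_mod_cast Nat.succ_ne_zero (m + 1)
      congr 1
      push_cast
      field_simp

theorem sym [CharZero k] (p : Polynomial k) (hp : 2 ≤ p.natDegree) : ∃ lam : k,
    ∀ al de ep r : k, de ≠ 0 →
      p.comp (Polynomial.C de * Polynomial.X + Polynomial.C ep) =
        Polynomial.C al * p + Polynomial.C r →
      al = de ^ p.natDegree ∧ ep = lam * (de - 1) := by
  obtain ⟨m, hm⟩ : ∃ m, p.natDegree = m + 2 := ⟨p.natDegree - 2, by omega⟩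
  have hd : (Polynomial.derivative p).natDegree = m + 1 := natDegree_der hm
  refine ⟨(Polynomial.derivative p).coeff m /
    ((m + 1 : ℕ) * (Polynomial.derivative p).coeff (m + 1)), fun al de ep r hde h => ?_⟩
  have h1 := congrArg Polynomial.derivative h
  have hr : Polynomial.derivative (Polynomial.C al * p + Polynomial.C r) =
      Polynomial.C al * Polynomial.derivative p := by simp
  rw [Polynomial.derivative_comp, hr] at h1
  have h2 : Polynomial.derivative (Polynomial.C de * Polynomial.X + Polynomial.C ep) =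
      Polynomial.C de := by
    simp
  rw [h2] at h1
  have h3 : (Polynomial.derivative p).comp (Polynomial.C de * Polynomial.X + Polynomial.C ep) =
      Polynomial.C (al / de) * Polynomial.derivative p := by
    have h4 : Polynomial.C de * (Polynomial.derivative p).comp
        (Polynomial.C de * Polynomial.X + Polynomial.C ep) =
        Polynomial.C de * (Polynomial.C (al / de) * Polynomial.derivative p) := by
      rw [h1, ← mul_assoc, ← Polynomial.C_mul, mul_div_cancel₀ al hde]
    exact mul_left_cancel₀ (Polynomial.C_ne_zero.2 hde) h4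
  obtain ⟨h5, h6⟩ := sym_aux m _ hd _ _ _ hde h3
  refine ⟨?_, h6⟩
  rw [div_eq_iff hde] at h5
  rw [h5, hm]
  ring

theorem coeff_sh {g : Au k} {al ga de ep : k} (h : Sh g al ga de ep) :
    MvPolynomial.coeff (Finsupp.single 1 1) (g (X 1)) = de := by
  have h0 : (0 : Fin 2 →₀ ℕ) ≠ Finsupp.single 1 1 := by
    intro hcon
    have := DFunLike.congr_fun hcon 1
    simp at this
  rw [h.2, coeff_add, coeff_C_mul, coeff_C, if_neg h0, add_zero, MvPolynomial.coeff_X, if_pos rfl, mul_one]

theorem sh_ext {g g' : Au k} {al ga de ep : k} (h : Sh g al ga de ep) (h' : Sh g' al ga de ep) :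
    g = g' := by
  apply AlgEquiv.coe_toAlgHom_injective
  apply MvPolynomial.algHom_ext
  intro i
  fin_cases i
  · exact h.1.trans h'.1.symm
  · exact h.2.trans h'.2.symm

end FIXx

theorem t_FIX7 : S_FIX7 := by
  intro hG k _ _ K j₁ j₂ h1 h1' h2 h2'
  obtain ⟨a, b, c, p, ha, hb, hp, e1, e2⟩ := FIXx.jform hG h1 h1'
  obtain ⟨a₂, b₂, c₂, q, ha₂, hb₂, hq, f1, f2⟩ := FIXx.jform hG h2 h2'
  obtain ⟨lam, hlam⟩ := FIXx.sym p hp
  obtain ⟨mu, hmu⟩ := FIXx.sym q hq
  -- everything about one element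
  have key : ∀ g, Cnd (affS K) (triS K) (sw k) j₁ j₂ g → ∃ al ga de ep ga1 : k, de ∈ K ∧ de ≠ 0 ∧
      FIXx.Sh g al ga de ep ∧ al = de ^ p.natDegree ∧ ep = lam * (de - 1) ∧
      de = al ^ q.natDegree ∧ ga1 = mu * (al - 1) ∧
      p.comp (Polynomial.C de * Polynomial.X + Polynomial.C ep) =
        Polynomial.C al * p + Polynomial.C (ga1 - a * ga) := by
    rintro g ⟨c1, c2, c3, c4, c5, c6, c7⟩
    obtain ⟨al, ga, de, ep, hde, hg⟩ := FIXx.shape hG c1 c2 c3
    have c2' : j₁⁻¹ * g * j₁ ∈ triS K :=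
      (triS K).mul_mem ((triS K).mul_mem ((triS K).inv_mem h1) c2) h1
    obtain ⟨al1, ga1, de1, ep1, -, hg1⟩ := FIXx.shape hG c4 c2' c5
    have c6' : j₂⁻¹ * ((sw k)⁻¹ * (j₁⁻¹ * g * j₁) * sw k) * j₂ ∈ triS K :=
      (triS K).mul_mem ((triS K).mul_mem ((triS K).inv_mem h2) c5) h2
    obtain ⟨al3, ga3, de3, ep3, -, hg3⟩ := FIXx.shape hG c6 c6' c7
    have hg2 := FIXx.sh_sw hg1
    obtain ⟨r1, r2, r3⟩ := FIXx.rel (j := j₁) (g := g) (g1 := j₁⁻¹ * g * j₁) (by group) ha hb e1 e2
      hg hg1
    obtain ⟨s1, s2, s3⟩ := FIXx.rel (j := j₂) (g := (sw k)⁻¹ * (j₁⁻¹ * g * j₁) * sw k)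
      (g1 := j₂⁻¹ * ((sw k)⁻¹ * (j₁⁻¹ * g * j₁) * sw k) * j₂) (by group) ha₂ hb₂ f1 f2 hg2 hg3
    obtain ⟨hal0, hde0⟩ := FIXx.sh_ne hg
    obtain ⟨t1, t2⟩ := hlam _ _ _ _ hde0 r3
    rw [r1, r2] at s3
    obtain ⟨u1, u2⟩ := hmu _ _ _ _ hal0 s3
    exact ⟨al, ga, de, ep, ga1, hde, hde0, hg, t1, t2, u1, u2, r3⟩
  refine ⟨fun g => MvPolynomial.coeff (Finsupp.single 1 1) (g (X 1)), fun g hg => ?_,
    fun g g' hg hg' he => ?_⟩
  · obtain ⟨al, ga, de, ep, ga1, hde, hde0, hsh, t1, t2, u1, u2, r3⟩ := key g hg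
    show MvPolynomial.coeff (Finsupp.single 1 1) (g (X 1)) ∈ K ∧ ∃ n : ℕ, n ≠ 0 ∧
      MvPolynomial.coeff (Finsupp.single 1 1) (g (X 1)) ^ n = 1
    rw [FIXx.coeff_sh hsh]
    refine ⟨hde, p.natDegree * q.natDegree - 1, ?_, ?_⟩
    · have : 4 ≤ p.natDegree * q.natDegree := Nat.mul_le_mul hp hq
      omega
    · rw [t1, ← pow_mul] at u1
      have h4 : 4 ≤ p.natDegree * q.natDegree := Nat.mul_le_mul hp hq
      have h5 : de * de ^ (p.natDegree * q.natDegree - 1) = de * 1 := by
        rw [← pow_succ', Nat.sub_add_cancel (by omega), mul_one]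
        exact u1.symm
      exact mul_left_cancel₀ hde0 h5
  · obtain ⟨al, ga, de, ep, ga1, hde, hde0, hsh, t1, t2, u1, u2, r3⟩ := key g hg
    obtain ⟨al', ga', de', ep', ga1', hde', hde0', hsh', t1', t2', u1', u2', r3'⟩ := key g' hg'
    have he' : de = de' := by
      have h3 : MvPolynomial.coeff (Finsupp.single 1 1) (g (X 1)) =
        MvPolynomial.coeff (Finsupp.single 1 1) (g' (X 1)) := he
      rwa [FIXx.coeff_sh hsh, FIXx.coeff_sh hsh'] at h3
    subst he'
    have hal : al = al' := t1.trans t1'.symm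
    subst hal
    have hep : ep = ep' := t2.trans t2'.symm
    subst hep
    have hga1 : ga1 = ga1' := u2.trans u2'.symm
    subst hga1
    have h4 : Polynomial.C (ga1 - a * ga) = Polynomial.C (ga1 - a * ga') :=
      add_left_cancel (r3.symm.trans r3')
    have h5 : a * ga = a * ga' := by
      have := Polynomial.C_injective h4
      linear_combination -this
    have h6 : ga = ga' := mul_left_cancel₀ ha h5
    subst h6
    exact FIXx.sh_ext hsh hsh'

end Pool.Agent.T2h61.PL
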