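import Pool.Agent.T2h61.PL.Stm

/-! # GRP: the groups of the affine and triangular automorphisms -/

set_option autoImplicit false

namespace Pool.Agent.T2h61.PL

open MvPolynomial

namespace GRP

variable {k : Type} [Field k]

theorem aut_C (g : Au k) (a : k) : g (C a) = C a := by
  have := g.commutes a
  rwa [MvPolynomial.algebraMap_eq] at this

/-- polynomials with coefficients in `K` -/
def CK (K : Subfield k) (p : Polynomial k) : Prop := ∀ n, p.coeff n ∈ K

theorem ck_iff (K : Subfield k) (p : Polynomial k) :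
    CK K p ↔ p ∈ Polynomial.lifts K.subtype := by
  rw [Polynomial.lifts_iff_coeff_lifts]
  constructor
  · intro h n
    exact ⟨⟨p.coeff n, h n⟩, rfl⟩
  · intro h n
    obtain ⟨x, hx⟩ := h n
    rw [← hx]
    exact x.2

theorem ck_add {K : Subfield k} {p q : Polynomial k} (hp : CK K p) (hq : CK K q) :
    CK K (p + q) := fun n => by
  rw [Polynomial.coeff_add]; exact K.add_mem (hp n) (hq n)

theorem ck_C_mul {K : Subfield k} {a : k} {p : Polynomial k} (ha : a ∈ K) (hp : CK K p) :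
    CK K (Polynomial.C a * p) := fun n => by
  rw [Polynomial.coeff_C_mul]; exact K.mul_mem ha (hp n)

theorem ck_comp {K : Subfield k} {p : Polynomial k} {b c : k} (hp : CK K p) (hb : b ∈ K)
    (hc : c ∈ K) : CK K (p.comp (Polynomial.C b * Polynomial.X + Polynomial.C c)) := by
  rw [ck_iff] at hp ⊢
  rw [Polynomial.mem_lifts] at hp ⊢
  obtain ⟨q, hq⟩ := hp
  refine ⟨q.comp (Polynomial.C ⟨b, hb⟩ * Polynomial.X + Polynomial.C ⟨c, hc⟩), ?_⟩
  rw [Polynomial.map_comp, hq]
  simp

theorem aeval_aut (g : Au k) (f : MvPolynomial (Fin 2) k) (p : Polynomial k) :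
    g (Polynomial.aeval f p) = Polynomial.aeval (g f) p := by
  exact (Polynomial.aeval_algHom_apply g f p).symm

theorem aff_one (K : Subfield k) : IsAff K (1 : Au k) :=
  ⟨1, 0, 0, 0, 1, 0, K.one_mem, K.zero_mem, K.zero_mem, K.zero_mem, K.one_mem, K.zero_mem,
    by simp, by simp⟩

theorem aff_mul {K : Subfield k} {g h : Au k} (hg : IsAff K g) (hh : IsAff K h) :
    IsAff K (g * h) := by
  obtain ⟨a, b, c, d, e, f, ha, hb, hc, hd, he, hf, h1, h2⟩ := hg
  obtain ⟨a', b', c', d', e', f', ha', hb', hc', hd', he', hf', h1', h2'⟩ := hh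
  refine ⟨a' * a + b' * d, a' * b + b' * e, a' * c + b' * f + c', d' * a + e' * d,
    d' * b + e' * e, d' * c + e' * f + f', ?_, ?_, ?_, ?_, ?_, ?_, ?_, ?_⟩
  · exact K.add_mem (K.mul_mem ha' ha) (K.mul_mem hb' hd)
  · exact K.add_mem (K.mul_mem ha' hb) (K.mul_mem hb' he)
  · exact K.add_mem (K.add_mem (K.mul_mem ha' hc) (K.mul_mem hb' hf)) hc'
  · exact K.add_mem (K.mul_mem hd' ha) (K.mul_mem he' hd)
  · exact K.add_mem (K.mul_mem hd' hb) (K.mul_mem he' he)
  · exact K.add_mem (K.add_mem (K.mul_mem hd' hc) (K.mul_mem he' hf)) hf'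
  · rw [AlgEquiv.mul_apply, h1', map_add, map_add, map_mul, map_mul, aut_C, aut_C, aut_C, h1, h2]
    simp only [C_add, C_mul]
    ring
  · rw [AlgEquiv.mul_apply, h2', map_add, map_add, map_mul, map_mul, aut_C, aut_C, aut_C, h1, h2]
    simp only [C_add, C_mul]
    ring

theorem tri_one (K : Subfield k) : IsTri K (1 : Au k) :=
  ⟨1, 1, 0, 0, K.one_mem, K.one_mem, K.zero_mem, fun n => by simp, by simp, by simp⟩

theorem tri_mul {K : Subfield k} {g h : Au k} (hg : IsTri K g) (hh : IsTri K h) :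
    IsTri K (g * h) := by
  obtain ⟨a, b, c, p, ha, hb, hc, hp, h1, h2⟩ := hg
  obtain ⟨a', b', c', p', ha', hb', hc', hp', h1', h2'⟩ := hh
  refine ⟨a' * a, b' * b, b' * c + c',
    Polynomial.C a' * p + p'.comp (Polynomial.C b * Polynomial.X + Polynomial.C c),
    K.mul_mem ha' ha, K.mul_mem hb' hb, K.add_mem (K.mul_mem hb' hc) hc',
    ck_add (ck_C_mul ha' hp) (ck_comp hp' hb hc), ?_, ?_⟩
  · rw [AlgEquiv.mul_apply, h1', map_add, map_mul, aut_C, h1, aeval_aut, h2]
    simp only [map_add, map_mul, Polynomial.aeval_C, Polynomial.aeval_comp, Polynomial.aeval_X,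
      MvPolynomial.algebraMap_eq]
    ring
  · rw [AlgEquiv.mul_apply, h2', map_add, map_mul, aut_C, aut_C, h2]
    simp only [C_add, C_mul]
    ring

theorem mem_closure_iff {G : Type} [Group G] (P : G → Prop) (h1 : P 1)
    (hm : ∀ g h, P g → P h → P (g * h)) (g : G) :
    g ∈ Subgroup.closure {g | P g ∧ P g⁻¹} ↔ P g ∧ P g⁻¹ := by
  constructor
  · intro h
    induction h using Subgroup.closure_induction with
    | mem x hx => exact hx
    | one => exact ⟨h1, by rwa [inv_one]⟩
    | mul x y _ _ hx hy => exact ⟨hm _ _ hx.1 hy.1, by rw [mul_inv_rev]; exact hm _ _ hy.2 hx.2⟩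
    | inv x _ hx => exact ⟨hx.2, by rw [inv_inv]; exact hx.1⟩
  · intro h
    exact Subgroup.subset_closure h

end GRP

theorem t_GRP : S_GRP := by
  intro k _ K
  exact ⟨GRP.mem_closure_iff _ (GRP.aff_one K) fun _ _ => GRP.aff_mul,
    GRP.mem_closure_iff _ (GRP.tri_one K) fun _ _ => GRP.tri_mul⟩

end Pool.Agent.T2h61.PL
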