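import Pool.Agent.T2h61.PL.Stm
import Mathlib.FieldTheory.FinTrdeg
import Mathlib.RingTheory.AlgebraicIndependent.AlgebraicClosure
import Mathlib.RingTheory.Polynomial.GaussLemma
import Mathlib.RingTheory.Polynomial.Cyclotomic.Roots

/-!
# MUF: finitely many roots of unity in finitely generated fields of characteristic zero
-/

set_option autoImplicit false

namespace Pool.Agent.T2h61.PL

namespace MUFx

open Polynomial

/-- the base field is algebraically closed in a purely transcendental extension -/
theorem ratl {F M ι : Type} [Field F] [Field M] [Algebra F M] {x : ι → M}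
    (hx : AlgebraicIndependent F x) {c : M} (hc : c ∈ IntermediateField.adjoin F (Set.range x))
    (hc' : IsIntegral F c) : ∃ q : F, algebraMap F M q = c := by
  obtain ⟨r, s, hrs⟩ := (IntermediateField.mem_adjoin_range_iff F x c).1 hc
  by_cases h0 : MvPolynomial.aeval x s = 0
  · refine ⟨0, ?_⟩
    rw [hrs, h0, div_zero, map_zero]
  have hy : AlgebraicIndependent (algebraicClosure F M) x := hx.algebraicClosure
  let c0 : algebraicClosure F M := ⟨c, mem_algebraicClosure_iff.2 hc'.isAlgebraic⟩
  have hP : MvPolynomial.map (algebraMap F (algebraicClosure F M)) r -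
      MvPolynomial.C c0 * MvPolynomial.map (algebraMap F (algebraicClosure F M)) s = 0 := by
    apply (injective_iff_map_eq_zero _).1 hy
    rw [map_sub, map_mul, MvPolynomial.aeval_C, MvPolynomial.aeval_map_algebraMap,
      MvPolynomial.aeval_map_algebraMap]
    show MvPolynomial.aeval x r - c * MvPolynomial.aeval x s = 0
    rw [hrs, div_mul_cancel₀ _ h0, sub_self]
  have hs : s ≠ 0 := by
    rintro rfl
    exact h0 (map_zero _)
  obtain ⟨m, hm⟩ := MvPolynomial.ne_zero_iff.1 hs
  have h1 := congrArg (MvPolynomial.coeff m) hP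
  rw [MvPolynomial.coeff_sub, MvPolynomial.coeff_C_mul, MvPolynomial.coeff_map,
    MvPolynomial.coeff_map, MvPolynomial.coeff_zero, sub_eq_zero] at h1
  have h2 := congrArg (fun a : algebraicClosure F M => (a : M)) h1
  have h3 : algebraMap F M (MvPolynomial.coeff m r) = c * algebraMap F M (MvPolynomial.coeff m s) :=
    h2
  refine ⟨MvPolynomial.coeff m r / MvPolynomial.coeff m s, ?_⟩
  rw [map_div₀, h3, mul_div_assoc, div_self, mul_one]
  rw [Ne, map_eq_zero]
  exact hm

/-- an algebraic element has the same degree over a purely transcendental extension -/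
theorem deg {F M ι : Type} [Field F] [Field M] [Algebra F M] {x : ι → M}
    (hx : AlgebraicIndependent F x) [FiniteDimensional (IntermediateField.adjoin F (Set.range x)) M]
    {z : M} (hz : IsIntegral F z) : (minpoly F z).natDegree ≤
      Module.finrank (IntermediateField.adjoin F (Set.range x)) M := by
  set E := IntermediateField.adjoin F (Set.range x) with hE
  have hzE : IsIntegral E z := hz.tower_top
  have h1 : minpoly E z ∣ (minpoly F z).map (algebraMap F E) := minpoly.dvd_map_of_isScalarTower F E z
  have h2 := integralClosure.mem_lifts_of_monic_of_dvd_map E (minpoly.monic hz) (minpoly.monic hzE) h1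
  have h3 : minpoly E z ∈ lifts (algebraMap F E) := by
    rw [lifts_iff_coeff_lifts] at h2 ⊢
    intro n
    obtain ⟨c, hc⟩ := h2 n
    have h4 : IsIntegral F ((minpoly E z).coeff n) := by
      rw [← hc]
      exact c.2
    have h5 : IsIntegral F (((minpoly E z).coeff n : E) : M) :=
      h4.map (IsScalarTower.toAlgHom F E M)
    obtain ⟨q, hq⟩ := ratl hx ((minpoly E z).coeff n).2 h5
    exact ⟨q, Subtype.ext hq⟩
  obtain ⟨q, hq1, hq2, hq3⟩ := lifts_and_natDegree_eq_and_monic h3 (minpoly.monic hzE)
  have h6 : aeval z q = 0 := by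
    rw [← aeval_map_algebraMap E z q, hq1, minpoly.aeval]
  calc (minpoly F z).natDegree ≤ q.natDegree :=
        natDegree_le_natDegree (minpoly.min F z hq3 h6)
    _ = (minpoly E z).natDegree := hq2
    _ ≤ Module.finrank E M := minpoly.natDegree_le z

theorem tot {n D : ℕ} (hn : 0 < n) (h : n.totient ≤ D) : n ∣ (2 * D).factorial := by
  rw [Nat.dvd_iff_prime_pow_dvd_dvd]
  intro p a hp hpa
  rcases Nat.eq_zero_or_pos a with rfl | ha
  · rw [pow_zero]
    exact one_dvd _
  have h1 : (p ^ a).totient ≤ D :=
    (Nat.le_of_dvd (Nat.totient_pos.2 hn) (Nat.totient_dvd_of_dvd hpa)).trans h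
  rw [Nat.totient_prime_pow hp ha] at h1
  refine Nat.dvd_factorial (pow_pos hp.pos a) ?_
  obtain ⟨b, rfl⟩ : ∃ b, a = b + 1 := ⟨a - 1, by omega⟩
  rw [Nat.add_sub_cancel] at h1
  have h2 : p ≤ 2 * (p - 1) := by
    have := hp.two_le
    omega
  calc p ^ (b + 1) = p ^ b * p := pow_succ p b
    _ ≤ p ^ b * (2 * (p - 1)) := Nat.mul_le_mul_left _ h2
    _ = 2 * (p ^ b * (p - 1)) := by ring
    _ ≤ 2 * D := Nat.mul_le_mul_left 2 h1

end MUFx

open MUFx in
theorem t_MUF : ∀ (k : Type) [Field k] [CharZero k] (S : Set k), S.Finite →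
    FinMu (Subfield.closure S) := by
  classical
  intro k _ _ S hS
  letI : Algebra ℚ k := inferInstance
  set L := IntermediateField.adjoin ℚ S with hL
  haveI : Algebra.EssFiniteType ℚ L :=
    IntermediateField.essFiniteType_iff.2 (IntermediateField.fg_adjoin_of_finite hS)
  obtain ⟨s, hs⟩ := exists_isTranscendenceBasis ℚ L
  set E := IntermediateField.adjoin ℚ (Set.range ((↑) : s → L)) with hE
  haveI halg : Algebra.IsAlgebraic E L := hs.isAlgebraic_field
  haveI : Algebra.EssFiniteType E L := Algebra.EssFiniteType.of_comp ℚ E L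
  haveI hfd : FiniteDimensional E L := by
    obtain ⟨t, ht⟩ := IntermediateField.fg_top E L
    have h1 : FiniteDimensional E (IntermediateField.adjoin E (t : Set L)) :=
      IntermediateField.finiteDimensional_adjoin fun x _ => (halg.isAlgebraic x).isIntegral
    rw [ht] at h1
    exact Module.Finite.equiv (IntermediateField.topEquiv (F := E) (E := L)).toLinearEquiv
  have hN : (2 * Module.finrank E L).factorial ≠ 0 := Nat.factorial_ne_zero _
  refine ((Polynomial.nthRootsFinset (2 * Module.finrank E L).factorial (1 : k)).finite_toSet).subset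
    ?_
  rintro z ⟨hz, n, hn, hzn⟩
  have hzL : z ∈ L := by
    have h1 : Subfield.closure S ≤ L.toSubfield :=
      Subfield.closure_le.2 (IntermediateField.subset_adjoin ℚ S)
    exact h1 hz
  have hpow : (⟨z, hzL⟩ : L) ^ n = 1 := Subtype.ext hzn
  set w : L := ⟨z, hzL⟩ with hw
  have hord : 0 < orderOf w := orderOf_pos_iff.2
    (isOfFinOrder_iff_pow_eq_one.2 ⟨n, Nat.pos_of_ne_zero hn, hpow⟩)
  have hprim : IsPrimitiveRoot w (orderOf w) := IsPrimitiveRoot.orderOf w
  have hint : IsIntegral ℚ w :=
    IsIntegral.of_pow (Nat.pos_of_ne_zero hn) (by rw [hpow]; exact isIntegral_one)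
  have h1 := deg hs.1 hint
  rw [← Polynomial.cyclotomic_eq_minpoly_rat hprim hord, Polynomial.natDegree_cyclotomic] at h1
  have h2 : orderOf w ∣ (2 * Module.finrank E L).factorial := tot hord h1
  have h3 : w ^ (2 * Module.finrank E L).factorial = 1 := orderOf_dvd_iff_pow_eq_one.1 h2
  rw [Finset.mem_coe, Polynomial.mem_nthRootsFinset (Nat.pos_of_ne_zero hN)]
  exact congrArg (fun a : L => (a : k)) h3

end Pool.Agent.T2h61.PL
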