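import Pool.Agent.N509.TX.Fg
import Pool.Agent.T2h60.CY.HQ

/-!
# Groups of automorphisms of the affine plane: definitions and statements of the tasks

Owner helper61. `Au k` is the group of the automorphisms of the `k`-algebra `k[x, y]`.
-/

set_option autoImplicit false

namespace Pool.Agent.T2h61.PL

open MvPolynomial
open Pool.Agent.Y110.FJ (ClosedE)
open Pool.Agent.N509.TX (AcylF)

/-- the group of the automorphisms of the `k`-algebra `k[x, y]`; `(f * g) u = f (g u)` -/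
abbrev Au (k : Type) [Field k] : Type := MvPolynomial (Fin 2) k ≃ₐ[k] MvPolynomial (Fin 2) k

section defs

variable {k : Type} [Field k]

/-- `g` is affine, with coefficients in the subfield `K` -/
def IsAff (K : Subfield k) (g : Au k) : Prop :=
  ∃ a b c d e f : k, a ∈ K ∧ b ∈ K ∧ c ∈ K ∧ d ∈ K ∧ e ∈ K ∧ f ∈ K ∧
    g (X 0) = C a * X 0 + C b * X 1 + C c ∧ g (X 1) = C d * X 0 + C e * X 1 + C f

/-- `g` is triangular, with coefficients in the subfield `K`: `x ↦ a x + p(y)`, `y ↦ b y + c` -/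
def IsTri (K : Subfield k) (g : Au k) : Prop :=
  ∃ (a b c : k) (p : Polynomial k), a ∈ K ∧ b ∈ K ∧ c ∈ K ∧ (∀ n, p.coeff n ∈ K) ∧
    g (X 0) = C a * X 0 + Polynomial.aeval (X 1) p ∧ g (X 1) = C b * X 1 + C c

/-- the affine automorphisms (with their inverses) with coefficients in `K` generate this group -/
noncomputable def affS (K : Subfield k) : Subgroup (Au k) := Subgroup.closure {g | IsAff K g ∧ IsAff K g⁻¹}

/-- the triangular automorphisms (with their inverses) with coefficients in `K` generate this group -/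
noncomputable def triS (K : Subfield k) : Subgroup (Au k) := Subgroup.closure {g | IsTri K g ∧ IsTri K g⁻¹}

/-- the tame automorphisms over `K` -/
noncomputable def tame (K : Subfield k) : Subgroup (Au k) := affS K ⊔ triS K

/-- the degree -/
def dg (g : MvPolynomial (Fin 2) k) : ℕ := g.totalDegree

/-- the affine automorphisms, as a subgroup of the tame ones -/
noncomputable def AA (K : Subfield k) : Subgroup (tame K) := (affS K).subgroupOf (tame K)

/-- the triangular automorphisms, as a subgroup of the tame ones -/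
noncomputable def JJ (K : Subfield k) : Subgroup (tame K) := (triS K).subgroupOf (tame K)

/-- the exchange of `x` and `y` -/
noncomputable def sw (k : Type) [Field k] : Au k := renameEquiv k (Equiv.swap 0 1)

/-- the roots of unity in `K` are finitely many -/
def FinMu (K : Subfield k) : Prop := {z : k | z ∈ K ∧ ∃ n : ℕ, n ≠ 0 ∧ z ^ n = 1}.Finite

end defs

/-- the graph of the cosets of two subgroups: `g A` and `g J` are adjacent -/
def CG {G : Type} [Group G] (A J : Subgroup G) : SimpleGraph ((G ⧸ A) ⊕ (G ⧸ J)) where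
  Adj u v := ∃ g : G, (u = Sum.inl (g : G ⧸ A) ∧ v = Sum.inr (g : G ⧸ J)) ∨
    (u = Sum.inr (g : G ⧸ J) ∧ v = Sum.inl (g : G ⧸ A))
  symm := ⟨fun _ _ ⟨g, h⟩ => ⟨g, h.symm.imp (fun h => h.symm) (fun h => h.symm)⟩⟩
  loopless := ⟨fun v ⟨g, h⟩ => by
    rcases h with ⟨h1, h2⟩ | ⟨h1, h2⟩
    · exact absurd (h1.symm.trans h2) (by simp)
    · exact absurd (h1.symm.trans h2) (by simp)⟩

/-- **TREE** (70 lines). A connected graph with a height function, different at adjacent vertices, such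
that every vertex has at most one lower neighbour, is a tree. PROOF: a vertex of maximal height on a
cycle would have two different lower neighbours. -/
def S_TREE : Prop := ∀ (V : Type) (T : SimpleGraph V) (h : V → ℕ), T.Connected →
  (∀ u v, T.Adj u v → h u ≠ h v) →
  (∀ v a b, T.Adj v a → T.Adj v b → h a < h v → h b < h v → a = b) → T.IsTree

/-- **CON** (50 lines). The coset graph is connected if `A` and `J` generate `G`. -/
def S_CON : Prop := ∀ (G : Type) [Group G] (A J : Subgroup G), A ⊔ J = ⊤ → (CG A J).Connected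

/-- **DEG** (60 lines). The degree of `p(g)`. -/
def S_DEG : Prop := ∀ (k : Type) [Field k] (g : MvPolynomial (Fin 2) k) (p : Polynomial k),
  dg (Polynomial.aeval g p) = p.natDegree * dg g

/-- **GRP** (80 lines). The groups consist of the affine (triangular) automorphisms. -/
def S_GRP : Prop := ∀ (k : Type) [Field k] (K : Subfield k),
  (∀ g : Au k, g ∈ affS K ↔ IsAff K g ∧ IsAff K g⁻¹) ∧
  (∀ g : Au k, g ∈ triS K ↔ IsTri K g ∧ IsTri K g⁻¹)

/-- **GT** (150 lines). The coset graph of the tame group is a tree. -/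
def S_GT : Prop := S_TREE → S_CON → S_DEG → S_GRP → ∀ (k : Type) [Field k] (K : Subfield k),
  (CG (AA K) (JJ K)).IsTree

/-- **VA** (80 lines). The affine group embeds in `GL_3(k)`. -/
def S_VA : Prop := S_GRP → ∀ (k : Type) [Field k] (K : Subfield k),
  ∃ f : affS K →* Matrix.GeneralLinearGroup (Fin 3) k, Function.Injective f

/-- **VJ** (100 lines). The triangular group is solvable of derived length at most three. -/
def S_VJ : Prop := S_GRP → ∀ (k : Type) [Field k] (K : Subfield k), derivedSeries (triS K) 3 = ⊥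

/-- **BRU** (80 lines). The Bruhat decomposition. -/
def S_BRU : Prop := S_GRP → ∀ (k : Type) [Field k] (K : Subfield k),
  sw k ∈ affS K ∧ ∀ a ∈ affS K, a ∉ triS K →
    ∃ b ∈ affS K ⊓ triS K, ∃ b' ∈ affS K ⊓ triS K, a = b * sw k * b'

/-- **NRM** (150 lines). Normal form of a path of length at least six in the coset graph. -/
def S_NRM : Prop := ∀ (G : Type) [Group G] (A J : Subgroup G) (s : G), s ∈ A →
  (∀ a ∈ A, a ∉ J → ∃ b ∈ A ⊓ J, ∃ b' ∈ A ⊓ J, a = b * s * b') →
  ∀ (u v : (G ⧸ A) ⊕ (G ⧸ J)) (w : (CG A J).Walk u v), w.IsPath → 6 ≤ w.length →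
    ∃ t j₁ j₂ : G, j₁ ∈ J ∧ j₁ ∉ A ∧ j₂ ∈ J ∧ j₂ ∉ A ∧
      ∀ g : G, (∀ x ∈ w.support, g • x = x) →
        t⁻¹ * g * t ∈ A ∧ t⁻¹ * g * t ∈ J ∧ s⁻¹ * (t⁻¹ * g * t) * s ∈ J ∧
        j₁⁻¹ * (t⁻¹ * g * t) * j₁ ∈ A ∧ s⁻¹ * (j₁⁻¹ * (t⁻¹ * g * t) * j₁) * s ∈ J ∧
        j₂⁻¹ * (s⁻¹ * (j₁⁻¹ * (t⁻¹ * g * t) * j₁) * s) * j₂ ∈ A

/-- **FIX** (200 lines). In characteristic zero such an element is determined by its eigenvalue `δ`,
`g y = δ y + ε`, which is a root of unity. -/
def S_FIX : Prop := S_GRP → ∀ (k : Type) [Field k] [CharZero k] (K : Subfield k) (j₁ j₂ : Au k),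
  j₁ ∈ triS K → j₁ ∉ affS K → j₂ ∈ triS K → j₂ ∉ affS K →
  ∃ F : Au k → k, (∀ g, (g ∈ affS K ∧ g ∈ triS K ∧ (sw k)⁻¹ * g * sw k ∈ triS K ∧
      j₁⁻¹ * g * j₁ ∈ affS K ∧ (sw k)⁻¹ * (j₁⁻¹ * g * j₁) * sw k ∈ triS K ∧
      j₂⁻¹ * ((sw k)⁻¹ * (j₁⁻¹ * g * j₁) * sw k) * j₂ ∈ affS K) →
      F g ∈ K ∧ ∃ n : ℕ, n ≠ 0 ∧ F g ^ n = 1) ∧
    ∀ g g', (g ∈ affS K ∧ g ∈ triS K ∧ (sw k)⁻¹ * g * sw k ∈ triS K ∧
      j₁⁻¹ * g * j₁ ∈ affS K ∧ (sw k)⁻¹ * (j₁⁻¹ * g * j₁) * sw k ∈ triS K ∧
      j₂⁻¹ * ((sw k)⁻¹ * (j₁⁻¹ * g * j₁) * sw k) * j₂ ∈ affS K) →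
      (g' ∈ affS K ∧ g' ∈ triS K ∧ (sw k)⁻¹ * g' * sw k ∈ triS K ∧
      j₁⁻¹ * g' * j₁ ∈ affS K ∧ (sw k)⁻¹ * (j₁⁻¹ * g' * j₁) * sw k ∈ triS K ∧
      j₂⁻¹ * ((sw k)⁻¹ * (j₁⁻¹ * g' * j₁) * sw k) * j₂ ∈ affS K) → F g = F g' → g = g'

/-- **MU** (60 lines). A finitely generated subfield of an algebraic extension of `ℚ` has finitely many
roots of unity. -/
def S_MU : Prop := ∀ (k : Type) [Field k] [CharZero k], (∀ z : k, IsAlgebraic ℚ z) →
  ∀ S : Set k, S.Finite → FinMu (Subfield.closure S)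

/-- **ACY** (150 lines). The tame group over a field with finitely many roots of unity. -/
def S_ACY : Prop := S_GRP → S_VA → S_VJ → S_BRU → S_NRM → S_FIX → S_GT →
  S_TREE → S_CON → S_DEG → ∀ (C : ∀ (G : Type) [Group G], Prop), ClosedE C →
  (∀ (G : Type) [Group G], derivedSeries G 2 = ⊥ → C G) → AcylF C →
  ∀ (k : Type) [Field k] [CharZero k], C (Matrix.GeneralLinearGroup (Fin 3) k) →
  ∀ K : Subfield k, FinMu K → C (tame K)

/-- **LIM** (80 lines). From the finitely generated subfields to the whole field. -/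
def S_LIM : Prop := S_GRP → ∀ (C : ∀ (G : Type) [Group G], Prop), ClosedE C →
  ∀ (k : Type) [Field k], (∀ S : Set k, S.Finite → C (tame (Subfield.closure S))) →
  C (tame (⊤ : Subfield k))

/-! ### the theorem of Jung in characteristic zero -/

/-- the Jacobian determinant -/
noncomputable def jac {k : Type} [Field k] (f g : MvPolynomial (Fin 2) k) : MvPolynomial (Fin 2) k :=
  pderiv 0 f * pderiv 1 g - pderiv 1 f * pderiv 0 g

/-- the leading form -/
noncomputable def lf {k : Type} [Field k] (f : MvPolynomial (Fin 2) k) : MvPolynomial (Fin 2) k :=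
  homogeneousComponent (dg f) f

/-- **JAC** (80 lines). The Jacobian determinant of an automorphism is a nonzero constant. -/
def S_JAC : Prop := ∀ (k : Type) [Field k] (φ : Au k), ∃ c : k, c ≠ 0 ∧
  jac (φ (X 0)) (φ (X 1)) = C c

/-- **CHN** (40 lines). -/
def S_CHN : Prop := ∀ (k : Type) [Field k] (f g G : MvPolynomial (Fin 2) k),
  jac f (aeval ![f, g] G) = aeval ![f, g] (pderiv 1 G) * jac f g

/-- **JDG** (60 lines). -/
def S_JDG : Prop := ∀ (k : Type) [Field k] (f g : MvPolynomial (Fin 2) k), jac f g ≠ 0 →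
  dg (jac f g) + 2 ≤ dg f + dg g

/-- **LDF** (180 lines). The leading forms of the components of an automorphism are powers of one form
up to constants. -/
def S_LDF : Prop := S_JAC → ∀ (k : Type) [Field k] [CharZero k] (φ : Au k),
  3 ≤ dg (φ (X 0)) + dg (φ (X 1)) → ∀ n m : ℕ, 0 < n → 0 < m →
    n * dg (φ (X 1)) = m * dg (φ (X 0)) → ∃ c : k, c ≠ 0 ∧
      lf (φ (X 0)) ^ m = C c * lf (φ (X 1)) ^ n

/-- **INQ** (250 lines). One of the degrees divides the other. -/
def S_INQ : Prop := S_JAC → S_CHN → S_JDG → S_LDF → ∀ (k : Type) [Field k] [CharZero k] (φ : Au k),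
  3 ≤ dg (φ (X 0)) + dg (φ (X 1)) → dg (φ (X 0)) ≤ dg (φ (X 1)) → dg (φ (X 0)) ∣ dg (φ (X 1))

/-- **JFN** (120 lines). The theorem of Jung. -/
def S_JFN : Prop := S_GRP → S_JAC → S_LDF → S_INQ → S_CHN → S_JDG →
  ∀ (k : Type) [Field k] [CharZero k], tame (⊤ : Subfield k) = (⊤ : Subgroup (Au k))

end Pool.Agent.T2h61.PL
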