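import Pool.Agent.T2h61.PL.Stm

set_option autoImplicit false

namespace Pool.Agent.T2h61.PL.ACY

open Pool.Agent.T2h61.PL
open Pool.Agent.Y110.FJ (ClosedE)
open Pool.Agent.N509.TX (AcylF of_fg C_stab)

section

variable {G : Type} [Group G] (A J : Subgroup G)

theorem act (g : G) (u v : (G ⧸ A) ⊕ (G ⧸ J)) (h : (CG A J).Adj u v) :
    (CG A J).Adj (g • u) (g • v) := by
  obtain ⟨x, h | h⟩ := h
  · obtain ⟨rfl, rfl⟩ := h
    exact ⟨g * x, Or.inl ⟨rfl, rfl⟩⟩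
  · obtain ⟨rfl, rfl⟩ := h
    exact ⟨g * x, Or.inr ⟨rfl, rfl⟩⟩

theorem noinv (g : G) (u v : (G ⧸ A) ⊕ (G ⧸ J)) (h : (CG A J).Adj u v) :
    ¬ (g • u = v ∧ g • v = u) := by
  rintro ⟨h1, -⟩
  obtain ⟨x, h | h⟩ := h
  · obtain ⟨rfl, rfl⟩ := h
    have h2 : (Sum.inl ((g * x : G) : G ⧸ A) : (G ⧸ A) ⊕ (G ⧸ J)) = Sum.inr (x : G ⧸ J) := h1
    exact absurd h2 (by simp)
  · obtain ⟨rfl, rfl⟩ := h
    have h2 : (Sum.inr ((g * x : G) : G ⧸ J) : (G ⧸ A) ⊕ (G ⧸ J)) = Sum.inl (x : G ⧸ A) := h1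
    exact absurd h2 (by simp)

theorem stab_inl (x y : G) (h : y ∈ MulAction.stabilizer G
    (Sum.inl (x : G ⧸ A) : (G ⧸ A) ⊕ (G ⧸ J))) : x⁻¹ * y * x ∈ A := by
  have h1 : (Sum.inl ((y * x : G) : G ⧸ A) : (G ⧸ A) ⊕ (G ⧸ J)) = Sum.inl (x : G ⧸ A) := h
  have h2 : (x : G ⧸ A) = ((y * x : G) : G ⧸ A) := (Sum.inl.inj h1).symm
  rw [QuotientGroup.eq] at h2
  rwa [mul_assoc]

theorem stab_inr (x y : G) (h : y ∈ MulAction.stabilizer G
    (Sum.inr (x : G ⧸ J) : (G ⧸ A) ⊕ (G ⧸ J))) : x⁻¹ * y * x ∈ J := by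
  have h1 : (Sum.inr ((y * x : G) : G ⧸ J) : (G ⧸ A) ⊕ (G ⧸ J)) = Sum.inr (x : G ⧸ J) := h
  have h2 : (x : G ⧸ J) = ((y * x : G) : G ⧸ J) := (Sum.inr.inj h1).symm
  rw [QuotientGroup.eq] at h2
  rwa [mul_assoc]

end

/-- a subgroup which is conjugate into the preimage of a subgroup in the class -/
theorem conj {C : ∀ (G : Type) [Group G], Prop} (hC : ClosedE C) {E : Type} [Group E]
    (B T : Subgroup E) (hB : C B) (St : Subgroup T) (x : T)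
    (h : ∀ y ∈ St, x⁻¹ * y * x ∈ B.subgroupOf T) : C St := by
  refine hC.base.of_injective _ _
    { toFun := fun y => (⟨((x⁻¹ * (y : T) * x : T) : E), h y y.2⟩ : B)
      map_one' := by
        apply Subtype.ext
        simp
      map_mul' := by
        intro y z
        apply Subtype.ext
        simp [mul_assoc] } ?_ hB
  intro y z hyz
  have h1 : ((x⁻¹ * (y : T) * x : T) : E) = ((x⁻¹ * (z : T) * x : T) : E) :=
    congrArg (fun b : B => (b : E)) hyz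
  have h2 : x⁻¹ * (y : T) * x = x⁻¹ * (z : T) * x := Subtype.ext h1
  have h3 : (y : T) = (z : T) := mul_left_cancel (mul_right_cancel h2)
  exact Subtype.ext h3

theorem t_ACY : S_ACY := by
  intro hGRP hVA hVJ hBRU hNRM hFIX hGT hTREE hCON hDEG C hC hM hA k _ _ hGL K hmu
  have hT : (CG (AA K) (JJ K)).IsTree := hGT hTREE hCON hDEG hGRP k K
  obtain ⟨hsw, hbru⟩ := hBRU hGRP k K
  have hCA : C (affS K) := by
    obtain ⟨f, hf⟩ := hVA hGRP k K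
    exact hC.base.of_injective _ _ f hf hGL
  have hCJ : C (triS K) :=
    (Pool.Agent.T2h60.CY.HQ.solv hC hM 3 _ (hVJ hGRP k K)).self
  have hV : ∀ v : (tame K ⧸ AA K) ⊕ (tame K ⧸ JJ K), C ↥(MulAction.stabilizer (tame K) v) := by
    intro v
    rcases v with v | v
    · obtain ⟨x, rfl⟩ := QuotientGroup.mk_surjective v
      exact conj hC (affS K) (tame K) hCA _ x fun y hy => stab_inl (AA K) (JJ K) x y hy
    · obtain ⟨x, rfl⟩ := QuotientGroup.mk_surjective v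
      exact conj hC (triS K) (tame K) hCJ _ x fun y hy => stab_inr (AA K) (JJ K) x y hy
  have hAT : affS K ≤ tame K := le_sup_left
  have hb : ∀ a ∈ AA K, a ∉ JJ K → ∃ b ∈ AA K ⊓ JJ K, ∃ b' ∈ AA K ⊓ JJ K,
      a = b * ⟨sw k, hAT hsw⟩ * b' := by
    intro a ha ha'
    obtain ⟨b, hb1, b', hb2, hab⟩ := hbru a ha ha'
    exact ⟨⟨b, hAT hb1.1⟩, ⟨hb1.1, hb1.2⟩, ⟨b', hAT hb2.1⟩, ⟨hb2.1, hb2.2⟩, Subtype.ext hab⟩
  have hmu' : {z : k | z ∈ K ∧ ∃ n : ℕ, n ≠ 0 ∧ z ^ n = 1}.Finite := hmu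
  refine of_fg hC fun H hH => ?_
  refine hA H _ (CG (AA K) (JJ K)) hH hT (fun g u v h => act _ _ (g : tame K) u v h)
    (fun g u v h => noinv _ _ (g : tame K) u v h) ⟨6, hmu'.toFinset.card, ?_⟩
    (fun v => C_stab hC H v (hV v))
  intro u v p hp hlen F hF
  obtain ⟨t, j₁, j₂, h1, h1', h2, h2', hg⟩ :=
    hNRM (tame K) (AA K) (JJ K) ⟨sw k, hAT hsw⟩ hsw hb u v p hp hlen
  obtain ⟨Φ, hΦ1, hΦ2⟩ := hFIX hGRP k K (j₁ : Au k) (j₂ : Au k) h1 h1' h2 h2'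
  refine Finset.card_le_card_of_injOn
    (fun g : H => Φ ((t⁻¹ * (g : tame K) * t : tame K) : Au k)) ?_ ?_
  · intro g hgF
    have h3 := hΦ1 _ (hg (g : tame K) fun x hx => hF g hgF x hx)
    exact Finset.mem_coe.2 (hmu'.mem_toFinset.2 h3)
  · intro g hgF g' hgF' hgg
    have h3 := hg (g : tame K) fun x hx => hF g hgF x hx
    have h4 := hg (g' : tame K) fun x hx => hF g' hgF' x hx
    have h5 := hΦ2 _ _ h3 h4 hgg
    have h6 : t⁻¹ * (g : tame K) * t = t⁻¹ * (g' : tame K) * t := Subtype.ext h5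
    exact Subtype.ext (mul_left_cancel (mul_right_cancel h6))

end Pool.Agent.T2h61.PL.ACY
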