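import Pool.Agent.T2h61.PL.Stm

/-!
Task INQ of project PL (helper33).
-/

namespace Pool.Agent.T2h61.PL.INQ

open MvPolynomial

variable {k : Type} [Field k]

/-- `p` has degree at most `P` and its component of degree `P` is `p'`. -/
def Top (P : ℕ) (p p' : MvPolynomial (Fin 2) k) : Prop :=
  p.totalDegree ≤ P ∧ homogeneousComponent P p = p'

lemma coeff_zero_of_lt {p : MvPolynomial (Fin 2) k} {P : ℕ} (h : p.totalDegree ≤ P)
    (d : Fin 2 →₀ ℕ) (hd : P < d.degree) : coeff d p = 0 := by
  apply coeff_eq_zero_of_totalDegree_lt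
  have hd' : P < ∑ i ∈ d.support, d i := hd
  exact lt_of_le_of_lt h hd'

lemma Top.mul {P Q : ℕ} {p p' q q' : MvPolynomial (Fin 2) k} (hp : Top P p p') (hq : Top Q q q') :
    Top (P + Q) (p * q) (p' * q') := by
  refine ⟨(totalDegree_mul _ _).trans (add_le_add hp.1 hq.1), ?_⟩
  rw [← hp.2, ← hq.2]
  ext d
  rw [coeff_homogeneousComponent, coeff_mul, coeff_mul]
  split_ifs with hd
  · refine Finset.sum_congr rfl fun x hx => ?_
    have hx' : x.1 + x.2 = d := Finset.HasAntidiagonal.mem_antidiagonal.1 hx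
    have hdeg : x.1.degree + x.2.degree = P + Q := by rw [← hd, ← hx', map_add]
    rw [coeff_homogeneousComponent, coeff_homogeneousComponent]
    rcases lt_trichotomy x.1.degree P with h | h | h
    · rw [coeff_zero_of_lt hq.1 x.2 (by omega)]; simp [h.ne]
    · rw [if_pos h, if_pos (by omega)]
    · rw [coeff_zero_of_lt hp.1 x.1 h]; simp [h.ne']
  · symm
    refine Finset.sum_eq_zero fun x hx => ?_
    have hx' : x.1 + x.2 = d := Finset.HasAntidiagonal.mem_antidiagonal.1 hx
    rw [coeff_homogeneousComponent, coeff_homogeneousComponent]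
    by_cases h1 : x.1.degree = P
    · have h2 : x.2.degree ≠ Q := fun h2 => hd (by rw [← hx', map_add, h1, h2])
      simp [h2]
    · simp [h1]

lemma Top.one : Top (k := k) 0 1 1 := by
  refine ⟨by simp, ?_⟩
  rw [homogeneousComponent_zero]; simp

lemma Top.pow {P : ℕ} {p p' : MvPolynomial (Fin 2) k} (hp : Top P p p') (n : ℕ) :
    Top (n * P) (p ^ n) (p' ^ n) := by
  induction n with
  | zero => simpa using Top.one
  | succ n ih =>
    have := ih.mul hp
    rwa [← Nat.succ_mul, ← pow_succ, ← pow_succ] at this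

lemma Top.lf (p : MvPolynomial (Fin 2) k) : Top (dg p) p (lf p) := ⟨le_rfl, rfl⟩

/-- the weight -/
def wt (n0 m0 : ℕ) (d : Fin 2 →₀ ℕ) : ℕ := d 0 * n0 + d 1 * m0

/-- the component of weight `W` -/
noncomputable def TW (n0 m0 W : ℕ) (G : MvPolynomial (Fin 2) k) : MvPolynomial (Fin 2) k :=
  ∑ d ∈ G.support.filter (fun d => wt n0 m0 d = W), monomial d (coeff d G)

lemma coeff_TW (n0 m0 W : ℕ) (G : MvPolynomial (Fin 2) k) (d : Fin 2 →₀ ℕ) :
    coeff d (TW n0 m0 W G) = if wt n0 m0 d = W then coeff d G else 0 := by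
  classical
  rw [TW, coeff_sum]
  simp only [coeff_monomial]
  rw [Finset.sum_ite_eq']
  simp only [Finset.mem_filter, mem_support_iff]
  by_cases h : wt n0 m0 d = W
  · by_cases h2 : coeff d G = 0
    · simp [h, h2]
    · simp [h, h2]
  · simp [h]

lemma aeval_two (a b G : MvPolynomial (Fin 2) k) :
    aeval ![a, b] G = ∑ d ∈ G.support, C (coeff d G) * (a ^ d 0 * b ^ d 1) := by
  rw [aeval_def, eval₂_eq']
  refine Finset.sum_congr rfl fun d _ => ?_
  rw [Fin.prod_univ_two]
  rfl

lemma aeval_TW (n0 m0 W : ℕ) (a b G : MvPolynomial (Fin 2) k) :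
    aeval ![a, b] (TW n0 m0 W G) =
      ∑ d ∈ G.support.filter (fun d => wt n0 m0 d = W), C (coeff d G) * (a ^ d 0 * b ^ d 1) := by
  rw [TW, map_sum]
  refine Finset.sum_congr rfl fun d _ => ?_
  rw [aeval_monomial, Finsupp.prod_fintype _ _ (by simp), Fin.prod_univ_two]
  rfl

lemma hc_aeval (f g G : MvPolynomial (Fin 2) k) (W : ℕ)
    (h : ∀ d ∈ G.support, wt (dg f) (dg g) d ≤ W) :
    homogeneousComponent W (aeval ![f, g] G) = aeval ![lf f, lf g] (TW (dg f) (dg g) W G) := by
  rw [aeval_two, aeval_TW, map_sum, Finset.sum_filter]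
  refine Finset.sum_congr rfl fun d hd => ?_
  have ht : Top (wt (dg f) (dg g) d) (f ^ d 0 * g ^ d 1) (lf f ^ d 0 * lf g ^ d 1) :=
    ((Top.lf f).pow _).mul ((Top.lf g).pow _)
  rw [homogeneousComponent_C_mul]
  split_ifs with hw
  · rw [← hw, ht.2]
  · rw [homogeneousComponent_eq_zero, mul_zero]
    exact lt_of_le_of_lt ht.1 (lt_of_le_of_ne (h d hd) hw)

lemma le_dg_of_ne (p : MvPolynomial (Fin 2) k) (W : ℕ) (h : homogeneousComponent W p ≠ 0) :
    W ≤ dg p := by
  by_contra hc
  exact h (homogeneousComponent_eq_zero _ _ (not_le.1 hc))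

lemma TW_pderiv (n0 m0 W : ℕ) (hW : m0 ≤ W) (G : MvPolynomial (Fin 2) k) :
    TW n0 m0 (W - m0) (pderiv 1 G) = pderiv 1 (TW n0 m0 W G) := by
  ext d
  rw [coeff_TW, coeff_pderiv, coeff_pderiv, coeff_TW]
  have : wt n0 m0 (d + Finsupp.single 1 1) = wt n0 m0 d + m0 := by
    simp [wt]; ring
  rw [this]
  by_cases h : wt n0 m0 d = W - m0
  · rw [if_pos h, if_pos (by omega)]
  · rw [if_neg h, if_neg (by omega), zero_mul]

lemma supp_pderiv (n0 m0 W : ℕ) (G : MvPolynomial (Fin 2) k)
    (h : ∀ d ∈ G.support, wt n0 m0 d ≤ W) : ∀ d ∈ (pderiv 1 G).support, wt n0 m0 d ≤ W - m0 := by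
  intro d hd
  rw [mem_support_iff, coeff_pderiv] at hd
  have h1 : d + Finsupp.single 1 1 ∈ G.support := by
    rw [mem_support_iff]; exact left_ne_zero_of_mul hd
  have h2 := h _ h1
  have : wt n0 m0 (d + Finsupp.single 1 1) = wt n0 m0 d + m0 := by
    simp [wt]; ring
  omega


/-- the relation between the leading forms -/
noncomputable def HH (n m : ℕ) (c : k) : MvPolynomial (Fin 2) k := X 1 ^ n - C c * X 0 ^ m

/-- division with remainder in the second variable -/
lemma division (n m : ℕ) (hn : 0 < n) (c : k) (p : MvPolynomial (Fin 2) k) :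
    ∃ a q : MvPolynomial (Fin 2) k, (∀ d ∈ a.support, d 1 < n) ∧ p = a + HH n m c * q := by
  have hmono : ∀ (N : ℕ) (d : Fin 2 →₀ ℕ) (r : k), d 1 ≤ N →
      ∃ a q : MvPolynomial (Fin 2) k, (∀ d ∈ a.support, d 1 < n) ∧
        monomial d r = a + HH n m c * q := by
    intro N
    induction N using Nat.strong_induction_on with
    | _ N ih =>
      intro d r hd
      by_cases hdn : d 1 < n
      · refine ⟨monomial d r, 0, ?_, by simp⟩
        intro e he
        have := support_monomial_subset he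
        rw [Finset.mem_singleton] at this
        rw [this]; exact hdn
      · push Not at hdn
        -- v^(d1) = v^(d1 - n) v^n
        let d' : Fin 2 →₀ ℕ := Finsupp.single 0 (d 0) + Finsupp.single 1 (d 1 - n)
        let d'' : Fin 2 →₀ ℕ := Finsupp.single 0 (d 0 + m) + Finsupp.single 1 (d 1 - n)
        have h1 : monomial d r = monomial d'' (c * r) + HH n m c * monomial d' r := by
          have e1 : (monomial d r : MvPolynomial (Fin 2) k) = C r * (X 0 ^ d 0 * X 1 ^ d 1) := by
            rw [monomial_eq, Finsupp.prod_fintype _ _ (by simp), Fin.prod_univ_two]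
          have e2 : (monomial d' r : MvPolynomial (Fin 2) k) =
              C r * (X 0 ^ d 0 * X 1 ^ (d 1 - n)) := by
            rw [monomial_eq, Finsupp.prod_fintype _ _ (by simp), Fin.prod_univ_two]
            simp [d']
          have e3 : (monomial d'' (c * r) : MvPolynomial (Fin 2) k) =
              C (c * r) * (X 0 ^ (d 0 + m) * X 1 ^ (d 1 - n)) := by
            rw [monomial_eq, Finsupp.prod_fintype _ _ (by simp), Fin.prod_univ_two]
            simp [d'']
          rw [e1, e2, e3, HH]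
          have : (X 1 : MvPolynomial (Fin 2) k) ^ d 1 = X 1 ^ (d 1 - n) * X 1 ^ n := by
            rw [← pow_add]; congr 1; omega
          rw [this, C_mul]
          ring
        obtain ⟨a, q, ha, hq⟩ := ih (d 1 - n) (by omega) d'' (c * r) (by simp [d''])
        exact ⟨a, q + monomial d' r, ha, by rw [h1, hq]; ring⟩
  induction p using MvPolynomial.induction_on' with
  | monomial d r => exact hmono _ d r le_rfl
  | add p q hp hq =>
    obtain ⟨a, b, ha, hb⟩ := hp
    obtain ⟨a', b', ha', hb'⟩ := hq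
    refine ⟨a + a', b + b', ?_, by rw [hb, hb']; ring⟩
    intro d hd
    classical
    rcases Finset.mem_union.1 (support_add hd) with h | h
    · exact ha d h
    · exact ha' d h

section rel

variable {f g : MvPolynomial (Fin 2) k} {n m : ℕ} {c : k}

lemma wt_inj {n0 m0 n m D : ℕ} (hD : 0 < D) (h0 : n0 = n * D) (h1 : m0 = m * D)
    (hc : Nat.Coprime n m) (hn : 0 < n) (d e : Fin 2 →₀ ℕ) (hd : d 1 < n) (he : e 1 < n)
    (h : wt n0 m0 d = wt n0 m0 e) : d = e := by
  have h2 : d 0 * n + d 1 * m = e 0 * n + e 1 * m := by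
    have : (d 0 * n + d 1 * m) * D = (e 0 * n + e 1 * m) * D := by
      simp only [wt, h0, h1] at h
      linarith
    exact Nat.eq_of_mul_eq_mul_right hD this
  have h3 : d 1 * m ≡ e 1 * m [MOD n] := by
    have e1 : d 0 * n + d 1 * m ≡ e 0 * n + e 1 * m [MOD n] := by rw [h2]
    have e2 : d 0 * n + d 1 * m ≡ d 1 * m [MOD n] := by
      simp
    have e3 : e 0 * n + e 1 * m ≡ e 1 * m [MOD n] := by
      simp
    exact (e2.symm.trans e1).trans e3
  have h4 : d 1 ≡ e 1 [MOD n] := Nat.ModEq.cancel_right_of_coprime hc h3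
  have h5 : d 1 = e 1 := Nat.ModEq.eq_of_lt_of_lt h4 hd he
  have h6 : d 0 = e 0 := by
    rw [h5] at h2
    exact Nat.eq_of_mul_eq_mul_right hn (by omega)
  ext i
  fin_cases i
  · exact h6
  · exact h5

lemma aeval_HH (hc : c ≠ 0) (hrel : lf f ^ m = C c * lf g ^ n) :
    aeval ![lf f, lf g] (HH n m c⁻¹) = 0 := by
  have : aeval ![lf f, lf g] (HH n m c⁻¹) = lf g ^ n - C c⁻¹ * lf f ^ m := by
    simp [HH]
  rw [this, hrel, ← mul_assoc, ← C_mul, inv_mul_cancel₀ hc, C_1, one_mul, sub_self]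

lemma hc_mono (d : Fin 2 →₀ ℕ) (W : ℕ) :
    homogeneousComponent W (lf f ^ d 0 * lf g ^ d 1) =
      if wt (dg f) (dg g) d = W then lf f ^ d 0 * lf g ^ d 1 else 0 := by
  have h1 : (lf f).IsHomogeneous (dg f) := homogeneousComponent_isHomogeneous _ _
  have h2 : (lf g).IsHomogeneous (dg g) := homogeneousComponent_isHomogeneous _ _
  have h3 : (lf f ^ d 0 * lf g ^ d 1).IsHomogeneous (wt (dg f) (dg g) d) := by
    have := (h1.pow (d 0)).mul (h2.pow (d 1))
    simpa [wt, mul_comm] using this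
  split_ifs with h
  · rw [← h]
    exact homogeneousComponent_of_mem h3 |>.trans (by simp)
  · exact homogeneousComponent_of_mem h3 |>.trans (by rw [if_neg (Ne.symm h)])

/-- the kernel of the evaluation at the leading forms -/
lemma dvd_of_aeval {D : ℕ} (hD : 0 < D) (h0 : dg f = n * D) (h1 : dg g = m * D)
    (hcop : Nat.Coprime n m) (hn : 0 < n) (hc : c ≠ 0) (hrel : lf f ^ m = C c * lf g ^ n)
    (hf : lf f ≠ 0) (hg : lf g ≠ 0) (b : MvPolynomial (Fin 2) k)
    (hb : aeval ![lf f, lf g] b = 0) : HH n m c⁻¹ ∣ b := by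
  obtain ⟨a, q, ha, hq⟩ := division n m hn c⁻¹ b
  have h2 : aeval ![lf f, lf g] a = 0 := by
    have := hb
    rw [hq, map_add, map_mul, aeval_HH hc hrel, zero_mul, add_zero] at this
    exact this
  have h3 : a = 0 := by
    by_contra hne
    obtain ⟨d, hd⟩ := Finset.nonempty_iff_ne_empty.2 (fun h => hne (support_eq_empty.1 h))
    have h4 := congrArg (homogeneousComponent (wt (dg f) (dg g) d)) h2
    rw [aeval_two, map_sum, map_zero, Finset.sum_eq_single d] at h4
    · rw [homogeneousComponent_C_mul, hc_mono, if_pos rfl] at h4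
      have h5 : (C (coeff d a) : MvPolynomial (Fin 2) k) ≠ 0 := by
        rw [Ne, C_eq_zero]; exact mem_support_iff.1 hd
      exact mul_ne_zero h5 (mul_ne_zero (pow_ne_zero _ hf) (pow_ne_zero _ hg)) h4
    · intro e he hne'
      rw [homogeneousComponent_C_mul, hc_mono, if_neg, mul_zero]
      intro h
      exact hne' (wt_inj hD h0 h1 hcop hn e d (ha e he) (ha d hd) h)
    · intro h; exact absurd hd h
  rw [hq, h3, zero_add]
  exact Dvd.intro _ rfl

end rel


lemma pderiv_HH (n m : ℕ) (c : k) :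
    pderiv 1 (HH n m c) = C (n : k) * X 1 ^ (n - 1) := by
  rw [HH, map_sub, Derivation.leibniz_pow, pderiv_C_mul, Derivation.leibniz_pow]
  have h1 : pderiv (1 : Fin 2) (X 1 : MvPolynomial (Fin 2) k) = 1 := pderiv_X_self 1
  have h2 : pderiv (1 : Fin 2) (X 0 : MvPolynomial (Fin 2) k) = 0 :=
    pderiv_X_of_ne (by decide)
  rw [h1, h2]
  simp [nsmul_eq_mul]

lemma star (hCHN : S_CHN) (hJDG : S_JDG) [CharZero k] {f g : MvPolynomial (Fin 2) k}
    {n m : ℕ} {c c0 : k} (hn : 0 < n) (hc : c ≠ 0) (hrel : lf f ^ m = C c * lf g ^ n)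
    (hg : lf g ≠ 0) (hinj : ∀ E : MvPolynomial (Fin 2) k, aeval ![f, g] E = 0 → E = 0)
    (hc0 : c0 ≠ 0) (hjac : jac f g = C c0) :
    ∀ (j : ℕ) (G : MvPolynomial (Fin 2) k) (W : ℕ) (b : MvPolynomial (Fin 2) k),
      (∀ d ∈ G.support, wt (dg f) (dg g) d ≤ W) → TW (dg f) (dg g) W G = HH n m c⁻¹ ^ j * b →
      aeval ![lf f, lf g] b ≠ 0 →
      W + 2 * j ≤ dg (aeval ![f, g] G) + j * (dg f + dg g) := by
  intro j
  induction j with
  | zero =>
    intro G W b hW hT hb
    have h1 := hc_aeval f g G W hW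
    rw [hT, pow_zero, one_mul] at h1
    have := le_dg_of_ne _ W (h1 ▸ hb)
    omega
  | succ j ih =>
    intro G W b hW hT hb
    set H := HH n m c⁻¹ with hH
    have hH0 : H ≠ 0 := by
      intro h
      have h1 := pderiv_HH n m c⁻¹
      rw [← hH, h, map_zero] at h1
      have h2 : (C (n : k) * X 1 ^ (n - 1) : MvPolynomial (Fin 2) k) ≠ 0 := by
        refine mul_ne_zero ?_ (pow_ne_zero _ (X_ne_zero _))
        rw [Ne, C_eq_zero]; exact_mod_cast hn.ne'
      exact h2 h1.symm
    set b' : MvPolynomial (Fin 2) k :=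
      H * pderiv 1 b + C ((j : k) + 1) * b * (C (n : k) * X 1 ^ (n - 1)) with hb'
    have hP : pderiv 1 (TW (dg f) (dg g) W G) = H ^ j * b' := by
      rw [hT, Derivation.leibniz, Derivation.leibniz_pow, hH, pderiv_HH, ← hH]
      simp only [smul_eq_mul, nsmul_eq_mul, Nat.add_sub_cancel, Nat.cast_add, Nat.cast_one,
        hb', C_add, C_1, map_natCast]
      ring
    have hb'0 : aeval ![lf f, lf g] b' ≠ 0 := by
      rw [hb', map_add, map_mul, hH, aeval_HH hc hrel, zero_mul, zero_add, map_mul, map_mul]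
      refine mul_ne_zero (mul_ne_zero ?_ hb) ?_
      · rw [← algebraMap_eq, AlgHom.commutes, algebraMap_eq, Ne, C_eq_zero]
        exact_mod_cast Nat.succ_ne_zero j
      · rw [map_mul, map_pow, aeval_X]
        refine mul_ne_zero ?_ (pow_ne_zero _ hg)
        rw [← algebraMap_eq, AlgHom.commutes, algebraMap_eq, Ne, C_eq_zero]
        exact_mod_cast hn.ne'
    have hb'1 : b' ≠ 0 := by
      intro h; exact hb'0 (by rw [h, map_zero])
    have hP0 : pderiv 1 (TW (dg f) (dg g) W G) ≠ 0 := by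
      rw [hP]; exact mul_ne_zero (pow_ne_zero _ hH0) hb'1
    have hW' : dg g ≤ W := by
      obtain ⟨d, hd⟩ := Finset.nonempty_iff_ne_empty.2 (fun h => hP0 (support_eq_empty.1 h))
      rw [mem_support_iff, coeff_pderiv, coeff_TW] at hd
      have h1 : wt (dg f) (dg g) (d + Finsupp.single 1 1) = W := by
        by_contra h
        exact hd (by rw [if_neg h, zero_mul])
      rw [← h1]
      simp [wt]
      nlinarith
    have hE := TW_pderiv (dg f) (dg g) W hW' G
    have hE0 : pderiv 1 G ≠ 0 := by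
      intro h
      apply hP0
      rw [← hE, h]
      simp [TW]
    have h1 := ih (pderiv 1 G) (W - dg g) b' (supp_pderiv _ _ _ _ hW) (by rw [hE, hP]) hb'0
    have h2 : aeval ![f, g] (pderiv 1 G) ≠ 0 := fun h => hE0 (hinj _ h)
    have h3 := hCHN k f g G
    rw [hjac] at h3
    have hC : (C c0 : MvPolynomial (Fin 2) k) ≠ 0 := by rw [Ne, C_eq_zero]; exact hc0
    have h4 : jac f (aeval ![f, g] G) ≠ 0 := by rw [h3]; exact mul_ne_zero h2 hC
    have h5 := hJDG k f (aeval ![f, g] G) h4
    have h6 : dg (jac f (aeval ![f, g] G)) = dg (aeval ![f, g] (pderiv 1 G)) := by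
      rw [h3, dg, totalDegree_mul_of_isDomain h2 hC, totalDegree_C, add_zero]; rfl
    rw [h6] at h5
    have h7 : (j + 1) * (dg f + dg g) = j * (dg f + dg g) + (dg f + dg g) := by ring
    rw [h7]
    omega

lemma lf_ne {p : MvPolynomial (Fin 2) k} (hp : p ≠ 0) : lf p ≠ 0 := by
  obtain ⟨d, hd, hd'⟩ := Finset.exists_mem_eq_sup p.support
    (Finset.nonempty_iff_ne_empty.2 (fun h => hp (support_eq_empty.1 h)))
    (fun s => s.sum fun _ e => e)
  intro h
  have h1 : coeff d (lf p) = coeff d p := by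
    rw [lf, coeff_homogeneousComponent, if_pos]
    rw [dg, totalDegree, hd']
    rfl
  rw [h, coeff_zero] at h1
  exact (mem_support_iff.1 hd) h1.symm

theorem t_INQ : S_INQ := by
  intro hJAC hCHN hJDG hLDF k _ _ φ h3 hle
  by_contra hdvd
  set f := φ (X 0) with hf
  set g := φ (X 1) with hg
  have hφ : ∀ E : MvPolynomial (Fin 2) k, aeval ![f, g] E = φ E := by
    intro E
    have : (aeval ![f, g] : MvPolynomial (Fin 2) k →ₐ[k] MvPolynomial (Fin 2) k) =
        (φ : MvPolynomial (Fin 2) k →ₐ[k] MvPolynomial (Fin 2) k) := by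
      apply MvPolynomial.algHom_ext
      intro i
      fin_cases i
      · simp [hf]
      · simp [hg]
    rw [this]; rfl
  have hinj : ∀ E : MvPolynomial (Fin 2) k, aeval ![f, g] E = 0 → E = 0 := by
    intro E h
    rw [hφ] at h
    exact (EmbeddingLike.map_eq_zero_iff (f := φ)).1 h
  have hX0 : f ≠ 0 := by
    rw [hf]; intro h
    exact X_ne_zero (R := k) (0 : Fin 2) ((EmbeddingLike.map_eq_zero_iff (f := φ)).1 h)
  have hX1 : g ≠ 0 := by
    rw [hg]; intro h
    exact X_ne_zero (R := k) (1 : Fin 2) ((EmbeddingLike.map_eq_zero_iff (f := φ)).1 h)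
  -- degrees
  have hn0 : 2 ≤ dg f := by
    by_contra h
    push Not at h
    interval_cases hh : dg f
    · have h1 : f = C (coeff 0 f) := (totalDegree_eq_zero_iff_eq_C).1 hh
      have h2 : φ (X 0 - C (coeff 0 f)) = 0 := by
        rw [map_sub, ← hf, ← algebraMap_eq, AlgEquiv.commutes, algebraMap_eq, ← h1, sub_self]
      have h4 : (X 0 - C (coeff 0 f) : MvPolynomial (Fin 2) k) = 0 :=
        (EmbeddingLike.map_eq_zero_iff (f := φ)).1 h2
      have h5 := congrArg totalDegree (sub_eq_zero.1 h4)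
      rw [totalDegree_C, totalDegree_X] at h5
      exact one_ne_zero h5
    · exact hdvd (one_dvd _)
  have hlt : dg f < dg g := lt_of_le_of_ne hle (fun h => hdvd (h ▸ dvd_rfl))
  set D := Nat.gcd (dg f) (dg g) with hD
  have hDpos : 0 < D := Nat.gcd_pos_of_pos_left _ (by omega)
  obtain ⟨n, hn⟩ := Nat.gcd_dvd_left (dg f) (dg g)
  obtain ⟨m, hm⟩ := Nat.gcd_dvd_right (dg f) (dg g)
  rw [← hD] at hn hm
  have hcop : Nat.Coprime n m := by
    have h1 : D * Nat.gcd n m = D := by
      rw [← Nat.gcd_mul_left, ← hn, ← hm]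
    exact Nat.eq_of_mul_eq_mul_left hDpos (by rw [h1, mul_one])
  have hnpos : 0 < n := by
    rcases Nat.eq_zero_or_pos n with h | h
    · rw [h] at hn; omega
    · exact h
  have hn2 : 2 ≤ n := by
    by_contra h
    have : n = 1 := by omega
    rw [this, mul_one] at hn
    exact hdvd (hn ▸ (Nat.gcd_dvd_right (dg f) (dg g)))
  have hmpos : 0 < m := by
    rcases Nat.eq_zero_or_pos m with h | h
    · rw [h] at hm; omega
    · exact h
  obtain ⟨c, hc, hrel⟩ := hLDF hJAC k φ h3 n m hnpos hmpos (by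
    rw [← hf, ← hg, hn, hm]; ring)
  rw [← hf, ← hg] at hrel
  obtain ⟨c0, hc0, hjac⟩ := hJAC k φ
  rw [← hf, ← hg] at hjac
  have hlf := lf_ne hX0
  have hlg := lf_ne hX1
  -- the polynomial G
  set G := φ.symm (X 0) with hG
  have hGf : aeval ![f, g] G = X 0 := by rw [hφ, hG]; simp
  have hG0 : G ≠ 0 := by
    intro h
    rw [h, map_zero] at hGf
    exact X_ne_zero (R := k) (0 : Fin 2) hGf.symm
  obtain ⟨d0, hd0, hd0'⟩ := Finset.exists_max_image G.support (wt (dg f) (dg g))
    (Finset.nonempty_iff_ne_empty.2 (fun h => hG0 (support_eq_empty.1 h)))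
  set W := wt (dg f) (dg g) d0 with hWdef
  have hT0 : TW (dg f) (dg g) W G ≠ 0 := by
    intro h
    have := congrArg (coeff d0) h
    rw [coeff_TW, if_pos rfl, coeff_zero] at this
    exact (mem_support_iff.1 hd0) this
  have hHdeg : degreeOf 1 (HH n m c⁻¹) ≠ 0 := by
    intro h
    -- derivative would vanish
    have h1 := pderiv_HH n m c⁻¹
    have h2 : pderiv 1 (HH n m c⁻¹) = 0 := by
      ext d
      rw [coeff_pderiv, coeff_zero]
      have : coeff (d + Finsupp.single 1 1) (HH n m c⁻¹) = 0 := by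
        by_contra hne
        have := monomial_le_degreeOf 1 (mem_support_iff.2 hne)
        rw [h] at this
        simp at this
      rw [this, zero_mul]
    rw [h2] at h1
    have h4 : (C (n : k) * X 1 ^ (n - 1) : MvPolynomial (Fin 2) k) ≠ 0 := by
      refine mul_ne_zero ?_ (pow_ne_zero _ (X_ne_zero _))
      rw [Ne, C_eq_zero]; exact_mod_cast hnpos.ne'
    exact h4 h1.symm
  have hHn : n ≤ degreeOf 1 (HH n m c⁻¹) := by
    have : coeff (Finsupp.single 1 n) (HH n m c⁻¹) ≠ 0 := by
      rw [HH, coeff_sub, coeff_X_pow, if_pos rfl, coeff_C_mul, coeff_X_pow, if_neg, mul_zero,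
        sub_zero]
      · exact one_ne_zero
      · intro h
        have := congrArg (fun z => z 1) h
        simp at this
        omega
    have := monomial_le_degreeOf 1 (mem_support_iff.2 this)
    simpa using this
  have hHu : ¬ IsUnit (HH n m c⁻¹) := by
    intro hu
    obtain ⟨v, hv⟩ := hu.exists_right_inv
    have hv0 : v ≠ 0 := by
      rintro rfl; simp at hv
    have hh0 : HH n m c⁻¹ ≠ 0 := by
      intro h; rw [h, zero_mul] at hv; exact zero_ne_one hv
    have := congrArg (degreeOf 1) hv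
    rw [degreeOf_mul_eq hh0 hv0] at this
    have h1 : degreeOf 1 (1 : MvPolynomial (Fin 2) k) = 0 := by
      rw [← C_1]; exact degreeOf_C _ _
    omega
  have hh0 : HH n m c⁻¹ ≠ 0 := by
    intro h; rw [h] at hHdeg; simp at hHdeg
  obtain ⟨j, b, hb, hTb⟩ := WfDvdMonoid.max_power_factor' hT0 hHu
  have hb0 : b ≠ 0 := by rintro rfl; exact hb (dvd_zero _)
  have hbe : aeval ![lf f, lf g] b ≠ 0 := by
    intro h
    exact hb (dvd_of_aeval hDpos (by rw [hn]; ring) (by rw [hm]; ring) hcop hnpos hc hrel hlf hlg b h)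
  have hmain := star hCHN hJDG hnpos hc hrel hlg hinj hc0 hjac j G W b hd0' hTb hbe
  rw [hGf] at hmain
  have hdX : dg (X 0 : MvPolynomial (Fin 2) k) = 1 := totalDegree_X _
  rw [hdX] at hmain
  -- weight bound
  have hWj : dg g * (n * j) ≤ W := by
    have h1 : n * j ≤ degreeOf 1 (TW (dg f) (dg g) W G) := by
      rw [hTb, degreeOf_mul_eq (pow_ne_zero _ hh0) hb0, degreeOf_pow_eq _ _ _ hh0]
      nlinarith
    obtain ⟨d, hd, hd'⟩ := Finset.exists_mem_eq_sup (TW (dg f) (dg g) W G).support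
      (Finset.nonempty_iff_ne_empty.2 (fun h => hT0 (support_eq_empty.1 h))) (fun m => m 1)
    rw [degreeOf_eq_sup, hd'] at h1
    have h2 : wt (dg f) (dg g) d = W := by
      by_contra h
      exact (mem_support_iff.1 hd) (by rw [coeff_TW, if_neg h])
    rw [← h2, wt]
    have : n * j * dg g ≤ d 1 * dg g := Nat.mul_le_mul_right _ h1
    nlinarith
  have hj : j = 0 := by
    by_contra hj0
    have hj1 : 1 ≤ j := Nat.one_le_iff_ne_zero.2 hj0
    have h1 : dg g * (2 * j) ≤ dg g * (n * j) :=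
      Nat.mul_le_mul_left _ (Nat.mul_le_mul_right _ hn2)
    have h2 : j * dg f + j ≤ j * dg g := by nlinarith
    nlinarith
  subst hj
  have hW1 : W ≤ 1 := by omega
  -- G is constant
  have hGc : G = C (coeff 0 G) := by
    ext d
    rw [coeff_C]
    by_cases h0 : (0 : Fin 2 →₀ ℕ) = d
    · rw [if_pos h0, h0]
    · rw [if_neg h0]
      by_contra hne
      have h1 := hd0' d (mem_support_iff.2 hne)
      have h2 : wt (dg f) (dg g) d ≤ 1 := le_trans h1 hW1
      apply h0
      have h3 : d 0 = 0 := by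
        by_contra h
        have : 1 ≤ d 0 := Nat.one_le_iff_ne_zero.2 h
        simp only [wt] at h2
        nlinarith
      have h4 : d 1 = 0 := by
        by_contra h
        have : 1 ≤ d 1 := Nat.one_le_iff_ne_zero.2 h
        simp only [wt] at h2
        nlinarith
      ext i
      fin_cases i
      · exact h3.symm
      · exact h4.symm
  rw [hGc] at hGf
  rw [← algebraMap_eq, AlgHom.commutes, algebraMap_eq] at hGf
  have := congrArg totalDegree hGf
  rw [totalDegree_C, totalDegree_X] at this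
  exact zero_ne_one this

end Pool.Agent.T2h61.PL.INQ
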